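import Pool.Agent.H86.T3G.Grw3
import Pool.Agent.H86.IK.Gen
import Pool.Agent.H68.TK.Unr

/-!
Growth of the three-Selmer group in the cyclotomic towers over a base field.
-/

set_option autoImplicit false
set_option linter.style.haveILetI false
open scoped Classical

open WithZero WeierstrassCurve IsDedekindDomain NumberField NumberField.Units Pool.Agent.H10
  Pool.Agent.H11 H5SW H55T3 H86IK

namespace H86T3

open H86IG

section

variable {k L : Type} [Field k] [NumberField k] [Field L] [NumberField L] [Algebra k L]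

/-- The number of infinite places. -/
theorem inf_ge (hreal : ∀ ψ : L →+* ℂ,
      ComplexEmbedding.IsReal (ψ.comp (algebraMap k L)) → ComplexEmbedding.IsReal ψ) :
    Fintype.card (InfinitePlace k) * Module.finrank k L ≤ Fintype.card (InfinitePlace L) := by
  have h1 := card_places L (fun _ => True)
  have h2 := card_places k (fun _ => True)
  have h3 := card_real hreal (fun _ => True)
  have h4 := card_complex (k := k) (L := L)
  have z1 : Nat.card {ψ : L →+* ℝ // ¬ True} = 0 := by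
    rw [Nat.card_eq_zero]
    exact Or.inl ⟨fun x => x.2 trivial⟩
  have z2 : Nat.card {ψ : k →+* ℝ // ¬ True} = 0 := by
    rw [Nat.card_eq_zero]
    exact Or.inl ⟨fun x => x.2 trivial⟩
  rw [z1, add_zero] at h1
  rw [z2, add_zero] at h2
  have h5 : 2 * (Fintype.card (InfinitePlace k) * Module.finrank k L) =
      2 * (Nat.card {φ : k →+* ℝ // True} * Module.finrank k L) +
        Nat.card {φ : k →+* ℂ // ¬ ComplexEmbedding.IsReal φ} * Module.finrank k L := by
    rw [← mul_assoc, ← h2]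
    ring
  omega

/-- Growth of the three-Selmer group, places of the base field unramified at infinity. -/
theorem growth_inf3 {a b : 𝓞 k} (hb0 : b ≠ 0) (hc0 : 9 * b + 4 * a ^ 3 ≠ 0)
    (S : Finset (HeightOneSpectrum (𝓞 k))) (hS3 : ∀ v ∈ S, (3 : 𝓞 k) ∈ v.asIdeal)
    (hS : ∀ v ∈ S, BadP v a b)
    (hunr : ∀ w : HeightOneSpectrum (𝓞 L), (3 : 𝓞 L) ∈ w.asIdeal → (3 : 𝓞 L) ∉ w.asIdeal ^ 2)
    (hreal : ∀ ψ : L →+* ℂ,
      ComplexEmbedding.IsReal (ψ.comp (algebraMap k L)) → ComplexEmbedding.IsReal ψ)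
    {V : WeierstrassCurve L} (h : Is3 V 1 (algebraMap k L a) (algebraMap k L b))
    (P : Finset V.toAffine.Point) (hP : ∀ X : V.toAffine.Point, ∃ p ∈ P, ∃ S, X = p + 3 • S)
    (T : Finset (Coch L V))
    (hT : ∀ f, IsCocycle L V f → IsLocTriv L V f → IsCobound L V (fun σ => 3 • f σ) →
      ∃ t ∈ T, IsCobound L V (fun σ => f σ - t σ)) :
    (∏ v ∈ S, Ideal.absNorm v.asIdeal) ^ Module.finrank k L ≤
      (3 ^ InfinitePlace.nrComplexPlaces k) ^ Module.finrank k L *
        (3 ^ {w : HeightOneSpectrum (𝓞 L) |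
          algebraMap (𝓞 k) (𝓞 L) (6 * b * (9 * b + 4 * a ^ 3)) ∈ w.asIdeal}.ncard *
          (9 * (P.card * T.card))) := by
  have h0 := growth_arb3 hb0 hc0 S hS3 hS hunr h P hP T hT
  set B := {w : HeightOneSpectrum (𝓞 L) |
          algebraMap (𝓞 k) (𝓞 L) (6 * b * (9 * b + 4 * a ^ 3)) ∈ w.asIdeal}.ncard with hB
  set X := (∏ v ∈ S, Ideal.absNorm v.asIdeal) ^ Module.finrank k L with hX
  have h1 := inf_ge hreal
  have h2 : rank L + 1 = Fintype.card (InfinitePlace L) := by
    rw [Units.rank]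
    have : 0 < Fintype.card (InfinitePlace L) := Fintype.card_pos
    omega
  have h3 : Module.finrank ℚ L = Module.finrank ℚ k * Module.finrank k L :=
    (Module.finrank_mul_finrank ℚ k L).symm
  have h4 : InfinitePlace.nrRealPlaces k + 2 * InfinitePlace.nrComplexPlaces k =
      Module.finrank ℚ k := InfinitePlace.card_add_two_mul_card_eq_rank k
  have h5 : Fintype.card (InfinitePlace k) =
      InfinitePlace.nrRealPlaces k + InfinitePlace.nrComplexPlaces k :=
    InfinitePlace.card_eq_nrRealPlaces_add_nrComplexPlaces k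
  have h6 : 3 ^ Module.finrank ℚ L =
      3 ^ (Fintype.card (InfinitePlace k) * Module.finrank k L) *
        (3 ^ InfinitePlace.nrComplexPlaces k) ^ Module.finrank k L := by
    rw [← pow_mul, ← pow_add, h3, ← h4, h5]
    congr 1
    ring
  have h7 : 3 ^ (Fintype.card (InfinitePlace k) * Module.finrank k L) ≤ 3 * 3 ^ rank L := by
    rw [← pow_succ', h2]
    exact Nat.pow_le_pow_right (by norm_num) h1
  have h8 : 0 < 3 ^ (Fintype.card (InfinitePlace k) * Module.finrank k L) := by positivity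
  refine Nat.le_of_mul_le_mul_left ?_ h8
  calc 3 ^ (Fintype.card (InfinitePlace k) * Module.finrank k L) * X
      ≤ (3 * 3 ^ rank L) * X := Nat.mul_le_mul_right _ h7
    _ = 3 * (X * 3 ^ rank L) := by ring
    _ ≤ 3 * (3 ^ Module.finrank ℚ L * (3 ^ B * (3 * (P.card * T.card)))) :=
        Nat.mul_le_mul_left _ h0
    _ = _ := by rw [h6]; ring

end

/-- Growth of the three-Selmer group in the fields `k L'`. -/
theorem growth_gen3 (p : ℕ) [Fact p.Prime] (hp2 : p ≠ 2) (hp3 : p ≠ 3) (k : Type) [Field k]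
    [NumberField k] (hk : H68TK.Unr3 k) {a b : 𝓞 k} (hb0 : b ≠ 0)
    (hc0 : 9 * b + 4 * a ^ 3 ≠ 0)
    (S : Finset (HeightOneSpectrum (𝓞 k))) (hS3 : ∀ v ∈ S, (3 : 𝓞 k) ∈ v.asIdeal)
    (hS : ∀ v ∈ S, BadP v a b) :
    ∃ C : ℕ, ∀ (L' L : Type) [Field L'] [NumberField L'] [Field L] [NumberField L] [Algebra k L]
      (h : L' →+* L), IsR p L' → IntermediateField.adjoin k (Set.range h) = ⊤ →
      ∀ (E : WeierstrassCurve L), Is3 E 1 (algebraMap k L a) (algebraMap k L b) →
      ∀ (P : Finset E.toAffine.Point) (T : Finset (Coch L E)),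
      (∀ X : E.toAffine.Point, ∃ p ∈ P, ∃ S, X = p + 3 • S) →
      (∀ f, IsCocycle L E f → IsLocTriv L E f → IsCobound L E (fun σ => 3 • f σ) →
        ∃ t ∈ T, IsCobound L E (fun σ => f σ - t σ)) →
      (∏ v ∈ S, Ideal.absNorm v.asIdeal) ^ Module.finrank k L ≤
        (3 ^ InfinitePlace.nrComplexPlaces k) ^ Module.finrank k L *
          (C * (P.card * T.card)) := by
  set z : 𝓞 k := 6 * b * (9 * b + 4 * a ^ 3) with hz
  have hz0 : z ≠ 0 := mul_ne_zero (mul_ne_zero (by norm_num) hb0) hc0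
  set D : ℤ := (Ideal.absNorm (Ideal.span {z}) : ℤ) with hD
  have hD0 : D ≠ 0 := by
    rw [hD]
    have h1 : Ideal.absNorm (Ideal.span {z}) ≠ 0 := by
      rw [Ne, Ideal.absNorm_eq_zero_iff, Ideal.span_singleton_eq_bot]
      exact hz0
    exact_mod_cast h1
  have hzD : z ∣ (D : 𝓞 k) := by
    have h1 := Ideal.absNorm_mem (Ideal.span {z})
    rw [Ideal.mem_span_singleton] at h1
    rw [hD]
    exact_mod_cast h1
  obtain ⟨s, hs⟩ := bad_count (p := p) hp2 hD0
  refine ⟨3 ^ (Module.finrank ℚ k * s) * 9, ?_⟩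
  intro L' L _ _ _ _ _ hL hR hgen E hE P T hP hT
  have hd := finrank_gen hL hgen
  letI := hL.toAlgebra
  haveI := hR.1
  refine (growth_inf3 hb0 hc0 S hS3 hS (H68TK.unr3_gen hp3 hk hL hR hgen) (real_gen hL hgen) hE
    P hP T hT).trans ?_
  refine Nat.mul_le_mul_left _ ?_
  rw [mul_assoc (3 ^ (Module.finrank ℚ k * s)) 9]
  refine Nat.mul_le_mul_right _ (Nat.pow_le_pow_right (n := 3) (by norm_num) ?_)
  refine le_trans ?_ ((ncard_above (K := L') hD0).trans (Nat.mul_le_mul hd (hs L' hR)))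
  refine Set.ncard_le_ncard ?_ (bad_fin (L := L) hD0)
  intro w hw
  change (D : 𝓞 L) ∈ w.asIdeal
  have h1 : algebraMap (𝓞 k) (𝓞 L) z ∈ w.asIdeal := hw
  obtain ⟨c, hc⟩ := hzD
  have h2 : (D : 𝓞 L) = algebraMap (𝓞 k) (𝓞 L) z * algebraMap (𝓞 k) (𝓞 L) c := by
    rw [← map_mul, ← hc, map_intCast]
  rw [h2]
  exact Ideal.mul_mem_right _ _ h1

end H86T3
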