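import Pool.Agent.H86.T3G.Coc3
import Pool.Agent.H10.Iso3

/-!
Row Cnt3 (about 220 lines): counting classes. (Model: Pool/Agent/H86/IG/Cnt.lean, count_classesQ; same structure.)

PROOF. Cocycles `f i`, roots `r i` from exists_coc3; `3 • f i σ = 0` (kr_three). hT: `t i ∈ T` with `f i - t i` a coboundary. It is enough to bound each fibre `{i | t i = t₀}` by `3 * P.card` (Finset.card_le_mul_card_image), and in it each fibre of `i ↦ p (X i)` by 3.
 In the fibre of `t₀` (fix `i₀` in it): `R i` with `f i σ - f i₀ σ = act σ (R i) - R i`; `3 • R i` is Galois invariant, so it is the image of `X i ∈ V(L)` (pm_descent); `X i = p (X i) + 3 • S (X i)`. Fix `i` in a fibre of both maps, and for `j` in it put `D j := R i - R j - (image of S (X i) - S (X j))`: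
 `3 • D j = 0` and `f i σ - f j σ = act σ (D j) - D j`. `k j := psF V' W' (D j)` (`V', W'` base changes, `W` the dual curve `Is3.dual h`, Is3.bcd) is in Kr (kr_psF) and Kr has at most three elements (ee_inj: ee takes at most three values, the roots of `X^3 - 1`; D = 1 here is for V; for W' use Ke_kr: `0` or `(0, y)` with `y^2 = const`, at most three).
 If `k j = k l` then `D j - D l =: K` is in Kr (psF_add/neg, psF_eq_zero), and `f l σ - f j σ = act σ K - K`, `ee (act σ K - K) = σ z / z` with `z := ee K`, `z^3 = 1` (ee_add, ee_neg, ee_pm, as in the proof of H55T3.loc_gen). So `σ (r l / r j) = (ee (f l σ) / ee (f j σ)) (r l / r j) = (σ z / z)(r l / r j)`, `r l / (r j z)` is fixed by all `σ`,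
 so it is in `L` (fixed_of_galois), and its cube is `d l / d j`: hdist gives `l = j`. So `j ↦ k j` is injective on the fibre: at most three elements.
-/

set_option autoImplicit false
open scoped Classical

open WeierstrassCurve IsDedekindDomain NumberField Pool.Agent.H10 Pool.Agent.H11 H55T3

namespace H86T3

private theorem Cnt3_num {k : Type*} [Field k] [IsAlgClosed k] {W : WeierstrassCurve k} {D a b : k}
    (h : Is3 W D a b) {ι : Type*} (F : Finset ι) (g : ι → W.toAffine.Point) (hk : ∀ i ∈ F, Kr (g i))
    (hi : ∀ i ∈ F, ∀ j ∈ F, g i = g j → i = j) : F.card ≤ 3 := by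
  obtain ⟨s, hs⟩ := IsAlgClosed.exists_pow_nat_eq D (n := 2) (by norm_num)
  have h1 : F.card ≤ (Polynomial.nthRootsFinset 3 (1 : k)).card := by
    apply Finset.card_le_card_of_injOn (fun i => ee s b (g i))
    · intro i hi'
      rw [Finset.mem_coe, Polynomial.mem_nthRootsFinset (by norm_num)]
      exact ee_cube h hs (hk i hi')
    · intro i hi' j hj he
      exact hi i hi' j hj (ee_inj h hs (hk i hi') (hk j hj) he)
  refine h1.trans ?_
  have h2 : (Polynomial.nthRootsFinset 3 (1 : k)).card ≤ Multiset.card (Polynomial.nthRoots 3 (1 : k)) := by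
    rw [Polynomial.nthRootsFinset_def]
    exact Multiset.toFinset_card_le _
  exact h2.trans (Polynomial.card_nthRoots 3 1)

private theorem Cnt3_pair {L : Type} [Field L] [NumberField L] {V : WeierstrassCurve L} {a b : L}
    (h : Is3 V 1 a b) {f g : Coch L V} {r s : AlgebraicClosure L} {d e : L} (hs0 : s ≠ 0)
    (hr3 : r ^ 3 = algebraMap L (AlgebraicClosure L) d)
    (hs3 : s ^ 3 = algebraMap L (AlgebraicClosure L) e)
    (hf : ∀ σ, Kr (f σ) ∧ σ r = ee 1 (algebraMap L (AlgebraicClosure L) b) (f σ) * r)
    (hg : ∀ σ, Kr (g σ) ∧ σ s = ee 1 (algebraMap L (AlgebraicClosure L) b) (g σ) * s)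
    (T : (V.baseChange (AlgebraicClosure L)).toAffine.Point) (hT : Kr T)
    (hfg : ∀ σ, f σ - g σ = act (inv_bc L V) σ T - T) : ∃ t, d / e = t ^ 3 := by
  have hE : Is3 (V.baseChange (AlgebraicClosure L)) 1 (algebraMap L (AlgebraicClosure L) a)
      (algebraMap L (AlgebraicClosure L) b) := by
    have h1 := h.bc (AlgebraicClosure L)
    rw [map_one] at h1
    exact h1
  have hs' : (1 : AlgebraicClosure L) ^ 2 = 1 := one_pow 2
  obtain ⟨z, hz⟩ : ∃ z, z = ee 1 (algebraMap L (AlgebraicClosure L) b) T := ⟨_, rfl⟩
  have hz3 : z ^ 3 = 1 := by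
    rw [hz]
    exact ee_cube hE hs' hT
  have hz0 : z ≠ 0 := by
    intro h0
    rw [h0] at hz3
    norm_num at hz3
  have hne : ∀ σ, ee 1 (algebraMap L (AlgebraicClosure L) b) (g σ) ≠ 0 := by
    intro σ h0
    have h1 := ee_cube hE hs' (hg σ).1
    rw [h0] at h1
    norm_num at h1
  have key : ∀ σ : AlgebraicClosure L ≃ₐ[L] AlgebraicClosure L,
      ee 1 (algebraMap L (AlgebraicClosure L) b) (f σ) =
        ee 1 (algebraMap L (AlgebraicClosure L) b) (g σ) * (σ z * z⁻¹) := by
    intro σ
    have h2 : ee 1 (algebraMap L (AlgebraicClosure L) b) (act (inv_bc L V) σ T) = σ z := by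
      have h3 := ee_pm (s := (1 : AlgebraicClosure L)) (b := algebraMap L (AlgebraicClosure L) b)
        (φ := (σ : AlgebraicClosure L →+* AlgebraicClosure L)) (inv_bc L V σ) T
      have e1 : (σ : AlgebraicClosure L →+* AlgebraicClosure L) 1 = 1 := map_one _
      have e2 : (σ : AlgebraicClosure L →+* AlgebraicClosure L) (algebraMap L (AlgebraicClosure L) b) =
        algebraMap L (AlgebraicClosure L) b := σ.commutes b
      rw [e1, e2, ← hz] at h3
      exact h3
    have h4 : Kr (act (inv_bc L V) σ T) := (kr_pm (inv_bc L V σ) T).2 hT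
    have h5 : Kr (act (inv_bc L V) σ T - T) := by
      rw [sub_eq_add_neg]
      exact kr_add hE h4 (kr_neg.2 hT)
    have h6 : f σ = g σ + (act (inv_bc L V) σ T - T) := by
      rw [← hfg σ]
      abel
    rw [h6, ee_add hE hs' (hg σ).1 h5, sub_eq_add_neg, ee_add hE hs' h4 (kr_neg.2 hT),
      ee_neg hE hs' hT, h2, ← hz]
  obtain ⟨y, hy⟩ := fixed_of_galois (k := L) (r / (s * z)) (fun σ => by
    have h0 := hne σ
    have hσz : σ z ≠ 0 := (map_ne_zero_iff σ σ.injective).2 hz0
    rw [map_div₀, map_mul, (hf σ).2, (hg σ).2, key σ]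
    field_simp)
  refine ⟨y, ?_⟩
  apply (algebraMap L (AlgebraicClosure L)).injective
  rw [map_pow, hy, div_pow, mul_pow, hz3, mul_one, map_div₀, hr3, hs3]

theorem count_classes3 {L : Type} [Field L] [NumberField L] {V : WeierstrassCurve L} {a b : L}
    (h : Is3 V 1 a b) {ι : Type} [Fintype ι] (d : ι → L)
    (hd0 : ∀ i, d i ≠ 0) (hfin : ∀ i, FinSol3 L 1 a (9 * b + 4 * a ^ 3) (d i))
    (hdist : ∀ i j, (∃ t, d i / d j = t ^ 3) → i = j)
    (P : Finset V.toAffine.Point) (hP : ∀ X : V.toAffine.Point, ∃ p ∈ P, ∃ S, X = p + 3 • S)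
    (T : Finset (Coch L V))
    (hT : ∀ f, IsCocycle L V f → IsLocTriv L V f → IsCobound L V (fun σ => 3 • f σ) →
      ∃ t ∈ T, IsCobound L V (fun σ => f σ - t σ)) :
    Fintype.card ι ≤ 3 * (P.card * T.card) := by
  set iL := inv_bc (Ω := AlgebraicClosure L) L V with hiL
  have hL : V.map (algebraMap L (AlgebraicClosure L)) = V.baseChange (AlgebraicClosure L) := rfl
  have hE : Is3 (V.baseChange (AlgebraicClosure L)) 1 (algebraMap L (AlgebraicClosure L) a)
      (algebraMap L (AlgebraicClosure L) b) := by
    have h1 := h.bc (AlgebraicClosure L)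
    rw [map_one] at h1
    exact h1
  have key := fun i => exists_coc3 h (hd0 i) (hfin i)
  choose f r hfc hfl hr0 hr3 hkr using key
  have hf3 : ∀ i σ, 3 • f i σ = 0 := fun i σ => kr_three hE (hkr i σ).1
  have hcb : ∀ i, ∃ t ∈ T, IsCobound L V (fun σ => f i σ - t σ) := by
    intro i
    apply hT _ (hfc i) (hfl i)
    rw [Pool.Agent.H10.isCobound_iff]
    exact ⟨0, fun σ => by rw [hf3, map_zero, sub_zero]⟩
  choose t ht hcob using hcb
  have hfib : ∀ t₀ ∈ Finset.univ.image t,
      (Finset.univ.filter fun i => t i = t₀).card ≤ 3 * P.card := by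
    intro t₀ ht₀
    rw [Finset.mem_image] at ht₀
    obtain ⟨i₀, -, hi₀⟩ := ht₀
    have hR : ∀ i, t i = t₀ → ∃ R : (V.baseChange (AlgebraicClosure L)).toAffine.Point,
        ∀ σ, f i σ - f i₀ σ = act iL σ R - R := by
      intro i hi
      obtain ⟨Q, hQ⟩ := (Pool.Agent.H10.isCobound_iff _).mp (hcob i)
      obtain ⟨Q₀, hQ₀⟩ := (Pool.Agent.H10.isCobound_iff _).mp (hcob i₀)
      refine ⟨Q - Q₀, fun σ => ?_⟩
      have e1 : f i σ - t i σ = act iL σ Q - Q := hQ σ
      have e2 : f i₀ σ - t i₀ σ = act iL σ Q₀ - Q₀ := hQ₀ σ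
      rw [hi] at e1
      rw [hi₀] at e2
      rw [map_sub]
      calc f i σ - f i₀ σ = (f i σ - t₀ σ) - (f i₀ σ - t₀ σ) := by abel
        _ = _ := by rw [e1, e2]; abel
    choose! R hR using hR
    have hX : ∀ i, t i = t₀ → ∃ X : V.toAffine.Point,
        pm (algebraMap L (AlgebraicClosure L)) hL X = 3 • R i := by
      intro i hi
      refine pm_descent hL iL _ fun σ => ?_
      have e1 := hR i hi σ
      rw [map_nsmul, ← sub_eq_zero, ← nsmul_sub, ← e1, nsmul_sub, hf3, hf3, sub_zero]
    choose! X hX using hX
    choose p hp S hS using hP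
    set j₀ := pm (algebraMap L (AlgebraicClosure L)) hL with hj₀
    have hinv : ∀ (σ : AlgebraicClosure L ≃ₐ[L] AlgebraicClosure L) (Y : V.toAffine.Point),
        act iL σ (j₀ Y) = j₀ Y := by
      intro σ Y
      unfold Pool.Agent.H10.act
      rw [hj₀, pm_pm]
      exact pm_congr _ _ (fun x => σ.commutes x) _
    have h2 := Finset.card_le_mul_card_image (f := fun i => p (X i))
      (Finset.univ.filter fun i => t i = t₀) 3 (by
        intro p₀ hp₀
        rw [Finset.mem_image] at hp₀
        obtain ⟨i, hi, hip⟩ := hp₀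
        simp only [Finset.mem_filter, Finset.mem_univ, true_and] at hi
        let D := fun j => R i - R j - j₀ (S (X i) - S (X j))
        have hD3 : ∀ j, t j = t₀ → p (X j) = p₀ → 3 • D j = 0 := by
          intro j hj hjp
          have e1 := hX i hi
          have e2 := hX j hj
          have e3 : X i - X j = 3 • (S (X i) - S (X j)) := by
            have a1 := hS (X i)
            have a2 := hS (X j)
            have hip' : p (X i) = p₀ := hip
            rw [hip'] at a1
            rw [hjp] at a2
            rw [nsmul_sub]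
            calc X i - X j = (p₀ + 3 • S (X i)) - (p₀ + 3 • S (X j)) := by rw [← a1, ← a2]
              _ = _ := by abel
          have e4 := congrArg j₀ e3
          rw [map_sub, map_nsmul, e1, e2] at e4
          change 3 • (R i - R j - j₀ (S (X i) - S (X j))) = 0
          rw [nsmul_sub, nsmul_sub, e4, sub_self]
        have hDa : ∀ j, t j = t₀ → ∀ σ, f i σ - f j σ = act iL σ (D j) - D j := by
          intro j hj σ
          have e1 := hR i hi σ
          have e2 := hR j hj σ
          have e3 : act iL σ (D j) = act iL σ (R i) - act iL σ (R j) - j₀ (S (X i) - S (X j)) := by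
            change act iL σ (R i - R j - j₀ (S (X i) - S (X j))) = _
            rw [map_sub, map_sub, hinv]
          calc f i σ - f j σ = (f i σ - f i₀ σ) - (f j σ - f i₀ σ) := by abel
            _ = (act iL σ (R i) - R i) - (act iL σ (R j) - R j) := by rw [e1, e2]
            _ = (act iL σ (R i) - act iL σ (R j) - j₀ (S (X i) - S (X j))) - D j := by
                change _ = _ - (R i - R j - j₀ (S (X i) - S (X j)))
                abel
            _ = act iL σ (D j) - D j := by rw [e3]
        refine Cnt3_num hE.dual _ (fun j => psF _ _ 1 (algebraMap L (AlgebraicClosure L) a)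
          (algebraMap L (AlgebraicClosure L) b) (D j)) ?_ ?_
        · intro j hj
          simp only [Finset.mem_filter, Finset.mem_univ, true_and] at hj
          exact kr_psF hE hE.dual (hD3 j hj.1 hj.2)
        · intro j hj l hl hjl
          simp only [Finset.mem_filter, Finset.mem_univ, true_and] at hj hl
          have hK : Kr (D l - D j) := by
            rw [← psF_eq_zero hE hE.dual, sub_eq_add_neg, psF_add hE hE.dual, psF_neg hE hE.dual, hjl,
              add_neg_cancel]
          apply hdist
          refine Cnt3_pair h (hr0 l) (hr3 j) (hr3 l) (hkr j) (hkr l) (D l - D j) hK fun σ => ?_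
          have e1 := hDa j hj.1 σ
          have e2 := hDa l hl.1 σ
          calc f j σ - f l σ = (f i σ - f l σ) - (f i σ - f j σ) := by abel
            _ = act iL σ (D l) - D l - (act iL σ (D j) - D j) := by rw [e1, e2]
            _ = act iL σ (D l - D j) - (D l - D j) := by
                have e3 := map_sub (Pool.Agent.H10.act iL σ) (D l) (D j)
                rw [e3]
                generalize D l = Dl
                generalize D j = Dj
                abel)
    refine h2.trans (Nat.mul_le_mul_left _ (Finset.card_le_card ?_))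
    intro x hx
    rw [Finset.mem_image] at hx
    obtain ⟨i, -, rfl⟩ := hx
    exact hp _
  have h1 := Finset.card_le_mul_card_image (f := t) Finset.univ (3 * P.card) hfib
  rw [Finset.card_univ] at h1
  refine h1.trans ?_
  rw [mul_assoc]
  refine Nat.mul_le_mul_left _ (Nat.mul_le_mul_left _ (Finset.card_le_card ?_))
  intro x hx
  rw [Finset.mem_image] at hx
  obtain ⟨i, -, rfl⟩ := hx
  exact ht i

end H86T3
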