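import Pool.Agent.H86.T3G.Glc

/-!
Row Mul (about 140 lines).

PROOF of locSol_mul, locSol_inv. `Ω := AlgebraicClosure F` (`IsGalois F Ω` from the hypothesis `PerfectField F`: normal, and separable by `Algebra.IsAlgebraic.isSeparable_of_perfectField`); `V := ⟨0, -3 a^2, 0, -6 a b, -3 b^2⟩` over `F`, `Is3 V 1 a b` (fields by rfl/ring; hc as `9 b + 4 * 1 * a^3`),
 `E := V.baseChange Ω`, `Is3 E (algebraMap 1) ..` by Is3.bc (rewrite map_one), `h := inv_bc F V` (for the algebraic closure). Roots `r, s ∈ Ω` with `r^3 = d`, `s^3 = e` (IsAlgClosed.exists_pow_nat_eq), non zero. gen_loc: `P, Q`. `R := P + Q`: `act τ R - R = (act τ P - P) + (act τ Q - Q)`, Kr by kr_add,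
 `ee` multiplicative (ee_add), so `τ (r s) = ee (act τ R - R) (r s)`: `H55T3.loc_gen` with `D = 1, s = 1` (the constants appear as `algebraMap F Ω 1`: rewrite with map_one) gives LocSol for `d e`. Inverse: `-P`, `r⁻¹` (kr_neg, ee_neg).
locSol_cube: left. locSol_mul_cube: d (t^3): if d = s^3 then (s t)^3; if (U, v) is a solution for d then (U', v') = (t U, v / t) is one for d t^3: `(d t^3)^2 (v/t)^3 - (t U)^3 = t^3 (d^2 v^3 - U^3) = d t^3 (6 a U v + 2 c)` and `(t U)(v / t) = U v`.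
locSol_scale: `(U, v) ↦ (r U, r v)`: `d^2 (r v)^3 - (r U)^3 = r^3 d (6 a U v + 2 c) = d (6 (r a)(r U)(r v) + 2 r^3 c)`. (`s = 1`.)
locSol_div: from mul and inv.
-/

set_option autoImplicit false
open scoped Classical

open WeierstrassCurve IsDedekindDomain NumberField Pool.Agent.H10 H55T3

namespace H86T3

variable {F : Type*} [Field F]

theorem locSol_cube {a c t : F} : LocSol 1 a c (t ^ 3) := Or.inl ⟨t, rfl⟩

theorem locSol_mul_cube {a c d t : F} (ht : t ≠ 0) (H : LocSol 1 a c d) :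
    LocSol 1 a c (d * t ^ 3) := by
  rcases H with ⟨s, hs⟩ | ⟨U, V, h⟩
  · left
    exact ⟨s * t, by rw [hs]; ring⟩
  · right
    refine ⟨t * U, V / t, ?_⟩
    have h1 : (d * t ^ 3) ^ 2 * (V / t) ^ 3 = d ^ 2 * V ^ 3 * t ^ 3 := by
      field_simp
    have h2 : 6 * a * (t * U) * (V / t) = 6 * a * U * V := by
      field_simp
    rw [h1, h2]
    linear_combination t ^ 3 * h

private theorem Mul_scale {a c d r : F} (H : LocSol 1 a c d) :
    LocSol 1 (r * a) (r ^ 3 * c) d := by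
  rcases H with ⟨s, hs⟩ | ⟨U, V, h⟩
  · left
    exact ⟨s, hs⟩
  · right
    refine ⟨r * U, r * V, ?_⟩
    linear_combination r ^ 3 * h

theorem locSol_scale {a c d r : F} (hr : r ≠ 0) :
    LocSol 1 (r * a) (r ^ 3 * c) d ↔ LocSol 1 a c d := by
  constructor
  · intro H
    have h1 := Mul_scale (r := r⁻¹) H
    have e1 : r⁻¹ * (r * a) = a := by
      field_simp
    have e2 : r⁻¹ ^ 3 * (r ^ 3 * c) = c := by
      field_simp
    rw [e1, e2] at h1
    exact h1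
  · exact Mul_scale

section

variable [PerfectField F] {a b d e : F}

private theorem Mul_gal : IsGalois F (AlgebraicClosure F) := by
  have h1 : Algebra.IsSeparable F (AlgebraicClosure F) :=
    Algebra.IsAlgebraic.isSeparable_of_perfectField
  exact ⟨⟩

omit [PerfectField F] in
private theorem Mul_curve (h2 : (2 : F) ≠ 0) (h3 : (3 : F) ≠ 0) (hb : b ≠ 0)
    (hc : 9 * b + 4 * a ^ 3 ≠ 0) :
    ∃ E : WeierstrassCurve (AlgebraicClosure F), Inv F E ∧
      Is3 E 1 (algebraMap F (AlgebraicClosure F) a) (algebraMap F (AlgebraicClosure F) b) := by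
  obtain ⟨V, hV⟩ : ∃ V : WeierstrassCurve F, V = ⟨0, -3 * 1 * a ^ 2, 0, -6 * 1 * a * b,
    -3 * 1 * b ^ 2⟩ := ⟨_, rfl⟩
  have h1 : Is3 V 1 a b := by
    subst hV
    exact ⟨rfl, rfl, rfl, rfl, rfl, one_ne_zero, hb, by rw [mul_one]; exact hc, h2, h3⟩
  refine ⟨V.baseChange (AlgebraicClosure F), inv_bc F V, ?_⟩
  have h4 := h1.bc (AlgebraicClosure F)
  rw [map_one] at h4
  exact h4

private theorem Mul_back {E : WeierstrassCurve (AlgebraicClosure F)} (h : Inv F E)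
    (hE : Is3 E 1 (algebraMap F (AlgebraicClosure F) a) (algebraMap F (AlgebraicClosure F) b))
    {r : AlgebraicClosure F} (hr : r ≠ 0) (hd : r ^ 3 = algebraMap F (AlgebraicClosure F) d)
    {P : E.toAffine.Point} (hP : ∀ τ : AlgebraicClosure F ≃ₐ[F] AlgebraicClosure F,
      Kr (act h τ P - P) ∧
      τ r = ee 1 (algebraMap F (AlgebraicClosure F) b) (act h τ P - P) * r) :
    LocSol 1 a (9 * b + 4 * a ^ 3) d := by
  have hG : IsGalois F (AlgebraicClosure F) := Mul_gal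
  have hE' : Is3 E (algebraMap F (AlgebraicClosure F) 1) (algebraMap F (AlgebraicClosure F) a)
      (algebraMap F (AlgebraicClosure F) b) := by
    rw [map_one]
    exact hE
  have h1 := loc_gen (s := (1 : F)) hE' (one_pow 2) h (fun τ => (hP τ).1) hr hd (fun τ => by
    rw [map_one]
    exact (hP τ).2)
  rw [mul_one] at h1
  exact h1

omit [PerfectField F] in
private theorem Mul_root (hd : d ≠ 0) : ∃ r : AlgebraicClosure F, r ≠ 0 ∧
    r ^ 3 = algebraMap F (AlgebraicClosure F) d := by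
  obtain ⟨r, hr⟩ := IsAlgClosed.exists_pow_nat_eq (algebraMap F (AlgebraicClosure F) d)
    (n := 3) (by norm_num)
  refine ⟨r, ?_, hr⟩
  rintro rfl
  rw [zero_pow (by norm_num)] at hr
  exact hd ((map_eq_zero (algebraMap F (AlgebraicClosure F))).1 hr.symm)

theorem locSol_mul (h2 : (2 : F) ≠ 0) (h3 : (3 : F) ≠ 0) (hb : b ≠ 0)
    (hc : 9 * b + 4 * a ^ 3 ≠ 0) (hd : d ≠ 0) (he : e ≠ 0)
    (H : LocSol 1 a (9 * b + 4 * a ^ 3) d) (H' : LocSol 1 a (9 * b + 4 * a ^ 3) e) :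
    LocSol 1 a (9 * b + 4 * a ^ 3) (d * e) := by
  obtain ⟨E, h, hE⟩ := Mul_curve h2 h3 hb hc
  obtain ⟨r, hr, hrd⟩ := Mul_root hd
  obtain ⟨s, hs, hse⟩ := Mul_root he
  obtain ⟨P, hP⟩ := gen_loc hE h hr hrd H
  obtain ⟨Q, hQ⟩ := gen_loc hE h hs hse H'
  refine Mul_back h hE (mul_ne_zero hr hs) (by rw [mul_pow, hrd, hse, map_mul]) (P := P + Q)
    fun τ => ?_
  have e1 : act h τ (P + Q) - (P + Q) = (act h τ P - P) + (act h τ Q - Q) := by
    rw [map_add, add_sub_add_comm]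
  obtain ⟨p1, p2⟩ := hP τ
  obtain ⟨q1, q2⟩ := hQ τ
  rw [e1, ee_add hE (one_pow 2) p1 q1, map_mul, p2, q2]
  exact ⟨kr_add hE p1 q1, by ring⟩

theorem locSol_inv (h2 : (2 : F) ≠ 0) (h3 : (3 : F) ≠ 0) (hb : b ≠ 0)
    (hc : 9 * b + 4 * a ^ 3 ≠ 0) (hd : d ≠ 0) (H : LocSol 1 a (9 * b + 4 * a ^ 3) d) :
    LocSol 1 a (9 * b + 4 * a ^ 3) d⁻¹ := by
  obtain ⟨E, h, hE⟩ := Mul_curve h2 h3 hb hc
  obtain ⟨r, hr, hrd⟩ := Mul_root hd
  obtain ⟨P, hP⟩ := gen_loc hE h hr hrd H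
  refine Mul_back h hE (inv_ne_zero hr) (by rw [inv_pow, hrd, map_inv₀]) (P := -P)
    fun τ => ?_
  have e1 : act h τ (-P) - (-P) = -(act h τ P - P) := by
    rw [map_neg]
    abel
  obtain ⟨p1, p2⟩ := hP τ
  rw [e1, ee_neg hE (one_pow 2) p1, map_inv₀, p2, mul_inv]
  exact ⟨kr_neg.2 p1, rfl⟩

theorem locSol_div (h2 : (2 : F) ≠ 0) (h3 : (3 : F) ≠ 0) (hb : b ≠ 0)
    (hc : 9 * b + 4 * a ^ 3 ≠ 0) (hd : d ≠ 0) (he : e ≠ 0)
    (H : LocSol 1 a (9 * b + 4 * a ^ 3) d) (H' : LocSol 1 a (9 * b + 4 * a ^ 3) e) :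
    LocSol 1 a (9 * b + 4 * a ^ 3) (d / e) := by
  rw [div_eq_mul_inv]
  exact locSol_mul h2 h3 hb hc hd (inv_ne_zero he) H (locSol_inv h2 h3 hb hc he H')

end

end H86T3
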