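import Pool.Agent.H86.T3G.Glc
import Pool.Agent.H10.Hasse

/-!
Row Coc3 (about 200 lines): the cocycle with values in the kernel attached to a locally soluble class. (Model: Pool/Agent/H86/IG/Coc.lean, same structure.)

PROOF. `Ω := AlgebraicClosure K`, `E := V.baseChange Ω`, `hE : Is3 E 1 a b` (images; Is3.bc, map_one). `r` with `r^3 = d` (IsAlgClosed.exists_pow_nat_eq), `r ≠ 0`. For `σ`: `(σ r / r)^3 = 1`; `f σ` := the unique `P` with `Kr P`, `ee 1 b P = σ r / r` (ee_surj, ee_inj; choose a function `g : Ω → Point` with `Kr (g z)`, `ee (g z) = z` if `z^3 = 1`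
 and put `f σ := g (σ r / r)`).
 IsCocycle via isCocycle_iff (H10/Func4): locally constant as `f` is a function of `σ r` (stabilizer of `r` open: Coc_lc in H86/IG/Coc.lean); cocycle: `ee (f σ + act σ (f τ)) = ee (f σ) * σ (ee (f τ)) = (σ r / r) (σ (τ r) / σ r) = (σ τ) r / r` (ee_add, ee_pm with φ = σ as in Xa_ee of H55/T3/Xa.lean; Kr (act σ P) by kr_pm), ee_inj.
 IsLocTriv via isLocTriv_iff (H10/Func4): for a place with field `F` (`v.adicCompletion K` or `v.Completion`) and `ι : K^al → F^al`: gen_loc over `F` with `Ω := AlgebraicClosure F`, `E := V.baseChange F^al`, `h := inv_bc' V`, the images of `a, b, d` in `F`, the root `ι r`; LocSol from `hfin v` (algebraMap K F of 9 b + 4 a^3: simp map_add, map_mul, map_pow)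
  resp. from the fact that `d` is a cube in `v.Completion` (complex: algebraically closed; real: `x ↦ x^3` is surjective on ℝ; the completion is isomorphic to ℝ or ℂ as in H86/IG/Rl.lean or H10/Hasse: InfinitePlace.Completion.ringEquivRealOfIsReal / ringEquivComplexOfIsComplex).
  gen_loc gives `P` with `Kr (act τ P - P)`, `τ (ι r) = ee (act τ P - P) (ι r)`. For `τ, σ` with `τ (ι x) = ι (σ x)`: `pm ι (f σ) = act τ P - P` because both are in Kr and have the same `ee`: `ee (pm ι (f σ)) = ι (ee (f σ)) = ι (σ r / r) = τ (ι r) / ι r` (ee_pm, kr_pm, ee_inj; compare Lo_one in H55/T3/Lo.lean).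
-/

set_option autoImplicit false
open scoped Classical

open WeierstrassCurve IsDedekindDomain NumberField Pool.Agent.H10 Pool.Agent.H11 H55T3

namespace H86T3

theorem Coc3_lc {K X : Type} [Field K] [NumberField K] (g : AlgebraicClosure K → X)
    (r : AlgebraicClosure K) :
    IsLocallyConstant (fun σ : AlgebraicClosure K ≃ₐ[K] AlgebraicClosure K => g (σ r)) := by
  rw [IsLocallyConstant.iff_exists_open]
  intro σ
  have h1 := stabilizer_isOpen_of_isIntegral (K := K) (L := AlgebraicClosure K) r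
  refine ⟨(fun τ => σ⁻¹ * τ) ⁻¹'
      (MulAction.stabilizer (AlgebraicClosure K ≃ₐ[K] AlgebraicClosure K) r :
          Set (AlgebraicClosure K ≃ₐ[K] AlgebraicClosure K)),
      h1.preimage (continuous_const_mul σ⁻¹), ?_, ?_⟩
  · simp
  · intro τ k1
    have k2 : (σ⁻¹ * τ) r = r := k1
    have mv : τ r = σ r := by
      have : σ ((σ⁻¹ * τ) r) = σ r := by rw [k2]
      rw [← AlgEquiv.mul_apply, mul_inv_cancel_left] at this
      exact this
    change g (τ r) = g (σ r)
    rw [mv]

theorem Coc3_one {k : Type*} [Field k] : (1 : k) ^ 2 = 1 := one_pow 2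

theorem Coc3_ee {K : Type} [Field K] [NumberField K] {V : WeierstrassCurve K} {b : K}
    (σ : AlgebraicClosure K ≃ₐ[K] AlgebraicClosure K)
    (T : (V.baseChange (AlgebraicClosure K)).toAffine.Point) :
    ee 1 (algebraMap K (AlgebraicClosure K) b) (act (inv_bc K V) σ T) =
      σ (ee 1 (algebraMap K (AlgebraicClosure K) b) T) := by
  have h1 := ee_pm (s := (1 : AlgebraicClosure K)) (b := algebraMap K (AlgebraicClosure K) b)
    (φ := (σ : AlgebraicClosure K →+* AlgebraicClosure K)) (inv_bc K V σ) T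
  have h3 : (σ : AlgebraicClosure K →+* AlgebraicClosure K)
      (algebraMap K (AlgebraicClosure K) b) = algebraMap K (AlgebraicClosure K) b := σ.commutes _
  rw [map_one, h3] at h1
  exact h1

theorem Coc3_loc {K : Type} [Field K] [NumberField K] {V : WeierstrassCurve K} {a b d : K}
    (h : Is3 V 1 a b) {F : Type} [Field F] [Algebra K F] {f : Coch K V}
    {r : AlgebraicClosure K} (hr : r ≠ 0)
    (hd : r ^ 3 = algebraMap K (AlgebraicClosure K) d)
    (hf : ∀ σ, Kr (f σ) ∧ σ r = ee 1 (algebraMap K (AlgebraicClosure K) b) (f σ) * r)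
    (H : LocSol 1 (algebraMap K F a) (algebraMap K F (9 * b + 4 * a ^ 3)) (algebraMap K F d))
    (ι : AlgebraicClosure K →ₐ[K] AlgebraicClosure F) :
    TrivAt (F := F) (inv_bc' V) (ι : AlgebraicClosure K →+* AlgebraicClosure F) (map_bc V ι) f := by
  have hE : Is3 (V.baseChange (AlgebraicClosure F)) 1
      (algebraMap F (AlgebraicClosure F) (algebraMap K F a))
      (algebraMap F (AlgebraicClosure F) (algebraMap K F b)) := by
    have h1 := h.bc (AlgebraicClosure F)
    rw [map_one, IsScalarTower.algebraMap_apply K F (AlgebraicClosure F) a,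
      IsScalarTower.algebraMap_apply K F (AlgebraicClosure F) b] at h1
    exact h1
  have e1 : algebraMap K F (9 * b + 4 * a ^ 3) =
      9 * algebraMap K F b + 4 * algebraMap K F a ^ 3 := by
    simp only [map_add, map_mul, map_pow, map_ofNat]
  rw [e1] at H
  have hιr : ι r ≠ 0 := by
    intro h0
    exact hr ((map_eq_zero_iff ι ι.injective).1 h0)
  have hι3 : (ι r) ^ 3 = algebraMap F (AlgebraicClosure F) (algebraMap K F d) := by
    rw [← map_pow, hd, ι.commutes, IsScalarTower.algebraMap_apply K F (AlgebraicClosure F)]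
  obtain ⟨P, hP⟩ := gen_loc hE (inv_bc' V : Inv F (V.baseChange (AlgebraicClosure F))) hιr hι3 H
  refine ⟨P, fun τ σ hσ => ?_⟩
  refine ee_inj hE Coc3_one ((kr_pm _ _).2 (hf σ).1) (hP τ).1 ?_
  have h2 := ee_pm (s := (1 : AlgebraicClosure K))
    (b := algebraMap K (AlgebraicClosure K) b)
    (φ := (ι : AlgebraicClosure K →+* AlgebraicClosure F)) (map_bc V ι) (f σ)
  have e3 : (ι : AlgebraicClosure K →+* AlgebraicClosure F)
      (algebraMap K (AlgebraicClosure K) b) =
      algebraMap F (AlgebraicClosure F) (algebraMap K F b) := by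
    rw [← IsScalarTower.algebraMap_apply K F (AlgebraicClosure F)]
    exact ι.commutes b
  rw [map_one, e3] at h2
  rw [h2]
  have h3 : τ (ι r) = ι (σ r) := hσ r
  rw [(hP τ).2, (hf σ).2, map_mul] at h3
  exact (mul_right_cancel₀ hιr h3).symm

theorem Coc3_cube_real (x : ℝ) : ∃ t : ℝ, x = t ^ 3 := by
  rcases le_total 0 x with h | h
  · refine ⟨x ^ ((3 : ℕ) : ℝ)⁻¹, ?_⟩
    rw [Real.rpow_inv_natCast_pow h (by norm_num)]
  · refine ⟨-((-x) ^ ((3 : ℕ) : ℝ)⁻¹), ?_⟩
    rw [Odd.neg_pow (by decide), Real.rpow_inv_natCast_pow (by linarith) (by norm_num), neg_neg]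

theorem Coc3_cube {K : Type} [Field K] [NumberField K] (v : InfinitePlace K) (x : v.Completion) :
    ∃ t : v.Completion, x = t ^ 3 := by
  rcases v.isReal_or_isComplex with hv | hv
  · let e := InfinitePlace.Completion.ringEquivRealOfIsReal hv
    obtain ⟨t, ht⟩ := Coc3_cube_real (e x)
    refine ⟨e.symm t, ?_⟩
    rw [← map_pow, ← ht]
    exact (e.symm_apply_apply x).symm
  · let e := InfinitePlace.Completion.ringEquivComplexOfIsComplex hv
    obtain ⟨t, ht⟩ := IsAlgClosed.exists_pow_nat_eq (e x) (n := 3) (by norm_num)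
    refine ⟨e.symm t, ?_⟩
    rw [← map_pow, ht]
    exact (e.symm_apply_apply x).symm

theorem exists_coc3 {K : Type} [Field K] [NumberField K] {V : WeierstrassCurve K} {a b d : K}
    (h : Is3 V 1 a b) (hd : d ≠ 0) (hfin : FinSol3 K 1 a (9 * b + 4 * a ^ 3) d) :
    ∃ (f : Coch K V) (r : AlgebraicClosure K), IsCocycle K V f ∧ IsLocTriv K V f ∧ r ≠ 0 ∧
      r ^ 3 = algebraMap K (AlgebraicClosure K) d ∧ ∀ σ, Kr (f σ) ∧
        σ r = ee 1 (algebraMap K (AlgebraicClosure K) b) (f σ) * r := by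
  obtain ⟨r, hr3⟩ := IsAlgClosed.exists_pow_nat_eq (algebraMap K (AlgebraicClosure K) d)
    (n := 3) (by norm_num)
  have hd0 : algebraMap K (AlgebraicClosure K) d ≠ 0 :=
    (map_ne_zero_iff _ (algebraMap K (AlgebraicClosure K)).injective).2 hd
  have hr : r ≠ 0 := by
    intro h0
    rw [h0, zero_pow (by norm_num)] at hr3
    exact hd0 hr3.symm
  have hE : Is3 (V.baseChange (AlgebraicClosure K)) 1 (algebraMap K (AlgebraicClosure K) a)
      (algebraMap K (AlgebraicClosure K) b) := by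
    have h1 := h.bc (AlgebraicClosure K)
    rwa [map_one] at h1
  have hg : ∀ z : AlgebraicClosure K, ∃ P : (V.baseChange (AlgebraicClosure K)).toAffine.Point,
      z ^ 3 = 1 → Kr P ∧ ee 1 (algebraMap K (AlgebraicClosure K) b) P = z := by
    intro z
    by_cases hz : z ^ 3 = 1
    · obtain ⟨P, h1, h2⟩ := ee_surj hE Coc3_one hz
      exact ⟨P, fun _ => ⟨h1, h2⟩⟩
    · exact ⟨0, fun h => absurd h hz⟩
  choose g hg using hg
  have hσ3 : ∀ σ : AlgebraicClosure K ≃ₐ[K] AlgebraicClosure K, (σ r / r) ^ 3 = 1 := by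
    intro σ
    rw [div_pow, ← map_pow, hr3, σ.commutes, div_self hd0]
  have hf : ∀ σ : AlgebraicClosure K ≃ₐ[K] AlgebraicClosure K, Kr (g (σ r / r)) ∧
      σ r = ee 1 (algebraMap K (AlgebraicClosure K) b) (g (σ r / r)) * r := by
    intro σ
    obtain ⟨h1, h2⟩ := hg _ (hσ3 σ)
    refine ⟨h1, ?_⟩
    rw [h2, div_mul_cancel₀ _ hr]
  refine ⟨fun σ => g (σ r / r), r, ?_, ?_, hr, hr3, hf⟩
  · rw [Pool.Agent.H10.isCocycle_iff]
    refine ⟨Coc3_lc (fun z => g (z / r)) r, fun σ τ => ?_⟩
    have hk : Kr (act (inv_bc K V) σ (g (τ r / r))) := (kr_pm _ _).2 (hf τ).1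
    refine ee_inj hE Coc3_one (hf (σ * τ)).1 (kr_add hE (hf σ).1 hk) ?_
    rw [ee_add hE Coc3_one (hf σ).1 hk, Coc3_ee, (hg _ (hσ3 (σ * τ))).2, (hg _ (hσ3 σ)).2,
      (hg _ (hσ3 τ)).2, map_div₀, AlgEquiv.mul_apply]
    have h5 : σ r ≠ 0 := (map_ne_zero_iff σ σ.injective).2 hr
    field_simp
  · rw [isLocTriv_iff]
    refine ⟨fun v ι => Coc3_loc h hr hr3 hf ?_ ι, fun v ι => Coc3_loc h hr hr3 hf ?_ ι⟩
    · have h1 := hfin v
      rwa [map_one] at h1
    · exact Or.inl (Coc3_cube v _)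

end H86T3
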