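import Pool.Agent.H55.T3.Lo
import Pool.Agent.H55.T3.Sj
import Pool.Agent.H55.T3.To
import Pool.Agent.H55.T3.PsH
import Pool.Agent.H55.T3.Tr

/-!
Growth half of the dichotomy for three-isogenies (definitions, no row).
-/

set_option autoImplicit false

open WithZero

namespace H86T3

/-- Polynomials of degree three with a simple root zero modulo the maximal ideal have a root. -/
def Hens3 {F : Type*} [Field F] (V : Valuation F (WithZero (Multiplicative ℤ))) : Prop :=
  ∀ g0 g1 g2 g3 : F, V g0 < 1 → V g1 = 1 → V g2 ≤ 1 → V g3 ≤ 1 →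
    ∃ y : F, V y < 1 ∧ g0 + g1 * y + g2 * y ^ 2 + g3 * y ^ 3 = 0

/-- After scaling, `b` has valuation `-1` or `-2` and `a` is integral. -/
def BadAt {F : Type*} [Field F] (V : Valuation F (WithZero (Multiplicative ℤ))) (a b : F) : Prop :=
  ∃ i : ℕ, V a ≤ exp (-((i : ℤ) + 1)) ∧
    (V b = exp (-(3 * (i : ℤ) + 1)) ∨ V b = exp (-(3 * (i : ℤ) + 2)))

end H86T3
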