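import Pool.Agent.H86.T3G.Mul
import Pool.Agent.H55.T3.Hi
import Pool.Agent.H10.Func6

/-!
Row FfA (about 200 lines): finite field, first inequality.

PROOF. `Ω := AlgebraicClosure κ`, `IsGalois κ Ω` (κ perfect). `q := card κ`. Claim: `psF V W 1 a b : V(κ) → W(κ)` is surjective. Let `Q ∈ W(κ)`, `Q'` its image in `W(Ω)` (pm), `P ∈ V(Ω)` with `psF P = Q'` (psF_surj for the base changes; Is3.bc, Is3.bcd in Bc.lean). For every `τ`: `psF (act τ P) = act τ (psF P) = psF P`
 (psF_pm with φ = τ, as pf_act in Bc.lean), so `Kr (act τ P - P)` (psF_add, psF_neg, psF_eq_zero). `f τ := act τ P - P` is a cocycle `IsCoc h f` (locally constant: see how other files do it, e.g. coboundaries: H10 `isCoc_cob` or similar; grep `IsCoc` in Pool/Agent/H10) with values in the kernel: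
 kum3 (Hi.lean; D = s = 1, rewrite map_one) gives `r, d`, `τ r = ee 1 b (f τ) r`, `r^3 = d`, `d ≠ 0`; loc_gen (Lo.lean): LocSol 1 a (9 b + 4 a^3) d.
 By hypothesis HC (`LocSol d → d is a cube`) `d = t^3`; `(r / t)^3 = 1`, `K` with `Kr K`, `ee K = r / t` (ee_surj). `P' := P - K`: `act τ P' - P' = f τ - (act τ K - K)`, `ee (act τ K - K) = τ (r/t) / (r/t) = τ r / r = ee (f τ)`, so equal (ee_inj), `act τ P' = P'` for all `τ`: `P'` comes from `V(κ)` (pm_descent, H10),
 `psF P' = psF P = Q'` (psF_add, Kr K), and back in `κ`: `psF` of the rational point is `Q` (pm injective: pm_injective or pm_inj; psF_pm).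
 Kernel: `z : κ` with `z^2 + z + 1 = 0`; the points `0, (0, ± (1 + 2 z) b)` of `V(κ)` are in Kr, three different elements (`(1 + 2z)^2 = -3`, `2 b (1 + 2 z) ≠ 0`) [or ee_surj over κ for 1, z, z^2]. The homomorphism `psi h h'` (PsH.lean) is surjective with kernel of at least three elements: `3 * card W(κ) ≤ card V(κ)`
 (`AddSubgroup.card_eq_card_quotient_mul_card_addSubgroup`, first isomorphism theorem). The point groups are finite (`Finite (W.toAffine.Point)`: inject into Option (κ × κ); check for an instance or prove it).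
-/

set_option autoImplicit false
open scoped Classical

open WeierstrassCurve Pool.Agent.H10 H55T3

namespace H86T3

theorem finite_point {κ : Type} [Field κ] [Finite κ] (W : WeierstrassCurve κ) :
    Finite W.toAffine.Point := by
  let φ : W.toAffine.Point → Option (κ × κ) := fun P => match P with
    | 0 => none
    | .some x y _ => some (x, y)
  refine Finite.of_injective φ ?_
  rintro (_ | ⟨x₁, y₁, h₁⟩) (_ | ⟨x₂, y₂, h₂⟩) H
  · rfl
  · exact absurd H (by simp [φ])
  · exact absurd H (by simp [φ])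
  · have H2 : (some (x₁, y₁) : Option (κ × κ)) = some (x₂, y₂) := H
    rw [Option.some.injEq, Prod.mk.injEq] at H2
    rw [Affine.Point.some.injEq]
    exact H2

/-- The isogeny is surjective on rational points. -/
theorem ff_surj {κ : Type} [Field κ] [Finite κ] {V W : WeierstrassCurve κ} {a b : κ}
    (h : Is3 V 1 a b) (h' : Is3 W (-3 * 1) a (dl 1 a b))
    (HC : ∀ d : κ, d ≠ 0 → LocSol 1 a (9 * b + 4 * a ^ 3) d → ∃ t, d = t ^ 3)
    (Q : W.toAffine.Point) : ∃ P, psF V W 1 a b P = Q := by
  have hsep : Algebra.IsSeparable κ (AlgebraicClosure κ) :=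
    Algebra.IsAlgebraic.isSeparable_of_perfectField
  have hgal : IsGalois κ (AlgebraicClosure κ) := { }
  have h1 := h.bc (AlgebraicClosure κ)
  have h1' := h'.bcd (AlgebraicClosure κ)
  have hVΩ : V.map (algebraMap κ (AlgebraicClosure κ)) = V.baseChange (AlgebraicClosure κ) := rfl
  have hWΩ : W.map (algebraMap κ (AlgebraicClosure κ)) = W.baseChange (AlgebraicClosure κ) := rfl
  obtain ⟨Q', hQ'⟩ : ∃ Q', Q' = pm (algebraMap κ (AlgebraicClosure κ)) hWΩ Q := ⟨_, rfl⟩
  obtain ⟨P, hP⟩ := psF_surj h1 h1' Q'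
  have hact : ∀ τ, act (inv_bc κ W) τ Q' = Q' := by
    intro τ
    rw [hQ']
    unfold act
    rw [pm_pm]
    exact pm_congr _ _ (fun x => τ.commutes x) _
  have hpf : ∀ τ, psF (V.baseChange (AlgebraicClosure κ)) (W.baseChange (AlgebraicClosure κ))
      (algebraMap κ (AlgebraicClosure κ) 1) (algebraMap κ (AlgebraicClosure κ) a)
      (algebraMap κ (AlgebraicClosure κ) b) (act (inv_bc κ V) τ P) = Q' := by
    intro τ
    have h2 := Bc_pm h h' (τ : AlgebraicClosure κ →+* AlgebraicClosure κ) (τ.commutes 1)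
      (τ.commutes a) (τ.commutes b) (inv_bc κ V τ) (inv_bc κ W τ) P
    unfold pf at h2
    have h3 := hact τ
    unfold act at h3 ⊢
    rw [h2, hP]
    exact h3
  have hKr : ∀ τ, Kr (act (inv_bc κ V) τ P - P) := by
    intro τ
    rw [← psF_eq_zero h1 h1', ← psi_apply h1 h1', map_sub, psi_apply, psi_apply, hpf, hP, sub_self]
  have hs : (1 : κ) ^ 2 = 1 := one_pow 2
  have hs' : (algebraMap κ (AlgebraicClosure κ) 1) ^ 2 = algebraMap κ (AlgebraicClosure κ) 1 := by
    rw [map_one, one_pow]
  obtain ⟨r, d, hr0, hd0, hrd, hr⟩ := kum3 h1 hs (inv_bc κ V) (isCoc_cob (inv_bc κ V) P) hKr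
  have hloc := loc_gen h1 hs (inv_bc κ V) hKr hr0 hrd hr
  rw [mul_one] at hloc
  obtain ⟨t, ht⟩ := HC d hd0 hloc
  have ht0 : algebraMap κ (AlgebraicClosure κ) t ≠ 0 := by
    intro h0
    have h2 : t = 0 := (map_eq_zero _).1 h0
    rw [h2] at ht
    exact hd0 (by rw [ht]; ring)
  have hrt : (r / algebraMap κ (AlgebraicClosure κ) t) ^ 3 = 1 := by
    rw [div_pow, hrd, ht, map_pow, div_self (pow_ne_zero 3 ht0)]
  obtain ⟨K, hK, hKe⟩ := ee_surj h1 hs' hrt
  have hfix : ∀ τ, act (inv_bc κ V) τ (P - K) = P - K := by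
    intro τ
    have hKτ : Kr (act (inv_bc κ V) τ K) := (kr_pm (inv_bc κ V τ) K).2 hK
    have hKK : Kr (act (inv_bc κ V) τ K - K) := by
      rw [sub_eq_add_neg]
      exact kr_add h1 hKτ (kr_neg.2 hK)
    have h2 : ee (algebraMap κ (AlgebraicClosure κ) 1) (algebraMap κ (AlgebraicClosure κ) b)
        (act (inv_bc κ V) τ K) = τ (r / algebraMap κ (AlgebraicClosure κ) t) := by
      have h3 := ee_pm (s := algebraMap κ (AlgebraicClosure κ) 1)
        (b := algebraMap κ (AlgebraicClosure κ) b)
        (φ := (τ : AlgebraicClosure κ →+* AlgebraicClosure κ)) (inv_bc κ V τ) K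
      have e1 : (τ : AlgebraicClosure κ →+* AlgebraicClosure κ)
        (algebraMap κ (AlgebraicClosure κ) 1) = algebraMap κ (AlgebraicClosure κ) 1 := τ.commutes 1
      have e2 : (τ : AlgebraicClosure κ →+* AlgebraicClosure κ)
        (algebraMap κ (AlgebraicClosure κ) b) = algebraMap κ (AlgebraicClosure κ) b := τ.commutes b
      rw [e1, e2, hKe] at h3
      exact h3
    have h3 : act (inv_bc κ V) τ P - P = act (inv_bc κ V) τ K - K := by
      refine ee_inj h1 hs' (hKr τ) hKK ?_
      rw [sub_eq_add_neg (act (inv_bc κ V) τ K), ee_add h1 hs' hKτ (kr_neg.2 hK), ee_neg h1 hs' hK,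
        h2, hKe, map_div₀, τ.commutes, hr τ]
      field_simp
    rw [map_sub]
    have h4 : act (inv_bc κ V) τ P = P + (act (inv_bc κ V) τ K - K) := by
      rw [← h3]; abel
    rw [h4]; abel
  obtain ⟨P₀, hP₀⟩ := pm_descent (V := V) hVΩ (inv_bc κ V) (P - K) hfix
  refine ⟨P₀, ?_⟩
  apply pm_injective (algebraMap κ (AlgebraicClosure κ)) hWΩ
  rw [psF_pm h h' hVΩ hWΩ, hP₀, ← hQ', ← psi_apply h1 h1', map_sub, psi_apply,
    psi_apply, hP, psF_kr hK, sub_zero]

theorem ff_card {κ : Type} [Field κ] [Finite κ] {V W : WeierstrassCurve κ} {a b : κ}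
    (h : Is3 V 1 a b) (h' : Is3 W (-3 * 1) a (dl 1 a b)) {z : κ} (hz : z ^ 2 + z + 1 = 0)
    (HC : ∀ d : κ, d ≠ 0 → LocSol 1 a (9 * b + 4 * a ^ 3) d → ∃ t, d = t ^ 3) :
    3 * Nat.card W.toAffine.Point ≤ Nat.card V.toAffine.Point := by
  have hfV := finite_point V
  have hsurj : Function.Surjective (psi h h') := fun Q => ff_surj h h' HC Q
  have h3 : (3 : κ) ≠ 0 := h.three
  have hz3 : z ^ 3 = 1 := by linear_combination (z - 1) * hz
  have hz1 : z ≠ 1 := by
    rintro rfl
    exact h3 (by linear_combination hz)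
  have hz0 : z ≠ 0 := by
    rintro rfl
    rw [zero_pow (by norm_num)] at hz3
    exact zero_ne_one hz3
  have hex : ∀ i : Fin 3, ∃ P : V.toAffine.Point, Kr P ∧ ee 1 b P = z ^ (i : ℕ) := by
    intro i
    refine ee_surj h (one_pow 2) ?_
    rw [← pow_mul, mul_comm, pow_mul, hz3, one_pow]
  choose g hg1 hg2 using hex
  have hker : 3 ≤ Nat.card (psi h h').ker := by
    have hinj : Function.Injective (fun i : Fin 3 => (⟨g i, by
        rw [AddMonoidHom.mem_ker, psi_apply]
        exact psF_kr (hg1 i)⟩ : (psi h h').ker)) := by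
      intro i j hij
      have h4 : g i = g j := congrArg Subtype.val hij
      have h5 : z ^ (i : ℕ) = z ^ (j : ℕ) := by rw [← hg2 i, ← hg2 j, h4]
      have h6 : z ^ 2 ≠ 1 := by
        intro h7
        apply hz1
        have : z ^ 3 = z ^ 2 * z := by ring
        rw [hz3, h7, one_mul] at this
        exact this.symm
      have h8 : z ^ 2 ≠ z := by
        intro h7
        apply hz1
        have : z * z = z * 1 := by rw [mul_one, ← pow_two]; exact h7
        exact mul_left_cancel₀ hz0 this
      fin_cases i <;> fin_cases j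
      · rfl
      · exact absurd (by simpa using h5.symm) hz1
      · exact absurd (by simpa using h5.symm) h6
      · exact absurd (by simpa using h5) hz1
      · rfl
      · exact absurd (by simpa using h5.symm) h8
      · exact absurd (by simpa using h5) h6
      · exact absurd (by simpa using h5) h8
      · rfl
    have h4 := Nat.card_le_card_of_injective _ hinj
    rwa [Nat.card_eq_fintype_card, Fintype.card_fin] at h4
  have h4 := AddSubgroup.card_eq_card_quotient_mul_card_addSubgroup (psi h h').ker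
  have h5 : Nat.card (V.toAffine.Point ⧸ (psi h h').ker) = Nat.card W.toAffine.Point :=
    Nat.card_congr (QuotientAddGroup.quotientKerEquivOfSurjective (psi h h') hsurj).toEquiv
  rw [h4, h5, mul_comm]
  exact Nat.mul_le_mul_left _ hker

end H86T3
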