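import Pool.Agent.H86.T3G.Mul
import Pool.Agent.H10.Func6

/-!
Row FfB (about 200 lines): finite field, isogeny with rational kernel.

PROOF. `Ω := AlgebraicClosure κ`, `q := card κ`, `φ : Ω ≃ₐ[κ] Ω` the Frobenius `x ↦ x^q` (`FiniteField.frobeniusAlgEquivOfAlgebraic` or build it; `x ∈ Ω` with `x^q = x` lies in κ: the `q` elements of κ are all the roots of `X^q - X`).
 For `Q ∈ W(κ)` choose `P Q ∈ V(Ω)` with `psF (P Q) = image of Q` (psF_surj). `g Q := act φ (P Q) - P Q`: Kr (psF commutes with φ: psF_pm; psF_add, psF_neg, psF_eq_zero). Kr(Ω) consists of `0` and the points `(0, ± 3 r b)` (kr_rat for the base change: images of elements of κ): all fixed by `act φ`, and there are at most three.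
 If `g Q = g Q'`: `P Q - P Q'` is fixed by `act φ`, so it is the image of a point `R ∈ V(κ)` (coordinates fixed by φ lie in κ; nonsingular descends: or use `pm_descent` if all τ fix it: every element of κ-points; simplest by cases on the point), and `Q - Q' = psF R` (injectivity of pm, psF_pm). So
 `W(κ) / psi(V(κ))` has at most three elements (the map `Q ↦ g Q` to the set Kr(Ω), at most three elements, separates the classes): `card W(κ) ≤ 3 * card (range psi)`. The kernel of `psi` on `V(κ)` contains the three points `0, (0, ± 3 r b)` (`9 r^2 b^2 = -3 D b^2`; distinct as `6 r b ≠ 0`, r ≠ 0 since D ≠ 0), so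
 `3 * card (range psi) ≤ card V(κ)`.
-/

set_option autoImplicit false
open scoped Classical

open WeierstrassCurve Pool.Agent.H10 H55T3

namespace H86T3

/-- Elements of the algebraic closure fixed by the Frobenius. -/
theorem FfB_fixed {κ : Type} [Field κ] [Fintype κ] {x : AlgebraicClosure κ}
    (hx : x ^ Fintype.card κ = x) : ∃ y : κ, algebraMap κ (AlgebraicClosure κ) y = x := by
  have hq : 1 < Fintype.card κ := Fintype.one_lt_card
  have hdeg : (Polynomial.X ^ Fintype.card κ - Polynomial.X :
      Polynomial (AlgebraicClosure κ)).natDegree = Fintype.card κ :=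
    FiniteField.X_pow_card_sub_X_natDegree_eq _ hq
  have hne : (Polynomial.X ^ Fintype.card κ - Polynomial.X :
      Polynomial (AlgebraicClosure κ)) ≠ 0 := FiniteField.X_pow_card_sub_X_ne_zero _ hq
  have hroot : ∀ z : AlgebraicClosure κ, z ∈ (Polynomial.X ^ Fintype.card κ - Polynomial.X :
      Polynomial (AlgebraicClosure κ)).roots.toFinset ↔ z ^ Fintype.card κ = z := by
    intro z
    rw [Multiset.mem_toFinset, Polynomial.mem_roots hne, Polynomial.IsRoot.def,
      Polynomial.eval_sub, Polynomial.eval_pow, Polynomial.eval_X, sub_eq_zero]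
  have hsub : (Finset.univ.image (algebraMap κ (AlgebraicClosure κ))) ⊆
      (Polynomial.X ^ Fintype.card κ - Polynomial.X :
        Polynomial (AlgebraicClosure κ)).roots.toFinset := by
    intro z hz
    obtain ⟨y, _, rfl⟩ := Finset.mem_image.1 hz
    rw [hroot, ← map_pow, FiniteField.pow_card]
  have hcard : (Polynomial.X ^ Fintype.card κ - Polynomial.X :
      Polynomial (AlgebraicClosure κ)).roots.toFinset.card ≤
      (Finset.univ.image (algebraMap κ (AlgebraicClosure κ))).card := by
    rw [Finset.card_image_of_injective _ (algebraMap κ (AlgebraicClosure κ)).injective,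
      Finset.card_univ]
    refine (Multiset.toFinset_card_le _).trans ((Polynomial.card_roots' _).trans ?_)
    rw [hdeg]
  have heq := Finset.eq_of_subset_of_card_le hsub hcard
  have h1 : x ∈ (Finset.univ.image (algebraMap κ (AlgebraicClosure κ))) := by
    rw [heq, hroot]
    exact hx
  obtain ⟨y, _, hy⟩ := Finset.mem_image.1 h1
  exact ⟨y, hy⟩

theorem FfB_finite {κ : Type} [Field κ] [Finite κ] (W : WeierstrassCurve κ) :
    Finite W.toAffine.Point := by
  let f : W.toAffine.Point → Option (κ × κ) := fun P =>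
    match P with
    | 0 => none
    | .some x y _ => some (x, y)
  refine Finite.of_injective f ?_
  rintro (_ | ⟨x, y, n⟩) (_ | ⟨x', y', n'⟩) h
  · rfl
  · exact absurd h (by simp [f])
  · exact absurd h (by simp [f])
  · have h1 : (some (x, y) : Option (κ × κ)) = some (x', y') := h
    rw [Option.some.injEq, Prod.mk.injEq] at h1
    rw [Affine.Point.some.injEq]
    exact h1

/-- The two points of the rational kernel. -/
theorem FfB_ns {κ : Type*} [Field κ] {V : WeierstrassCurve κ} {D a b : κ} (h : Is3 V D a b) {r : κ}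
    (hr : D = -3 * r ^ 2) {y : κ} (hy : y ^ 2 = (3 * r * b) ^ 2) :
    V.toAffine.Nonsingular 0 y := by
  have := h.isElliptic
  rw [← Affine.equation_iff_nonsingular, Affine.equation_iff, h.a₁, h.a₂, h.a₃, h.a₄, h.a₆]
  rw [hr]
  linear_combination hy

theorem ff_dual {κ : Type} [Field κ] [Finite κ] {V W : WeierstrassCurve κ} {D a b : κ}
    (h : Is3 V D a b) (h' : Is3 W (-3 * D) a (dl D a b)) {r : κ} (hr : D = -3 * r ^ 2) :
    Nat.card W.toAffine.Point ≤ Nat.card V.toAffine.Point := by
  cases nonempty_fintype κ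
  have hfV := FfB_finite V
  have hfW := FfB_finite W
  have hD := h.hD
  have hr0 : r ≠ 0 := by
    rintro rfl
    exact hD (by rw [hr]; ring)
  have h3 := h.three
  have h2 := h.two
  have hb := h.hb
  -- the kernel
  have hker : 3 ≤ Nat.card (psi h h').ker := by
    have nA : V.toAffine.Nonsingular 0 (3 * r * b) := FfB_ns h hr rfl
    have nB : V.toAffine.Nonsingular 0 (-(3 * r * b)) := FfB_ns h hr (neg_sq _)
    have kA : (Affine.Point.some 0 (3 * r * b) nA) ∈ (psi h h').ker := by
      rw [AddMonoidHom.mem_ker, psi_apply]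
      exact psF_kr ((kr_some nA).2 rfl)
    have kB : (Affine.Point.some 0 (-(3 * r * b)) nB) ∈ (psi h h').ker := by
      rw [AddMonoidHom.mem_ker, psi_apply]
      exact psF_kr ((kr_some nB).2 rfl)
    have hAB : Affine.Point.some 0 (3 * r * b) nA ≠ Affine.Point.some 0 (-(3 * r * b)) nB := by
      rw [Ne, Affine.Point.some.injEq]
      rintro ⟨-, h4⟩
      have h5 : 2 * (3 * r * b) = 0 := by linear_combination h4
      exact (mul_ne_zero h2 (mul_ne_zero (mul_ne_zero h3 hr0) hb)) h5
    have h6 : ({⟨0, zero_mem _⟩, ⟨_, kA⟩, ⟨_, kB⟩} : Finset (psi h h').ker).card = 3 := by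
      rw [Finset.card_insert_of_notMem, Finset.card_pair]
      · intro h7
        exact hAB (congrArg Subtype.val h7)
      · rw [Finset.mem_insert, Finset.mem_singleton]
        rintro (h7 | h7)
        · exact (Affine.Point.some_ne_zero nA) (congrArg Subtype.val h7).symm
        · exact (Affine.Point.some_ne_zero nB) (congrArg Subtype.val h7).symm
    cases nonempty_fintype (psi h h').ker
    rw [Nat.card_eq_fintype_card, ← h6]
    exact Finset.card_le_univ _
  -- the closure
  set Ω := AlgebraicClosure κ with hΩ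
  have hu : Is3 (V.baseChange Ω) (algebraMap κ Ω D) (algebraMap κ Ω a) (algebraMap κ Ω b) :=
    h.up rfl
  have hu' : Is3 (W.baseChange Ω) (-3 * algebraMap κ Ω D) (algebraMap κ Ω a)
      (dl (algebraMap κ Ω D) (algebraMap κ Ω a) (algebraMap κ Ω b)) := by
    have h1 := h'.up (φ := algebraMap κ Ω) (W₁ := W.baseChange Ω) rfl
    rw [dl_map] at h1
    simpa only [map_mul, map_neg, map_ofNat] using h1
  obtain ⟨φ, hφ⟩ : ∃ φ : Ω ≃ₐ[κ] Ω, ∀ x, φ x = x ^ Fintype.card κ :=
    ⟨FiniteField.frobeniusAlgEquivOfAlgebraic κ Ω, fun x => rfl⟩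
  let j : V.toAffine.Point →+ (V.baseChange Ω).toAffine.Point := pm (algebraMap κ Ω) rfl
  let j' : W.toAffine.Point →+ (W.baseChange Ω).toAffine.Point := pm (algebraMap κ Ω) rfl
  have hj'fix : ∀ Q : W.toAffine.Point, act (inv_bc κ W) φ (j' Q) = j' Q := by
    rintro (_ | ⟨x, y, n⟩)
    · exact map_zero _
    · change pm _ _ (pm _ _ _) = pm _ _ _
      rw [pm_some, pm_some, Affine.Point.some.injEq]
      exact ⟨φ.commutes x, φ.commutes y⟩
  have hdesc : ∀ P : (V.baseChange Ω).toAffine.Point, act (inv_bc κ V) φ P = P →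
      ∃ R : V.toAffine.Point, j R = P := by
    rintro (_ | ⟨x, y, n⟩) hP
    · exact ⟨0, map_zero _⟩
    · change pm _ _ _ = _ at hP
      rw [pm_some, Affine.Point.some.injEq] at hP
      obtain ⟨hx, hy⟩ := hP
      obtain ⟨x0, rfl⟩ := FfB_fixed (κ := κ) (x := x) (by rw [← hφ]; exact hx)
      obtain ⟨y0, rfl⟩ := FfB_fixed (κ := κ) (x := y) (by rw [← hφ]; exact hy)
      have n0 : V.toAffine.Nonsingular x0 y0 :=
        (Affine.map_nonsingular V (algebraMap κ Ω).injective x0 y0).1 n
      exact ⟨.some x0 y0 n0, rfl⟩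
  choose T hT using fun Q : W.toAffine.Point => psF_surj hu hu' (j' Q)
  let G : W.toAffine.Point → (V.baseChange Ω).toAffine.Point := fun Q =>
    act (inv_bc κ V) φ (T Q) - T Q
  have hpsact : ∀ P : (V.baseChange Ω).toAffine.Point,
      psi hu hu' (act (inv_bc κ V) φ P) = act (inv_bc κ W) φ (psi hu hu' P) := by
    intro P
    have h1 := psF_pm hu hu' (inv_bc κ V φ) (inv_bc κ W φ) P
    have e1 : (φ : Ω →+* Ω) (algebraMap κ Ω D) = algebraMap κ Ω D := φ.commutes D
    have e2 : (φ : Ω →+* Ω) (algebraMap κ Ω a) = algebraMap κ Ω a := φ.commutes a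
    have e3 : (φ : Ω →+* Ω) (algebraMap κ Ω b) = algebraMap κ Ω b := φ.commutes b
    rw [e1, e2, e3] at h1
    exact h1.symm
  have hG : ∀ Q, Kr (G Q) := by
    intro Q
    rw [← psF_eq_zero hu hu', ← psi_apply hu hu']
    change psi hu hu' (act (inv_bc κ V) φ (T Q) - T Q) = 0
    rw [map_sub, hpsact, psi_apply, hT, hj'fix, sub_self]
  have hGeq : ∀ Q Q', G Q = G Q' → Q - Q' ∈ (psi h h').range := by
    intro Q Q' hQQ
    have h1 : act (inv_bc κ V) φ (T Q - T Q') = T Q - T Q' := by
      rw [map_sub]
      have h2 : act (inv_bc κ V) φ (T Q) - T Q = act (inv_bc κ V) φ (T Q') - T Q' := hQQ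
      have h3 : act (inv_bc κ V) φ (T Q) - act (inv_bc κ V) φ (T Q') - (T Q - T Q') =
          (act (inv_bc κ V) φ (T Q) - T Q) - (act (inv_bc κ V) φ (T Q') - T Q') := by abel
      rw [← sub_eq_zero, h3, h2, sub_self]
    obtain ⟨R, hR⟩ := hdesc _ h1
    refine ⟨R, ?_⟩
    apply pm_injective (algebraMap κ Ω) (rfl : W.map (algebraMap κ Ω) = W.baseChange Ω)
    have h4 := psF_pm h h' (rfl : V.map (algebraMap κ Ω) = V.baseChange Ω)
      (rfl : W.map (algebraMap κ Ω) = W.baseChange Ω) R
    rw [psi_apply, h4]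
    change psi hu hu' (j R) = j' (Q - Q')
    rw [hR, map_sub, map_sub, psi_apply, psi_apply, hT, hT]
  -- the index
  have hidx : (psi h h').range.index ≤ 3 := by
    have hr' : algebraMap κ Ω D = -3 * (algebraMap κ Ω r) ^ 2 := by
      rw [hr, map_mul, map_neg, map_ofNat, map_pow]
    let A : (V.baseChange Ω).toAffine.Point :=
      .some 0 (3 * algebraMap κ Ω r * algebraMap κ Ω b) (FfB_ns hu hr' rfl)
    let B : (V.baseChange Ω).toAffine.Point :=
      .some 0 (-(3 * algebraMap κ Ω r * algebraMap κ Ω b)) (FfB_ns hu hr' (neg_sq _))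
    have hmem : ∀ P : (V.baseChange Ω).toAffine.Point, Kr P → P ∈ ({0, A, B} : Finset _) := by
      intro P hP
      rw [Finset.mem_insert, Finset.mem_insert, Finset.mem_singleton]
      rcases kr_rat hu hr' hP with h1 | ⟨y, n, h1, h2 | h2⟩
      · exact Or.inl h1
      · right; left
        rw [h1, Affine.Point.some.injEq]
        exact ⟨rfl, h2⟩
      · right; right
        rw [h1, Affine.Point.some.injEq]
        exact ⟨rfl, h2⟩
    rw [AddSubgroup.index_eq_card]
    let g : W.toAffine.Point ⧸ (psi h h').range → ({0, A, B} : Finset _) := fun q =>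
      ⟨G q.out, hmem _ (hG _)⟩
    have hg : Function.Injective g := by
      intro q q' hqq
      have h1 := hGeq _ _ (congrArg Subtype.val hqq)
      rw [← q.out_eq, ← q'.out_eq]
      change (QuotientAddGroup.mk q.out : W.toAffine.Point ⧸ (psi h h').range) =
        QuotientAddGroup.mk q'.out
      rw [QuotientAddGroup.eq_iff_sub_mem]
      exact h1
    refine (Nat.card_le_card_of_injective g hg).trans ?_
    rw [Nat.card_eq_fintype_card, Fintype.card_coe]
    exact Finset.card_le_three
  have e1 := AddSubgroup.card_mul_index (psi h h').ker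
  rw [AddSubgroup.index_ker] at e1
  have e2 := AddSubgroup.card_mul_index (psi h h').range
  rw [← e1, ← e2, mul_comm (Nat.card (psi h h').ker)]
  exact Nat.mul_le_mul_left _ (hidx.trans hker)

end H86T3
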