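import Pool.Agent.H86.T3G.FfA
import Pool.Agent.H86.T3G.FfB

/-!
Row FfC: every class is soluble over a finite field.
-/

set_option autoImplicit false
open scoped Classical

open WeierstrassCurve Pool.Agent.H10 H55T3

namespace H86T3

private theorem FfC_nonsing {κ : Type} [Field κ] {V V'' : WeierstrassCurve κ} {a b : κ}
    (h : Is3 V 1 a b) (h'' : Is3 V'' (-3 * (-3 * 1)) a (dl (-3 * 1) a (dl 1 a b))) {x y : κ}
    (n : V.toAffine.Nonsingular x y) : V''.toAffine.Nonsingular (9 * x) (27 * y) := by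
  have := h''.isElliptic
  rw [← Affine.equation_iff_nonsingular, Affine.equation_iff, h''.a₁, h''.a₂, h''.a₃, h''.a₄, h''.a₆]
  obtain ⟨-, -, h3⟩ := dl_facts h.three 1 a b
  rw [h3]
  have he := h.eqn n
  linear_combination 729 * he

private noncomputable def FfC_map {κ : Type} [Field κ] {V V'' : WeierstrassCurve κ} {a b : κ}
    (h : Is3 V 1 a b) (h'' : Is3 V'' (-3 * (-3 * 1)) a (dl (-3 * 1) a (dl 1 a b))) :
    V.toAffine.Point → V''.toAffine.Point
  | 0 => 0
  | .some _ _ n => .some _ _ (FfC_nonsing h h'' n)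

theorem card_scale {κ : Type} [Field κ] [Finite κ] {V V'' : WeierstrassCurve κ} {a b : κ}
    (h : Is3 V 1 a b) (h'' : Is3 V'' (-3 * (-3 * 1)) a (dl (-3 * 1) a (dl 1 a b))) :
    Nat.card V.toAffine.Point ≤ Nat.card V''.toAffine.Point := by
  have := finite_point V''
  have h9 : (9 : κ) ≠ 0 := by
    have : (9 : κ) = 3 ^ 2 := by norm_num
    rw [this]
    exact pow_ne_zero _ h.three
  have h27 : (27 : κ) ≠ 0 := by
    have : (27 : κ) = 3 ^ 3 := by norm_num
    rw [this]
    exact pow_ne_zero _ h.three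
  apply Nat.card_le_card_of_injective (FfC_map h h'')
  intro P Q hPQ
  match P, Q, hPQ with
  | 0, 0, _ => rfl
  | 0, .some x y n, hPQ =>
    exact absurd hPQ.symm (Affine.Point.some_ne_zero _)
  | .some x y n, 0, hPQ =>
    exact absurd hPQ (Affine.Point.some_ne_zero _)
  | .some x y n, .some x' y' n', hPQ =>
    have h1 : Affine.Point.some (9 * x) (27 * y) (FfC_nonsing h h'' n) =
      Affine.Point.some (9 * x') (27 * y') (FfC_nonsing h h'' n') := hPQ
    rw [Affine.Point.some.injEq] at h1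
    rw [Affine.Point.some.injEq]
    exact ⟨mul_left_cancel₀ h9 h1.1, mul_left_cancel₀ h27 h1.2⟩

theorem ff_sol {κ : Type} [Field κ] [Finite κ] (h2 : (2 : κ) ≠ 0) (h3 : (3 : κ) ≠ 0) {a b d : κ}
    (hb : b ≠ 0) (hc : 9 * b + 4 * a ^ 3 ≠ 0) (hd : d ≠ 0) :
    LocSol 1 a (9 * b + 4 * a ^ 3) d := by
  by_cases hz : ∃ z : κ, z ^ 2 + z + 1 = 0
  · obtain ⟨z, hz⟩ := hz
    by_contra hcon
    have HC : ∀ e : κ, e ≠ 0 → LocSol 1 a (9 * b + 4 * a ^ 3) e → ∃ t, e = t ^ 3 := by
      intro e he hel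
      by_contra hcube
      apply hcon
      obtain ⟨g, hg⟩ := IsCyclic.exists_generator (α := κˣ)
      obtain ⟨m, hm⟩ := Subgroup.mem_zpowers_iff.1 (hg (Units.mk0 e he))
      obtain ⟨k, hk⟩ := Subgroup.mem_zpowers_iff.1 (hg (Units.mk0 d hd))
      have hm' : ((g ^ m : κˣ) : κ) = e := by rw [hm]; rfl
      have hk' : ((g ^ k : κˣ) : κ) = d := by rw [hk]; rfl
      have hm3 : ¬ (3 : ℤ) ∣ m := by
        rintro ⟨j, hj⟩
        apply hcube
        refine ⟨((g ^ j : κˣ) : κ), ?_⟩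
        rw [← hm', hj, ← Units.val_pow_eq_pow_val, ← zpow_natCast, ← zpow_mul, mul_comm]
        rfl
      have hcases : (∃ j, k = 3 * j) ∨ (∃ j, k = m + 3 * j) ∨ (∃ j, k = 2 * m + 3 * j) := by
        have hm4 : m % 3 = 1 ∨ m % 3 = 2 := by omega
        have hk4 : k % 3 = 0 ∨ k % 3 = 1 ∨ k % 3 = 2 := by omega
        have h1 : k % 3 = 0 ∨ (k - m) % 3 = 0 ∨ (k - 2 * m) % 3 = 0 := by
          rcases hm4 with hm4 | hm4 <;> rcases hk4 with hk4 | hk4 | hk4
          · exact Or.inl hk4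
          · exact Or.inr (Or.inl (by omega))
          · exact Or.inr (Or.inr (by omega))
          · exact Or.inl hk4
          · exact Or.inr (Or.inr (by omega))
          · exact Or.inr (Or.inl (by omega))
        rcases h1 with h1 | h1 | h1
        · exact Or.inl ⟨k / 3, by omega⟩
        · exact Or.inr (Or.inl ⟨(k - m) / 3, by omega⟩)
        · exact Or.inr (Or.inr ⟨(k - 2 * m) / 3, by omega⟩)
      have hpow : ∀ j : ℤ, ((g ^ (3 * j) : κˣ) : κ) = ((g ^ j : κˣ) : κ) ^ 3 := by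
        intro j
        rw [← Units.val_pow_eq_pow_val, ← zpow_natCast (g ^ j) 3, ← zpow_mul, mul_comm]
        rfl
      rcases hcases with ⟨j, hj⟩ | ⟨j, hj⟩ | ⟨j, hj⟩
      · left
        refine ⟨((g ^ j : κˣ) : κ), ?_⟩
        rw [← hk', hj, hpow]
      · have h1 : d = e * ((g ^ j : κˣ) : κ) ^ 3 := by
          rw [← hk', hj, zpow_add, Units.val_mul, hm', hpow]
        rw [h1]
        exact locSol_mul_cube (Units.ne_zero _) hel
      · have h1 : d = (e * e) * ((g ^ j : κˣ) : κ) ^ 3 := by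
          rw [← hk', hj, zpow_add, Units.val_mul, two_mul, zpow_add, Units.val_mul, hm', hpow]
        rw [h1]
        exact locSol_mul_cube (Units.ne_zero _) (locSol_mul h2 h3 hb hc he he hel hel)
    have hV : Is3 (⟨0, -3 * 1 * a ^ 2, 0, -6 * 1 * a * b, -3 * 1 * b ^ 2⟩ : WeierstrassCurve κ) 1 a b := by
      refine ⟨rfl, rfl, rfl, rfl, rfl, one_ne_zero, hb, ?_, h2, h3⟩
      rw [mul_one]
      exact hc
    have hW := hV.dual
    have hV'' := hW.dual
    have e1 := ff_card hV hW hz HC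
    have e2 := card_scale hV hV''
    have e3 := ff_dual hW hV'' (r := 1) (by ring)
    have hfin := finite_point (⟨0, -3 * (-3 * 1) * a ^ 2, 0, -6 * (-3 * 1) * a * dl 1 a b,
      -3 * (-3 * 1) * dl 1 a b ^ 2⟩ : WeierstrassCurve κ)
    have hne : Nonempty (⟨0, -3 * (-3 * 1) * a ^ 2, 0, -6 * (-3 * 1) * a * dl 1 a b,
      -3 * (-3 * 1) * dl 1 a b ^ 2⟩ : WeierstrassCurve κ).toAffine.Point := ⟨0⟩
    have e4 := Nat.card_pos (α := (⟨0, -3 * (-3 * 1) * a ^ 2, 0, -6 * (-3 * 1) * a * dl 1 a b,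
      -3 * (-3 * 1) * dl 1 a b ^ 2⟩ : WeierstrassCurve κ).toAffine.Point)
    omega
  · left
    have hinj : Function.Injective (fun x : κ => x ^ 3) := by
      intro x y hxy
      have hxy' : x ^ 3 = y ^ 3 := hxy
      by_cases hy : y = 0
      · rw [hy] at hxy' ⊢
        rw [zero_pow three_ne_zero] at hxy'
        exact pow_eq_zero_iff three_ne_zero |>.1 hxy'
      · by_contra hne
        apply hz
        refine ⟨x / y, ?_⟩
        have h1 : (x - y) * (x ^ 2 + x * y + y ^ 2) = 0 := by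
          linear_combination hxy'
        rcases mul_eq_zero.1 h1 with h1 | h1
        · exact absurd (sub_eq_zero.1 h1) hne
        · have h4 : (x / y) ^ 2 + x / y + 1 = (x ^ 2 + x * y + y ^ 2) / y ^ 2 := by
            field_simp
          rw [h4, h1, zero_div]
    obtain ⟨t, ht⟩ := (Finite.injective_iff_surjective.1 hinj) d
    exact ⟨t, ht.symm⟩

end H86T3
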