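import Pool.Agent.H86.T3G.Df
import Pool.Agent.H10.GrHen

/-!
Row Hen (about 150 lines).

PROOF of hens3. `F` complete with a discrete valuation `V = Valued.v` with values in `ℤᵐ⁰`. Dividing by `g1` we may assume `g1 = 1` (or keep it). Iteration `y 0 = 0`, `y (n+1) = -(g0 + g2 (y n)^2 + g3 (y n)^3) / g1`. As in Pool/Agent/H10/GrHen.lean (hsq, hsq_le, hsq_succ, hsq_sub,
 exists_sq_add_self: copy that file): `V (y n) ≤ V g0 < 1`, `V (y (n+1) - y n) ≤ exp (-(n+1))` because `y^2 - z^2 = (y - z)(y + z)`, `y^3 - z^3 = (y - z)(y^2 + y z + z^2)` and the second factors have valuation `≤ V g0 ≤ exp (-1)`; so `y` is a Cauchy sequence,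
 the limit `t` satisfies the equation (continuity of polynomials, tendsto_nhds_unique). `V t < 1`: the equation gives it: if `V t ≥ 1`... (easier: the set `{x | V x ≤ V g0}` is closed (`Valued.isClosed_closedBall` or similar), or: `V (t - y n) < 1` for large `n` by convergence,
 `V t ≤ max (V (t - y n)) (V (y n)) < 1`.)
PROOF of cube_tame. Hens3 with g0 = -x, g1 = 3, g2 = 3, g3 = 1: `(1 + y)^3 = 1 + 3 y + 3 y^2 + y^3 = 1 + x`. (`V 3 = 1`, so all fine.)
PROOF of cube_wild. `x = 9 x'` with `V x' ≤ 1` (`V 9 = exp (-2)`). Want `(1 + 3 y)^3 = 1 + 9 y + 27 y^2 + 27 y^3 = 1 + 9 x'`, that is `y + 3 y^2 + 3 y^3 = x'`; put `y = x' + z`: `(3 x'^2 + 3 x'^3) + (1 + 6 x' + 9 x'^2) z + (3 + 9 x') z^2 + 3 z^3 = 0`: Hens3.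
 (`V (1 + 6 x' + 9 x'^2) = 1` as `V (6 x' + 9 x'^2) < 1`: Valuation.map_add_eq_of_lt_left; `V 3 < 1`, integers have `V ≤ 1`.)
PROOF of ad_hens: the instance `CompleteSpace (w.adicCompletion L)` (used in H10/GrPlace.lean hS_odd).
-/

set_option autoImplicit false

open WithZero Topology Filter IsDedekindDomain NumberField

namespace H86T3

section

variable {F : Type*} [Field F] [Valued F (WithZero (Multiplicative ℤ))]

/-- The Newton iteration for the cubic equation `y = -(a0 + a2 y^2 + a3 y^3)`. -/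
def Hen_it (a0 a2 a3 : F) : ℕ → F
  | 0 => 0
  | n + 1 => -(a0 + a2 * (Hen_it a0 a2 a3 n) ^ 2 + a3 * (Hen_it a0 a2 a3 n) ^ 3)

lemma Hen_le {a0 a2 a3 : F} (h0 : Valued.v a0 < 1) (h2 : Valued.v a2 ≤ 1) (h3 : Valued.v a3 ≤ 1)
    (n : ℕ) : Valued.v (Hen_it a0 a2 a3 n) ≤ Valued.v a0 := by
  induction n with
  | zero => change Valued.v (0 : F) ≤ _; rw [map_zero]; exact zero_le
  | succ n ih =>
    change Valued.v (-(a0 + a2 * (Hen_it a0 a2 a3 n) ^ 2 + a3 * (Hen_it a0 a2 a3 n) ^ 3)) ≤ _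
    rw [Valuation.map_neg]
    have hy1 : Valued.v (Hen_it a0 a2 a3 n) ≤ 1 := ih.trans h0.le
    refine (Valuation.map_add _ _ _).trans (max_le ((Valuation.map_add _ _ _).trans
      (max_le le_rfl ?_)) ?_)
    · rw [map_mul, map_pow, pow_two]
      calc Valued.v a2 * (Valued.v (Hen_it a0 a2 a3 n) * Valued.v (Hen_it a0 a2 a3 n))
          ≤ 1 * (Valued.v a0 * 1) := mul_le_mul' h2 (mul_le_mul' ih hy1)
        _ = _ := by rw [one_mul, mul_one]
    · rw [map_mul, map_pow, pow_succ, pow_two]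
      calc Valued.v a3 * (Valued.v (Hen_it a0 a2 a3 n) * Valued.v (Hen_it a0 a2 a3 n) *
            Valued.v (Hen_it a0 a2 a3 n))
          ≤ 1 * (Valued.v a0 * 1 * 1) := mul_le_mul' h3 (mul_le_mul' (mul_le_mul' ih hy1) hy1)
        _ = _ := by rw [one_mul, mul_one, mul_one]

lemma Hen_succ {a0 a2 a3 : F} (h0 : Valued.v a0 < 1) (h2 : Valued.v a2 ≤ 1)
    (h3 : Valued.v a3 ≤ 1) (n : ℕ) :
    Valued.v (Hen_it a0 a2 a3 (n + 1) - Hen_it a0 a2 a3 n) ≤ exp (-((n + 1 : ℕ) : ℤ)) := by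
  have hc' := Pool.Agent.H10.lt_one_le_exp h0
  induction n with
  | zero =>
    change Valued.v (-(a0 + a2 * (0 : F) ^ 2 + a3 * (0 : F) ^ 3) - 0) ≤ _
    have : -(a0 + a2 * (0 : F) ^ 2 + a3 * (0 : F) ^ 3) - 0 = -a0 := by ring
    rw [this, Valuation.map_neg]
    exact_mod_cast hc'
  | succ n ih =>
    set y := Hen_it a0 a2 a3 (n + 1) with hy
    set z := Hen_it a0 a2 a3 n with hz
    have e : Hen_it a0 a2 a3 (n + 1 + 1) - y =
        -((y - z) * (a2 * (y + z) + a3 * (y ^ 2 + y * z + z ^ 2))) := by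
      have e1 : Hen_it a0 a2 a3 (n + 1 + 1) = -(a0 + a2 * y ^ 2 + a3 * y ^ 3) := rfl
      have e2 : y = -(a0 + a2 * z ^ 2 + a3 * z ^ 3) := rfl
      rw [e1]
      linear_combination (-1 : F) * e2
    rw [e, Valuation.map_neg, map_mul]
    have hyl : Valued.v y ≤ exp (-1 : ℤ) := (Hen_le h0 h2 h3 _).trans hc'
    have hzl : Valued.v z ≤ exp (-1 : ℤ) := (Hen_le h0 h2 h3 _).trans hc'
    have hexp : (exp (-1 : ℤ) : WithZero (Multiplicative ℤ)) ≤ 1 := by
      rw [← exp_zero, exp_le_exp]; omega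
    have q1 : Valued.v (a2 * (y + z)) ≤ exp (-1 : ℤ) := by
      rw [map_mul]
      calc Valued.v a2 * Valued.v (y + z) ≤ 1 * exp (-1 : ℤ) :=
            mul_le_mul' h2 ((Valuation.map_add _ _ _).trans (max_le hyl hzl))
        _ = _ := one_mul _
    have q2 : Valued.v (y ^ 2 + y * z + z ^ 2) ≤ exp (-1 : ℤ) := by
      refine (Valuation.map_add _ _ _).trans (max_le ((Valuation.map_add _ _ _).trans
        (max_le ?_ ?_)) ?_)
      · rw [map_pow, pow_two]
        calc Valued.v y * Valued.v y ≤ exp (-1 : ℤ) * 1 := mul_le_mul' hyl (hyl.trans hexp)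
          _ = _ := mul_one _
      · rw [map_mul]
        calc Valued.v y * Valued.v z ≤ exp (-1 : ℤ) * 1 := mul_le_mul' hyl (hzl.trans hexp)
          _ = _ := mul_one _
      · rw [map_pow, pow_two]
        calc Valued.v z * Valued.v z ≤ exp (-1 : ℤ) * 1 := mul_le_mul' hzl (hzl.trans hexp)
          _ = _ := mul_one _
    have q3 : Valued.v (a3 * (y ^ 2 + y * z + z ^ 2)) ≤ exp (-1 : ℤ) := by
      rw [map_mul]
      calc Valued.v a3 * Valued.v (y ^ 2 + y * z + z ^ 2) ≤ 1 * exp (-1 : ℤ) := mul_le_mul' h3 q2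
        _ = _ := one_mul _
    have h1 : Valued.v (a2 * (y + z) + a3 * (y ^ 2 + y * z + z ^ 2)) ≤ exp (-1 : ℤ) :=
      (Valuation.map_add _ _ _).trans (max_le q1 q3)
    calc Valued.v (y - z) * Valued.v (a2 * (y + z) + a3 * (y ^ 2 + y * z + z ^ 2))
        ≤ exp (-((n + 1 : ℕ) : ℤ)) * exp (-1 : ℤ) := mul_le_mul' ih h1
      _ = exp (-((n + 1 + 1 : ℕ) : ℤ)) := by
          rw [← exp_add]; congr 1

lemma Hen_sub {a0 a2 a3 : F} (h0 : Valued.v a0 < 1) (h2 : Valued.v a2 ≤ 1)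
    (h3 : Valued.v a3 ≤ 1) (n k : ℕ) :
    Valued.v (Hen_it a0 a2 a3 (n + k) - Hen_it a0 a2 a3 n) ≤ exp (-((n + 1 : ℕ) : ℤ)) := by
  induction k with
  | zero => rw [add_zero, sub_self, map_zero]; exact zero_le
  | succ k ih =>
    have e : Hen_it a0 a2 a3 (n + (k + 1)) - Hen_it a0 a2 a3 n =
        (Hen_it a0 a2 a3 (n + k + 1) - Hen_it a0 a2 a3 (n + k)) +
          (Hen_it a0 a2 a3 (n + k) - Hen_it a0 a2 a3 n) := by
      rw [← add_assoc]; ring
    rw [e]
    refine (Valuation.map_add _ _ _).trans (max_le ((Hen_succ h0 h2 h3 _).trans ?_) ih)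
    rw [exp_le_exp]
    push_cast
    omega

theorem Hen_exists [CompleteSpace F] {a0 a2 a3 : F} (h0 : Valued.v a0 < 1)
    (h2 : Valued.v a2 ≤ 1) (h3 : Valued.v a3 ≤ 1) :
    ∃ t : F, Valued.v t < 1 ∧ t = -(a0 + a2 * t ^ 2 + a3 * t ^ 3) := by
  have hcau : CauchySeq (Hen_it a0 a2 a3) := by
    rw [CauchySeq, Valued.cauchy_iff]
    refine ⟨inferInstance, fun γ => ?_⟩
    obtain ⟨N, hN⟩ := exists_exp_neg_natCast_lt
      (x := MonoidWithZeroHom.ValueGroup₀.embedding γ.1) (by simp)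
    refine ⟨Hen_it a0 a2 a3 '' Set.Ici N, Filter.image_mem_map (Filter.Ici_mem_atTop N), ?_⟩
    rintro _ ⟨m, hm, rfl⟩ _ ⟨n, hn, rfl⟩
    rw [Valuation.restrict_lt_iff_lt_embedding]
    refine lt_of_le_of_lt ?_ hN
    have h1 := Hen_sub h0 h2 h3 N (m - N)
    have h2 := Hen_sub h0 h2 h3 N (n - N)
    rw [Nat.add_sub_cancel' hm] at h1
    rw [Nat.add_sub_cancel' hn] at h2
    have e : Hen_it a0 a2 a3 n - Hen_it a0 a2 a3 m = (Hen_it a0 a2 a3 n - Hen_it a0 a2 a3 N) -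
        (Hen_it a0 a2 a3 m - Hen_it a0 a2 a3 N) := by ring
    rw [e]
    refine (Valuation.map_sub _ _ _).trans (max_le (h2.trans ?_) (h1.trans ?_)) <;>
    · rw [exp_le_exp]; push_cast; omega
  obtain ⟨t, ht⟩ := cauchySeq_tendsto_of_complete hcau
  have e1 : Tendsto (fun n => Hen_it a0 a2 a3 (n + 1)) atTop (𝓝 t) :=
    ht.comp (tendsto_add_atTop_nat 1)
  have e2 : Tendsto (fun n => Hen_it a0 a2 a3 (n + 1)) atTop
      (𝓝 (-(a0 + a2 * t ^ 2 + a3 * t ^ 3))) := by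
    have : (fun n => Hen_it a0 a2 a3 (n + 1)) =
        fun n => -(a0 + a2 * (Hen_it a0 a2 a3 n) ^ 2 + a3 * (Hen_it a0 a2 a3 n) ^ 3) := rfl
    rw [this]
    exact ((tendsto_const_nhds.add ((ht.pow 2).const_mul a2)).add ((ht.pow 3).const_mul a3)).neg
  refine ⟨t, ?_, tendsto_nhds_unique e1 e2⟩
  -- the valuation of the limit
  have hnb : {z : F | Valued.v.restrict (z - t) < 1} ∈ 𝓝 t := by
    rw [Valued.mem_nhds]
    exact ⟨1, by intro z hz; simpa using hz⟩
  obtain ⟨n, hn⟩ := (ht.eventually hnb).exists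
  have hn1 : Valued.v (Hen_it a0 a2 a3 n - t) < 1 := by
    have hn' : Valued.v.restrict (Hen_it a0 a2 a3 n - t) < 1 := hn
    rwa [Valuation.restrict_lt_one_iff] at hn'
  have e : t = Hen_it a0 a2 a3 n - (Hen_it a0 a2 a3 n - t) := by ring
  rw [e]
  exact lt_of_le_of_lt (Valuation.map_sub _ _ _)
    (max_lt (lt_of_le_of_lt (Hen_le h0 h2 h3 n) h0) hn1)

end

theorem hens3 {F : Type*} [Field F] [Valued F (WithZero (Multiplicative ℤ))] [CompleteSpace F] :
    Hens3 (Valued.v : Valuation F (WithZero (Multiplicative ℤ))) := by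
  intro g0 g1 g2 g3 h0 h1 h2 h3
  have hne : g1 ≠ 0 := by
    intro h
    rw [h, map_zero] at h1
    exact zero_ne_one h1
  obtain ⟨t, ht1, ht⟩ := Hen_exists (F := F) (a0 := g0 / g1) (a2 := g2 / g1) (a3 := g3 / g1)
    (by rw [map_div₀, h1, div_one]; exact h0) (by rw [map_div₀, h1, div_one]; exact h2)
    (by rw [map_div₀, h1, div_one]; exact h3)
  refine ⟨t, ht1, ?_⟩
  have h : g1 * t = -(g0 + g2 * t ^ 2 + g3 * t ^ 3) := by
    calc g1 * t = g1 * (-(g0 / g1 + g2 / g1 * t ^ 2 + g3 / g1 * t ^ 3)) := by rw [← ht]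
      _ = _ := by field_simp
  linear_combination h

theorem ad_hens {L : Type} [Field L] [NumberField L] (w : HeightOneSpectrum (𝓞 L)) :
    Hens3 (Valued.v : Valuation (w.adicCompletion L) (WithZero (Multiplicative ℤ))) :=
  hens3

theorem cube_tame {F : Type*} [Field F] {V : Valuation F (WithZero (Multiplicative ℤ))}
    (hV : Hens3 V) (h3 : V 3 = 1) {x : F} (hx : V x < 1) : ∃ t, 1 + x = t ^ 3 := by
  obtain ⟨y, -, hy⟩ := hV (-x) 3 3 1 (by rw [Valuation.map_neg]; exact hx) h3 h3.le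
    (by rw [map_one])
  exact ⟨1 + y, by linear_combination (-1 : F) * hy⟩

theorem cube_wild {F : Type*} [Field F] {V : Valuation F (WithZero (Multiplicative ℤ))}
    (hV : Hens3 V) (h3 : V 3 = exp (-1 : ℤ)) {x : F} (hx : V x ≤ exp (-2 : ℤ)) :
    ∃ t, 1 + x = t ^ 3 := by
  have h3lt : V 3 < 1 := by rw [h3, ← exp_zero, exp_lt_exp]; omega
  have h30 : (3 : F) ≠ 0 := by
    intro h
    rw [h, map_zero] at h3
    exact exp_ne_zero h3.symm
  have h9 : V 9 = exp (-2 : ℤ) := by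
    have : (9 : F) = 3 * 3 := by norm_num
    rw [this, map_mul, h3, ← exp_add]
    norm_num
  have h90 : (9 : F) ≠ 0 := by
    have : (9 : F) = 3 * 3 := by norm_num
    rw [this]
    exact mul_ne_zero h30 h30
  have h2 : V 2 ≤ 1 := by
    have : (2 : F) = 1 + 1 := by norm_num
    rw [this]
    exact (Valuation.map_add _ _ _).trans (by rw [map_one, max_self])
  have hx1 : V (x / 9) ≤ 1 := by
    rw [map_div₀, h9]
    exact div_le_one_of_le₀ hx zero_le
  set u := x / 9 with hu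
  have hxu : x = 9 * u := by rw [hu]; field_simp
  have hu2 : V (u ^ 2) ≤ 1 := by rw [map_pow]; exact pow_le_one' hx1 2
  have hu3 : V (u ^ 3) ≤ 1 := by rw [map_pow]; exact pow_le_one' hx1 3
  have m3 : ∀ z : F, V z ≤ 1 → V (3 * z) < 1 := by
    intro z hz
    rw [map_mul]
    calc V 3 * V z ≤ V 3 * 1 := mul_le_mul' le_rfl hz
      _ = V 3 := mul_one _
      _ < 1 := h3lt
  have g0 : V (3 * (u ^ 2 + u ^ 3)) < 1 :=
    m3 _ ((Valuation.map_add _ _ _).trans (max_le hu2 hu3))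
  have hs : V (2 * u + 3 * u ^ 2) ≤ 1 := by
    refine (Valuation.map_add _ _ _).trans (max_le ?_ (m3 _ hu2).le)
    rw [map_mul]
    exact mul_le_one' h2 hx1
  have g1 : V (1 + 3 * (2 * u + 3 * u ^ 2)) = 1 := by
    have h := Valuation.map_add_eq_of_lt_left V (x := 1) (y := 3 * (2 * u + 3 * u ^ 2))
      (by rw [map_one]; exact m3 _ hs)
    rw [h, map_one]
  have g2 : V (3 * (1 + 3 * u)) ≤ 1 :=
    (m3 _ ((Valuation.map_add _ _ _).trans (max_le (by rw [map_one]) (m3 _ hx1).le))).le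
  obtain ⟨z, -, hz⟩ := hV _ _ _ 3 g0 g1 g2 h3lt.le
  refine ⟨1 + 3 * (u + z), ?_⟩
  rw [hxu]
  linear_combination (-9 : F) * hz

end H86T3
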