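import Pool.Agent.H86.T3G.FfC
import Pool.Agent.H86.T3G.Hen

/-!
Row Gd3 (about 150 lines): units at the good places. (Model: Pool/Agent/H86/IG/Gd.lean.)

PROOF. `V 3 = 1` as `ρ 3 ≠ 0`. ff_sol over `k` for `ρ a, ρ b, ρ u`: LocSol 1 (ρ a) (9 ρ b + 4 (ρ a)^3) (ρ u).
 Case `ρ u = t^3`: lift `t` to an integral `t'` (ρ surjective), a unit, `u = t'^3 (1 + x)`, `V x < 1`: cube_tame: `u` is a cube.
 Case `(U, v)`: `f(U, v) := u^2 v^3 - U^3 - u (6 a U v + 2 c) = 0` over `k` (`c = 9 b + 4 a^3`). `f_v = 3 u^2 v^2 - 6 a u U`, `f_U = -3 U^2 - 6 a u v`. They are not both zero in `k`: otherwise `u v^2 = 2 a U`, `U^2 = -2 a u v`; if `U = 0` then `v = 0` (`u ≠ 0`), `f = -2 u c ≠ 0`; if `v = 0` then `U = 0`; otherwise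
  `u U^2 v^2 = -4 a^2 u U v` gives `U v = -4 a^2`, `u^2 v^3 = u v * u v^2 = 2 a u (U v) = -8 a^3 u`, `U^3 = -2 a u (U v) = 8 a^3 u`, `f = -8 a^3 u - 8 a^3 u + 24 a^3 u - 2 u c = u (8 a^3 - 2 c) = -18 u b ≠ 0`.
  Lift `U, v` to integral `U', v'`; `V (f(U', v')) < 1`. If `f_v ≠ 0` in `k`: `f(U', v' + y) = f0 + f_v y + (3 u^2 v') y^2 + u^2 y^3`: Hens3. If `f_U ≠ 0`: `f(U' + y, v') = f0 + f_U y - 3 U' y^2 - y^3`: Hens3.
-/

set_option autoImplicit false
open scoped Classical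

open WithZero H55T3

namespace H86T3

/-- the two partial derivatives do not vanish at the same time -/
theorem Gd3_fin {k : Type} [Field k] (h2 : (2 : k) ≠ 0) (h3 : (3 : k) ≠ 0) {A B w U v : k}
    (hb : B ≠ 0) (hc : 9 * B + 4 * A ^ 3 ≠ 0) (hw : w ≠ 0)
    (hf : w ^ 2 * v ^ 3 - U ^ 3 = w * 1 * (6 * A * U * v + 2 * (9 * B + 4 * A ^ 3))) :
    3 * w ^ 2 * v ^ 2 - 6 * A * w * U ≠ 0 ∨ -3 * U ^ 2 - 6 * A * w * v ≠ 0 := by
  by_contra hcon
  push Not at hcon
  obtain ⟨e1, e2⟩ := hcon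
  have e3 : w * v ^ 2 = 2 * A * U := by
    have h : 3 * w * (w * v ^ 2 - 2 * A * U) = 0 := by linear_combination e1
    rcases mul_eq_zero.1 h with h | h
    · exact absurd h (mul_ne_zero h3 hw)
    · exact sub_eq_zero.1 h
  have e4 : U ^ 2 = -2 * A * w * v := by
    have h : 3 * (U ^ 2 + 2 * A * w * v) = 0 := by linear_combination -e2
    rcases mul_eq_zero.1 h with h | h
    · exact absurd h h3
    · linear_combination h
  have hUv : U = 0 ∧ v = 0 ∨ U * v = -4 * A ^ 2 := by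
    by_cases hU : U = 0
    · left
      refine ⟨hU, ?_⟩
      rw [hU, mul_zero] at e3
      rcases mul_eq_zero.1 e3 with h | h
      · exact absurd h hw
      · exact pow_eq_zero_iff (two_ne_zero) |>.1 h
    · by_cases hv : v = 0
      · exfalso
        rw [hv, mul_zero] at e4
        exact hU (pow_eq_zero_iff (two_ne_zero) |>.1 e4)
      · right
        have h : w * U * v * (U * v + 4 * A ^ 2) = 0 := by
          linear_combination U ^ 2 * e3 + 2 * A * U * e4
        rcases mul_eq_zero.1 h with h | h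
        · exact absurd h (mul_ne_zero (mul_ne_zero hw hU) hv)
        · linear_combination h
  rcases hUv with ⟨hU, hv⟩ | hUv
  · rw [hU, hv] at hf
    have h : 2 * w * (9 * B + 4 * A ^ 3) = 0 := by linear_combination -hf
    exact mul_ne_zero (mul_ne_zero h2 hw) hc h
  · have h5 : w ^ 2 * v ^ 3 = -8 * A ^ 3 * w := by
      linear_combination w * v * e3 + 2 * A * w * hUv
    have h6 : U ^ 3 = 8 * A ^ 3 * w := by
      linear_combination U * e4 - 2 * A * w * hUv
    have h7 : 2 * 3 * 3 * w * B = 0 := by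
      linear_combination -hf + h5 - h6 - 6 * A * w * hUv
    exact mul_ne_zero (mul_ne_zero (mul_ne_zero (mul_ne_zero h2 h3) h3) hw) hb h7

theorem Gd3_one {F : Type*} [Field F] {V : Valuation F (WithZero (Multiplicative ℤ))}
    {k : Type} [Field k] {ρ : V.integer →+* k} (hρ : ∀ x : V.integer, ρ x = 0 ↔ V x < 1)
    {x : V.integer} (hx : ρ x ≠ 0) : V (x : F) = 1 := by
  have h1 : V (x : F) ≤ 1 := x.2
  have h2 : ¬ V (x : F) < 1 := fun h => hx ((hρ x).2 h)
  exact le_antisymm h1 (not_lt.1 h2)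

theorem good_sol {F : Type*} [Field F] {V : Valuation F (WithZero (Multiplicative ℤ))}
    (hV : Hens3 V) {k : Type} [Field k] [Finite k] {ρ : V.integer →+* k}
    (hρs : Function.Surjective ρ) (hρ : ∀ x : V.integer, ρ x = 0 ↔ V x < 1)
    (h2 : (2 : k) ≠ 0) (h3 : (3 : k) ≠ 0) {a b u : V.integer} (hb : ρ b ≠ 0)
    (hc : ρ (9 * b + 4 * a ^ 3) ≠ 0) (hu : ρ u ≠ 0) :
    LocSol 1 (a : F) (9 * (b : F) + 4 * (a : F) ^ 3) (u : F) := by
  have hV3 : V (3 : F) = 1 := Gd3_one hρ (x := (3 : V.integer)) (by rw [map_ofNat]; exact h3)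
  have hc' : 9 * ρ b + 4 * ρ a ^ 3 ≠ 0 := by
    rw [map_add, map_mul, map_mul, map_pow, map_ofNat, map_ofNat] at hc
    exact hc
  rcases ff_sol h2 h3 hb hc' hu with ⟨t, ht⟩ | ⟨U, v, hUv⟩
  · left
    obtain ⟨T, hT⟩ := hρs t
    have ht0 : t ≠ 0 := by
      rintro rfl
      rw [zero_pow three_ne_zero] at ht
      exact hu ht
    have hVT : V (T : F) = 1 := Gd3_one hρ (by rw [hT]; exact ht0)
    have hT0 : (T : F) ≠ 0 := by
      intro h
      rw [h, map_zero] at hVT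
      exact zero_ne_one hVT
    have h4 : V ((u - T ^ 3 : V.integer) : F) < 1 := by
      rw [← hρ, map_sub, map_pow, hT, ht, sub_self]
    have h5 : V (((u - T ^ 3 : V.integer) : F) / (T : F) ^ 3) < 1 := by
      rw [map_div₀, map_pow, hVT, one_pow, div_one]
      exact h4
    obtain ⟨s, hs⟩ := cube_tame hV hV3 h5
    refine ⟨s * T, ?_⟩
    rw [mul_pow, ← hs]
    have h6 : ((u - T ^ 3 : V.integer) : F) = (u : F) - (T : F) ^ 3 := rfl
    rw [h6]
    field_simp
    ring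
  · right
    obtain ⟨U', hU'⟩ := hρs U
    obtain ⟨v', hv'⟩ := hρs v
    obtain ⟨f0, hf0⟩ : ∃ f0 : V.integer, f0 = u ^ 2 * v' ^ 3 - U' ^ 3 -
      u * (6 * a * U' * v' + 2 * (9 * b + 4 * a ^ 3)) := ⟨_, rfl⟩
    have hf0F : (f0 : F) = (u : F) ^ 2 * (v' : F) ^ 3 - (U' : F) ^ 3 -
      (u : F) * (6 * (a : F) * U' * v' + 2 * (9 * (b : F) + 4 * (a : F) ^ 3)) := by
      rw [hf0]
      rfl
    have hf0V : V (f0 : F) < 1 := by
      rw [← hρ, hf0]
      simp only [map_sub, map_add, map_mul, map_pow, map_ofNat, hU', hv']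
      linear_combination hUv
    rcases Gd3_fin h2 h3 hb hc' hu hUv with hd | hd
    · obtain ⟨g1, hg1⟩ : ∃ g1 : V.integer, g1 = 3 * u ^ 2 * v' ^ 2 - 6 * a * u * U' := ⟨_, rfl⟩
      have hg1F : (g1 : F) = 3 * (u : F) ^ 2 * (v' : F) ^ 2 - 6 * (a : F) * u * U' := by
        rw [hg1]
        rfl
      have hg1V : V (g1 : F) = 1 := by
        apply Gd3_one hρ
        rw [hg1]
        simp only [map_sub, map_mul, map_pow, map_ofNat, hU', hv']
        exact hd
      obtain ⟨y, _, hy⟩ := hV (f0 : F) (g1 : F) ((3 * u ^ 2 * v' : V.integer) : F)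
        ((u ^ 2 : V.integer) : F) hf0V hg1V (3 * u ^ 2 * v' : V.integer).2 (u ^ 2 : V.integer).2
      have e1 : ((3 * u ^ 2 * v' : V.integer) : F) = 3 * (u : F) ^ 2 * v' := rfl
      have e2 : ((u ^ 2 : V.integer) : F) = (u : F) ^ 2 := rfl
      rw [hf0F, hg1F, e1, e2] at hy
      exact ⟨U', v' + y, by linear_combination hy⟩
    · obtain ⟨g1, hg1⟩ : ∃ g1 : V.integer, g1 = -3 * U' ^ 2 - 6 * a * u * v' := ⟨_, rfl⟩
      have hg1F : (g1 : F) = -3 * (U' : F) ^ 2 - 6 * (a : F) * u * v' := by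
        rw [hg1]
        rfl
      have hg1V : V (g1 : F) = 1 := by
        apply Gd3_one hρ
        rw [hg1]
        simp only [map_sub, map_mul, map_pow, map_ofNat, map_neg, hU', hv']
        exact hd
      obtain ⟨y, _, hy⟩ := hV (f0 : F) (g1 : F) ((-3 * U' : V.integer) : F)
        ((-1 : V.integer) : F) hf0V hg1V (-3 * U' : V.integer).2 (-1 : V.integer).2
      have e1 : ((-3 * U' : V.integer) : F) = -3 * (U' : F) := rfl
      have e2 : ((-1 : V.integer) : F) = -1 := rfl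
      rw [hf0F, hg1F, e1, e2] at hy
      exact ⟨U' + y, v', by linear_combination hy⟩

end H86T3
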