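import Pool.Agent.H86.T3G.Df

/-!
Row Glc (about 200 lines): converse of `H55T3.loc_gen` for `D = s = 1`.

PROOF. `A, B` the images of `a, b` in `Ω`, `C = 9 B + 4 A^3`; `Is3 E 1 A B`; `s = 1` everywhere (`(1 : Ω)^2 = 1`). For every `τ`: `(τ r)^3 = τ (r^3) = r^3`, so `ζ := τ r / r` has `ζ^3 = 1` and there is `K` with `Kr K`, `ee 1 B K = ζ` (ee_surj).
 Case `d = t^3`: `(r / t)^3 = 1` (`t` the image of `t`, non zero since `r^3 = d`), ee_surj: `P` with `Kr P`, `ee 1 B P = r / t`. For `τ`: `Kr (act h τ P)` (kr_pm), `ee (act h τ P) = τ (ee P)` (ee_pm with φ = τ, as in the proof of loc_gen), so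
  `ee (act h τ P - P) = τ (r / t) / (r / t) = τ r / r` (ee_add, ee_neg, sub_eq_add_neg); Kr by kr_add, kr_neg.
 Case `d^2 v^3 - U^3 = d * 1 * (6 a U v + 2 c)`: put `w := r v`, `u := U / r` (images): `w^3 - u^3 = 6 A u w + 2 C` (multiply by `r^3 = d`: `d (w^3 - u^3) = d^2 v^3 - U^3`). `w - u ≠ 2 A`: otherwise `w^3 - u^3 = (w - u)((w - u)^2 + 3 u w) = 8 A^3 + 6 A u w`, so `2 C = 8 A^3`, `18 B = 0`,
  contradiction. `x := 6 B / (w - u - 2 A)` (`≠ 0`), `y := x (u + w) / 2`. Then `w = (y + (A x + 3 B)) / x`, `u = (y - (A x + 3 B)) / x` and `y^2 = x^3 - 3 (A x + B)^2`: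
  [`w^3 - u^3 = 2 (A x + 3 B)(3 y^2 + (A x + 3 B)^2) / x^3`, `u w = (y^2 - (A x + 3 B)^2) / x^2`, so `w^3 - u^3 = 6 A u w + 2 C` becomes `18 B y^2 = 2 C x^3 - 2 (A x + 3 B)^2 (4 A x + 3 B) = 18 B (x^3 - 3 (A x + B)^2)`.]
  The curve is elliptic (Is3.isElliptic), so `(x, y)` is nonsingular (`WeierstrassCurve.Affine.equation_iff_nonsingular` with `IsElliptic`; see how H55/T3/Sj.lean makes points): `P := some x y`. `ww 1 A B P = w`, `uu 1 A B P = u`, `¬ Kr P`.
  For `τ` with `K` as above: `ww (act h τ P) = τ w = ζ w`, `uu (act h τ P) = τ u = ζ⁻¹ u` (uu_pm), and by uu_trans `ww (P + K) = ζ w`, `ζ * uu (P + K) = u`: the points `act h τ P` and `P + K` (both not in Kr) have the same `ww`, `uu`, hence the same `x = 6 B / (ww - uu - 2 A)` and `y = x (uu + ww) / 2`: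
  they are equal, so `act h τ P - P = K`.
 You may use the lemma `point_eq` (prove it first): P, Q not in Kr with equal uu and ww are equal.
-/

set_option autoImplicit false
open scoped Classical

open WeierstrassCurve IsDedekindDomain NumberField Pool.Agent.H10 H55T3

namespace H86T3

theorem Glc_point_eq {k : Type*} [Field k] {W : WeierstrassCurve k} {A B : k} (h : Is3 W 1 A B)
    {P Q : W.toAffine.Point} (hP : ¬ Kr P) (hQ : ¬ Kr Q) (hu : uu 1 A B P = uu 1 A B Q)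
    (hw : ww 1 A B P = ww 1 A B Q) : P = Q := by
  rcases P with _ | ⟨x, y, n⟩
  · exact absurd kr_zero hP
  rcases Q with _ | ⟨x', y', n'⟩
  · exact absurd kr_zero hQ
  have hx : x ≠ 0 := fun hx => hP ((kr_some n).2 hx)
  have hx' : x' ≠ 0 := fun hx => hQ ((kr_some n').2 hx)
  have h2 := h.two
  have h3 := h.three
  have hb := h.hb
  unfold uu at hu
  unfold ww at hw
  rw [div_eq_div_iff hx hx'] at hu hw
  have h6 : (6 : k) * B ≠ 0 := by
    have h60 : (6 : k) = 2 * 3 := by norm_num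
    rw [h60]
    exact mul_ne_zero (mul_ne_zero h2 h3) hb
  have e1 : x = x' := by
    apply mul_left_cancel₀ h6
    linear_combination hu - hw
  subst e1
  have e2 : y = y' := by
    apply mul_left_cancel₀ (mul_ne_zero h2 hx)
    linear_combination hu + hw
  subst e2
  rfl

/-- a point of the curve from a solution of the homogeneous space -/
theorem Glc_point {k : Type*} [Field k] {W : WeierstrassCurve k} {A B : k} (h : Is3 W 1 A B)
    {u w : k} (hwu : w ^ 3 - u ^ 3 = 6 * A * u * w + 2 * (9 * B + 4 * A ^ 3)) :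
    ∃ P : W.toAffine.Point, ¬ Kr P ∧ uu 1 A B P = u ∧ ww 1 A B P = w := by
  have h2 := h.two
  have h3 := h.three
  have hb := h.hb
  have h6 : (6 : k) * B ≠ 0 := by
    have h60 : (6 : k) = 2 * 3 := by norm_num
    rw [h60]
    exact mul_ne_zero (mul_ne_zero h2 h3) hb
  have hq : w - u - 2 * A ≠ 0 := by
    intro h0
    apply mul_ne_zero h3 h6
    have hw : w = u + 2 * A := by linear_combination h0
    rw [hw] at hwu
    linear_combination (-1 : k) * hwu
  obtain ⟨x, hx⟩ : ∃ x, x = 6 * B / (w - u - 2 * A) := ⟨_, rfl⟩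
  have hx0 : x ≠ 0 := by
    rw [hx]
    exact div_ne_zero h6 hq
  have hxq : x * (w - u - 2 * A) = 6 * B := by
    rw [hx, div_mul_cancel₀ _ hq]
  obtain ⟨y, hy⟩ : ∃ y, y = x * (u + w) / 2 := ⟨_, rfl⟩
  have hy2 : 2 * y = x * (u + w) := by
    rw [hy, mul_div_cancel₀ _ h2]
  have e1 : x * w = y + (A * x + 3 * B) := by
    apply mul_left_cancel₀ h2
    linear_combination hxq - hy2
  have e2 : x * u = y - (A * x + 3 * B) := by
    apply mul_left_cancel₀ h2
    linear_combination (-1 : k) * hxq - hy2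
  have hcur : y ^ 2 = x ^ 3 - 3 * (A * x + B) ^ 2 := by
    have X3 : (x * w) ^ 3 - (x * u) ^ 3 = 6 * A * x * (x * u) * (x * w) +
        2 * (9 * B + 4 * A ^ 3) * x ^ 3 := by
      linear_combination x ^ 3 * hwu
    rw [e1, e2] at X3
    apply mul_left_cancel₀ (mul_ne_zero h3 h6)
    linear_combination X3
  have hEll := h.isElliptic
  have heq : W.toAffine.Equation x y := by
    rw [Affine.equation_iff, h.a₁, h.a₂, h.a₃, h.a₄, h.a₆]
    linear_combination hcur
  have n : W.toAffine.Nonsingular x y := (Affine.equation_iff_nonsingular (W := W)).1 heq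
  refine ⟨.some x y n, fun hK => hx0 ((kr_some n).1 hK), ?_, ?_⟩
  · change (y - 1 * (A * x + 3 * B)) / x = u
    rw [one_mul, ← e2, mul_div_cancel_left₀ _ hx0]
  · change (y + 1 * (A * x + 3 * B)) / x = w
    rw [one_mul, ← e1, mul_div_cancel_left₀ _ hx0]

theorem gen_loc {F Ω : Type*} [Field F] [Field Ω] [Algebra F Ω]
    {E : WeierstrassCurve Ω} {a b : F}
    (hE : Is3 E 1 (algebraMap F Ω a) (algebraMap F Ω b)) (h : Inv F E)
    {r : Ω} {d : F} (hr : r ≠ 0) (hd : r ^ 3 = algebraMap F Ω d)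
    (H : LocSol 1 a (9 * b + 4 * a ^ 3) d) :
    ∃ P : E.toAffine.Point, ∀ τ : Ω ≃ₐ[F] Ω, Kr (act h τ P - P) ∧
      τ r = ee 1 (algebraMap F Ω b) (act h τ P - P) * r := by
  obtain ⟨A, hA⟩ : ∃ A, A = algebraMap F Ω a := ⟨_, rfl⟩
  obtain ⟨B, hB⟩ : ∃ B, B = algebraMap F Ω b := ⟨_, rfl⟩
  rw [← hA, ← hB] at hE
  rw [← hB]
  have h11 : (1 : Ω) ^ 2 = 1 := one_pow 2
  have hτA : ∀ τ : Ω ≃ₐ[F] Ω, (τ : Ω →+* Ω) A = A := by
    intro τ
    rw [hA]
    exact τ.commutes a
  have hτB : ∀ τ : Ω ≃ₐ[F] Ω, (τ : Ω →+* Ω) B = B := by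
    intro τ
    rw [hB]
    exact τ.commutes b
  have hζ : ∀ τ : Ω ≃ₐ[F] Ω, (τ r / r) ^ 3 = 1 := by
    intro τ
    rw [div_pow, ← map_pow, hd, τ.commutes, ← hd, div_self (pow_ne_zero 3 hr)]
  rcases H with ⟨t, ht⟩ | ⟨U, V, hUV⟩
  · have hrt : r ^ 3 = (algebraMap F Ω t) ^ 3 := by rw [hd, ht, map_pow]
    have ht0 : algebraMap F Ω t ≠ 0 := by
      intro h0
      rw [h0, zero_pow (by norm_num)] at hrt
      exact hr ((pow_eq_zero_iff (by norm_num)).1 hrt)
    obtain ⟨P, hKP, hP⟩ := ee_surj hE h11 (z := r / algebraMap F Ω t)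
      (by rw [div_pow, hrt, div_self (pow_ne_zero 3 ht0)])
    refine ⟨P, fun τ => ?_⟩
    have hK2 : Kr (act h τ P) := (kr_pm (h τ) P).2 hKP
    have he : ee 1 B (act h τ P) = τ (r / algebraMap F Ω t) := by
      have h3 := ee_pm (s := (1 : Ω)) (b := B) (φ := (τ : Ω →+* Ω)) (h τ) P
      rw [map_one, hτB, hP] at h3
      exact h3
    refine ⟨by rw [sub_eq_add_neg]; exact kr_add hE hK2 (kr_neg.2 hKP), ?_⟩
    rw [sub_eq_add_neg, ee_add hE h11 hK2 (kr_neg.2 hKP), ee_neg hE h11 hKP, he, hP, map_div₀,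
      τ.commutes]
    field_simp
  · obtain ⟨v0, hv0⟩ : ∃ v0, v0 = algebraMap F Ω V := ⟨_, rfl⟩
    obtain ⟨u, hu⟩ : ∃ u, u = algebraMap F Ω U / r := ⟨_, rfl⟩
    have hur : algebraMap F Ω U = u * r := by
      rw [hu, div_mul_cancel₀ _ hr]
    have hUV' := congrArg (algebraMap F Ω) hUV
    simp only [map_sub, map_mul, map_pow, map_add, map_ofNat, map_one] at hUV'
    rw [← hd, ← hv0, ← hA, ← hB, hur] at hUV'
    have hwu : (r * v0) ^ 3 - u ^ 3 = 6 * A * u * (r * v0) + 2 * (9 * B + 4 * A ^ 3) := by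
      apply mul_left_cancel₀ (pow_ne_zero 3 hr)
      linear_combination hUV'
    obtain ⟨P, hP, hPu, hPw⟩ := Glc_point hE hwu
    refine ⟨P, fun τ => ?_⟩
    obtain ⟨K, hKK, hK⟩ := ee_surj hE h11 (hζ τ)
    obtain ⟨g1, g2, g3⟩ := uu_trans hE h11 hP hKK
    rw [hK, hPu] at g2
    rw [hK, hPw] at g3
    obtain ⟨g4, g5⟩ := uu_pm (s := (1 : Ω)) (a := A) (b := B) (φ := (τ : Ω →+* Ω)) (h τ) P
    rw [map_one, hτA, hτB, hPu] at g4
    rw [map_one, hτA, hτB, hPw] at g5
    have g4' : uu 1 A B (act h τ P) = τ u := g4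
    have g5' : ww 1 A B (act h τ P) = τ (r * v0) := g5
    have hτr : τ r ≠ 0 := (map_ne_zero_iff τ τ.injective).2 hr
    have hKr : ¬ Kr (act h τ P) := fun hc => hP ((kr_pm (h τ) P).1 hc)
    have hτu : τ r * τ u = r * u := by
      have h1 : u * r = algebraMap F Ω U := hur.symm
      have h3 := congrArg τ h1
      rw [map_mul, τ.commutes, ← h1] at h3
      linear_combination h3
    have key : act h τ P = P + K := by
      apply Glc_point_eq hE hKr g1
      · rw [g4']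
        apply mul_left_cancel₀ (div_ne_zero hτr hr)
        rw [g2, div_mul_eq_mul_div, hτu, mul_div_cancel_left₀ _ hr]
      · rw [g5', g3, map_mul, hv0, τ.commutes]
        field_simp
    rw [key, add_sub_cancel_left]
    refine ⟨hKK, ?_⟩
    rw [hK, div_mul_cancel₀ _ hr]

end H86T3
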