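import Mathlib

/-!
Row Un3 (about 120 lines): units modulo cubes. (Model: Pool/Agent/H10/GrUnit.lean, uu_inj, card_uu.)

PROOF of u3_inj. `u3 L e = ∏ i, fundSystem L i ^ (e i : ℕ)`. If `u3 L e = u3 L e' * x^3`, write `x = ζ * ∏ fundSystem i ^ (m i)` (NumberField.Units.exist_unique_eq_mul_prod / basisModTorsion), so `∏ fundSystem^(e i - e' i - 3 m i)` is a root of unity, by uniqueness `e i - e' i = 3 m i` for all `i` (integers), and `e i, e' i ∈ {0,1,2}`: equal.
 (See the proof of uu_inj for the exact use of exist_unique_eq_mul_prod.)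
-/

set_option autoImplicit false

open NumberField NumberField.Units

namespace H86T3

/-- Products of powers of the fundamental units with exponents `0, 1, 2`. -/
noncomputable def u3 (L : Type) [Field L] [NumberField L] (e : Fin (rank L) → Fin 3) : (𝓞 L)ˣ :=
  ∏ i, fundSystem L i ^ ((e i : Fin 3) : ℕ)

theorem u3_inj {L : Type} [Field L] [NumberField L] {e e' : Fin (rank L) → Fin 3} {x : (𝓞 L)ˣ}
    (h : u3 L e = u3 L e' * x ^ 3) : e = e' := by
  obtain ⟨⟨ζ, m⟩, hm, -⟩ := exist_unique_eq_mul_prod L x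
  change x = (ζ : (𝓞 L)ˣ) * ∏ i, (fundSystem L i) ^ (m i) at hm
  have h1 : u3 L e = 1 * ∏ i, (fundSystem L i) ^ ((fun i => (((e i : Fin 3) : ℕ) : ℤ)) i) := by
    rw [one_mul]
    unfold u3
    exact Finset.prod_congr rfl fun i _ => (zpow_natCast _ _).symm
  have h2 : u3 L e = (ζ : (𝓞 L)ˣ) ^ 3 *
      ∏ i, (fundSystem L i) ^ ((fun i => (((e' i : Fin 3) : ℕ) : ℤ) + 3 * m i) i) := by
    rw [h, hm, mul_pow, ← Finset.prod_pow]
    unfold u3
    rw [mul_left_comm, ← Finset.prod_mul_distrib]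
    congr 1
    refine Finset.prod_congr rfl fun i _ => ?_
    rw [zpow_add, zpow_natCast, mul_comm (3 : ℤ), zpow_mul]
    rfl
  have h3 := fun_eq_repr L (one_mem _) h1
  have h4 := fun_eq_repr L (pow_mem ζ.2 3) h2
  have h5 := h3.trans h4.symm
  funext i
  have h6 : (((e i : Fin 3) : ℕ) : ℤ) = (((e' i : Fin 3) : ℕ) : ℤ) + 3 * m i := congrFun h5 i
  apply Fin.ext
  have h7 := (e i).2
  have h8 := (e' i).2
  omega

/-- An algebraic integer unit which is a cube in the field is a cube of a unit. -/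
theorem cube_unit {L : Type} [Field L] [NumberField L] {u : (𝓞 L)ˣ} {t : L}
    (h : ((u : 𝓞 L) : L) = t ^ 3) : ∃ x : (𝓞 L)ˣ, u = x ^ 3 := by
  have hint : IsIntegral ℤ t := by
    refine IsIntegral.of_pow (n := 3) (by norm_num) ?_
    rw [← h]
    exact RingOfIntegers.isIntegral_coe (u : 𝓞 L)
  obtain ⟨a, ha⟩ : ∃ a : 𝓞 L, (a : L) = t := ⟨⟨t, hint⟩, rfl⟩
  have h1 : (u : 𝓞 L) = a ^ 3 := by
    apply RingOfIntegers.coe_injective
    refine h.trans ?_
    rw [← ha]
    rfl
  have h2 : IsUnit a := by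
    refine (isUnit_pow_iff (n := 3) (by norm_num)).1 ?_
    rw [← h1]
    exact u.isUnit
  refine ⟨h2.unit, Units.ext ?_⟩
  rw [h1, Units.val_pow_eq_pow_val, IsUnit.unit_spec]

end H86T3
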