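import Pool.Agent.H73.IS.KVal

/-!
Valuations above three when three is unramified (after `H73IS.val_eq`).
-/

set_option autoImplicit false
open scoped Classical

open NumberField IsDedekindDomain WithZero Pool.Agent.H10 H73IS

namespace H86T3

variable {k L : Type} [Field k] [NumberField k] [Field L] [NumberField L] [Algebra k L]

theorem val_eq3 (w : HeightOneSpectrum (𝓞 L)) (h : (3 : 𝓞 L) ∈ w.asIdeal)
    (h' : (3 : 𝓞 L) ∉ w.asIdeal ^ 2) (x : k) :
    w.valuation L (algebraMap k L x) = (below k w).valuation k x := by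
  have : w.asIdeal.LiesOver (below k w).asIdeal := ⟨rfl⟩
  set e := (below k w).asIdeal.ramificationIdx' w.asIdeal with he
  have hval : ∀ x : k, (below k w).valuation k x ^ e = w.valuation L (algebraMap k L x) :=
    fun x => HeightOneSpectrum.valuation_liesOver L (below k w) w x
  have h2L : w.valuation L (3 : L) = exp (-1 : ℤ) := by
    have e1 : w.valuation L (3 : L) = w.intValuation (3 : 𝓞 L) := by
      rw [← w.valuation_of_algebraMap (K := L) (3 : 𝓞 L)]
      exact congrArg _ (map_ofNat (algebraMap (𝓞 L) L) 3).symm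
    rw [e1]
    apply le_antisymm
    · have := (w.intValuation_le_pow_iff_mem (3 : 𝓞 L) 1).mpr (by simpa using h)
      simpa using this
    · by_contra hlt
      rw [not_le] at hlt
      apply h'
      rw [← w.intValuation_le_pow_iff_mem]
      have h0 : w.intValuation (3 : 𝓞 L) ≠ 0 := w.intValuation_ne_zero _ (by norm_num)
      rw [← exp_log h0] at hlt ⊢
      rw [exp_lt_exp] at hlt
      rw [exp_le_exp]
      push_cast
      omega
  have h2k : (below k w).valuation k (3 : k) ≤ exp (-1 : ℤ) := by
    have e1 : (below k w).valuation k (3 : k) = (below k w).intValuation (3 : 𝓞 k) := by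
      rw [← (below k w).valuation_of_algebraMap (K := k) (3 : 𝓞 k)]
      exact congrArg _ (map_ofNat (algebraMap (𝓞 k) k) 3).symm
    rw [e1]
    have := ((below k w).intValuation_le_pow_iff_mem (3 : 𝓞 k) 1).mpr (by
      rw [pow_one, mem_below, map_ofNat]
      exact h)
    simpa using this
  have h20 : (below k w).valuation k (3 : k) ≠ 0 := by
    rw [Valuation.ne_zero_iff]
    norm_num
  have hv2 := hval 3
  rw [map_ofNat (algebraMap k L) 3, h2L, ← exp_log h20, ← exp_nsmul, exp_inj] at hv2
  rw [← exp_log h20, exp_le_exp] at h2k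
  have he1 : e = 1 := by
    rw [nsmul_eq_mul] at hv2
    have h3 : (e : ℤ) * (-log ((below k w).valuation k (3 : k))) = 1 := by linarith
    have h4 : (e : ℤ) ∣ 1 := ⟨_, h3.symm⟩
    have h5 : (e : ℤ) = 1 := Int.eq_one_of_dvd_one (Int.natCast_nonneg _) h4
    exact_mod_cast h5
  rw [← hval x, he1, pow_one]


end H86T3
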