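import Pool.Agent.H86.T3G.Plc3
import Pool.Agent.H86.T3G.Cnt3
import Pool.Agent.H86.T3G.Un3
import Pool.Agent.H86.T3G.Nrf3
import Pool.Agent.H86.T3G.Val3

/-!
Growth of the three-Selmer group.
-/

set_option autoImplicit false
set_option linter.style.haveILetI false
open scoped Classical

open WithZero WeierstrassCurve IsDedekindDomain NumberField NumberField.Units Pool.Agent.H10
  Pool.Agent.H11 H55T3 H86IK

namespace H86T3

/-- Index from the pigeonhole principle. -/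
theorem index_of_pigeon3 {G : Type*} [CommGroup G] (H : Subgroup G) {n : ℕ}
    (hp : ∀ u : Fin (n + 1) → G, ∃ i j, i ≠ j ∧ u i / u j ∈ H) :
    Finite (G ⧸ H) ∧ Nat.card (G ⧸ H) ≤ n := by
  have key : ∀ f : Fin (n + 1) → G ⧸ H, ¬ Function.Injective f := by
    intro f hf
    obtain ⟨i, j, hij, h⟩ := hp (fun i => (f i).out)
    apply hij
    apply hf
    have h1 : ((f j).out : G ⧸ H) = (f i).out := by
      rw [QuotientGroup.eq]
      rw [div_eq_mul_inv, mul_comm] at h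
      exact h
    rw [QuotientGroup.out_eq', QuotientGroup.out_eq'] at h1
    exact h1.symm
  have hfin : Finite (G ⧸ H) := by
    by_contra hinf
    rw [not_finite_iff_infinite] at hinf
    exact key (fun i => Infinite.natEmbedding (G ⧸ H) i.1)
      (fun i j hij => Fin.ext ((Infinite.natEmbedding (G ⧸ H)).injective hij))
  refine ⟨hfin, ?_⟩
  by_contra hcon
  push Not at hcon
  haveI := Fintype.ofFinite (G ⧸ H)
  rw [Nat.card_eq_fintype_card] at hcon
  obtain ⟨f⟩ := Function.Embedding.nonempty_of_card_le (α := Fin (n + 1)) (β := G ⧸ H) (by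
    rw [Fintype.card_fin]
    exact hcon)
  exact key f f.injective

section

variable {L : Type} [Field L] [NumberField L]

instance (w : HeightOneSpectrum (𝓞 L)) : PerfectField (w.adicCompletion L) :=
  haveI : CharZero (w.adicCompletion L) := inferInstance
  inferInstance

theorem ii_unit_ne3 (w : HeightOneSpectrum (𝓞 L)) (u : (𝓞 L)ˣ) : ii w (u : 𝓞 L) ≠ 0 :=
  ne_zero_of_V (unit_valued w u)

/-- The units whose class is soluble at `w`. -/
def G3 {a b : 𝓞 L} (hb : b ≠ 0) (hc : 9 * b + 4 * a ^ 3 ≠ 0) (w : HeightOneSpectrum (𝓞 L)) :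
    Subgroup (𝓞 L)ˣ where
  carrier := {u | LocSol 1 (ii w a) (9 * ii w b + 4 * ii w a ^ 3) (ii w (u : 𝓞 L))}
  one_mem' := by
    refine Or.inl ⟨1, ?_⟩
    simp [ii]
  mul_mem' := by
    intro x y hx hy
    change LocSol _ _ _ _
    rw [Units.val_mul, ii_mul]
    exact locSol_mul two_ne_zero three_ne_zero (ii_ne0 w hb) (ii_cc_ne w hc) (ii_unit_ne3 w x)
      (ii_unit_ne3 w y) hx hy
  inv_mem' := by
    intro x hx
    change LocSol _ _ _ _
    have e : ii w ((x⁻¹ : (𝓞 L)ˣ) : 𝓞 L) = (ii w (x : 𝓞 L))⁻¹ := by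
      apply eq_inv_of_mul_eq_one_left
      rw [← ii_mul, ← Units.val_mul, inv_mul_cancel]
      simp [ii]
    rw [e]
    exact locSol_inv two_ne_zero three_ne_zero (ii_ne0 w hb) (ii_cc_ne w hc) (ii_unit_ne3 w x) hx

lemma mem_G3 {a b : 𝓞 L} (hb : b ≠ 0) (hc : 9 * b + 4 * a ^ 3 ≠ 0)
    (w : HeightOneSpectrum (𝓞 L)) (u : (𝓞 L)ˣ) : u ∈ G3 hb hc w ↔
      LocSol 1 (ii w a) (9 * ii w b + 4 * ii w a ^ 3) (ii w (u : 𝓞 L)) := Iff.rfl

lemma index_three_le {a b : 𝓞 L} (hb : b ≠ 0) (hc : 9 * b + 4 * a ^ 3 ≠ 0)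
    (w : HeightOneSpectrum (𝓞 L))
    (hw : (3 : 𝓞 L) ∈ w.asIdeal → (3 : 𝓞 L) ∉ w.asIdeal ^ 2 ∧
      BadAt (Valued.v : Valuation (w.adicCompletion L) (WithZero (Multiplicative ℤ)))
        (ii w a) (ii w b)) :
    Finite ((𝓞 L)ˣ ⧸ G3 hb hc w) ∧ Nat.card ((𝓞 L)ˣ ⧸ G3 hb hc w) ≤ 3 := by
  apply index_of_pigeon3
  intro u
  by_cases h3 : (3 : 𝓞 L) ∈ w.asIdeal
  · exact unit_bad3 w hb hc (hw h3).2 h3 (hw h3).1 u
  · obtain ⟨i, j, hij, t, ht⟩ := unit_tame3 w h3 u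
    exact ⟨i, j, hij, Or.inl ⟨t, ht⟩⟩

lemma index_norm3 {a b : 𝓞 L} (hb : b ≠ 0) (hc : 9 * b + 4 * a ^ 3 ≠ 0)
    (w : HeightOneSpectrum (𝓞 L)) (h3 : (3 : 𝓞 L) ∈ w.asIdeal)
    (h3' : (3 : 𝓞 L) ∉ w.asIdeal ^ 2) :
    Finite ((𝓞 L)ˣ ⧸ G3 hb hc w) ∧ Nat.card ((𝓞 L)ˣ ⧸ G3 hb hc w) ≤
      Ideal.absNorm w.asIdeal := by
  apply index_of_pigeon3
  intro u
  obtain ⟨i, j, hij, t, ht⟩ := unit_wild3 w h3 h3' u
  exact ⟨i, j, hij, Or.inl ⟨t, ht⟩⟩

end

/-- The places of the base field where the condition is imposed. -/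
def BadP {k : Type} [Field k] [NumberField k] (v : HeightOneSpectrum (𝓞 k)) (a b : 𝓞 k) : Prop :=
  BadAt (v.valuation k) (a : k) (b : k)

/-- Growth of the three-Selmer group. -/
theorem growth_arb3 {k L : Type} [Field k] [NumberField k] [Field L] [NumberField L] [Algebra k L]
    {a b : 𝓞 k} (hb0 : b ≠ 0) (hc0 : 9 * b + 4 * a ^ 3 ≠ 0)
    (S : Finset (HeightOneSpectrum (𝓞 k))) (hS3 : ∀ v ∈ S, (3 : 𝓞 k) ∈ v.asIdeal)
    (hS : ∀ v ∈ S, BadP v a b)
    (hunr : ∀ w : HeightOneSpectrum (𝓞 L), (3 : 𝓞 L) ∈ w.asIdeal → (3 : 𝓞 L) ∉ w.asIdeal ^ 2)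
    {V : WeierstrassCurve L} (h : Is3 V 1 (algebraMap k L a) (algebraMap k L b))
    (P : Finset V.toAffine.Point) (hP : ∀ X : V.toAffine.Point, ∃ p ∈ P, ∃ S, X = p + 3 • S)
    (T : Finset (Coch L V))
    (hT : ∀ f, IsCocycle L V f → IsLocTriv L V f → IsCobound L V (fun σ => 3 • f σ) →
      ∃ t ∈ T, IsCobound L V (fun σ => f σ - t σ)) :
    (∏ v ∈ S, Ideal.absNorm v.asIdeal) ^ Module.finrank k L * 3 ^ rank L ≤
      3 ^ Module.finrank ℚ L * (3 ^ {w : HeightOneSpectrum (𝓞 L) |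
        algebraMap (𝓞 k) (𝓞 L) (6 * b * (9 * b + 4 * a ^ 3)) ∈ w.asIdeal}.ncard *
          (3 * (P.card * T.card))) := by
  set a' : 𝓞 L := algebraMap (𝓞 k) (𝓞 L) a with ha'
  set b' : 𝓞 L := algebraMap (𝓞 k) (𝓞 L) b with hb'
  have hinj : Function.Injective (algebraMap (𝓞 k) (𝓞 L)) :=
    FaithfulSMul.algebraMap_injective (𝓞 k) (𝓞 L)
  have ea : algebraMap k L a = (a' : L) := rfl
  have eb : algebraMap k L b = (b' : L) := rfl
  have hb0' : b' ≠ 0 := by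
    rw [hb', Ne, map_eq_zero_iff _ hinj]
    exact hb0
  have ec : 9 * b' + 4 * a' ^ 3 = algebraMap (𝓞 k) (𝓞 L) (9 * b + 4 * a ^ 3) := by
    rw [map_add, map_mul, map_mul, map_pow, map_ofNat, map_ofNat]
  have hc0' : 9 * b' + 4 * a' ^ 3 ≠ 0 := by
    rw [ec, Ne, map_eq_zero_iff _ hinj]
    exact hc0
  have ez : algebraMap (𝓞 k) (𝓞 L) (6 * b * (9 * b + 4 * a ^ 3)) =
      6 * b' * (9 * b' + 4 * a' ^ 3) := by
    rw [map_mul, map_mul, ec, map_ofNat]
  rw [ez]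
  set z : 𝓞 L := 6 * b' * (9 * b' + 4 * a' ^ 3) with hzd
  have hz0 : z ≠ 0 := by
    rw [hzd]
    exact mul_ne_zero (mul_ne_zero (by norm_num) hb0') hc0'
  have hfin : {w : HeightOneSpectrum (𝓞 L) | z ∈ w.asIdeal}.Finite := by
    have h0 : Ideal.span {z} ≠ 0 := by
      rw [Ne, Ideal.zero_eq_bot, Ideal.span_singleton_eq_bot]
      exact hz0
    refine (Ideal.finite_factors h0).subset ?_
    intro w hw
    exact Ideal.dvd_span_singleton.mpr hw
  set B := hfin.toFinset with hB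
  have hmemB : ∀ w : HeightOneSpectrum (𝓞 L), w ∈ B ↔ z ∈ w.asIdeal := fun w => by
    rw [hB, Set.Finite.mem_toFinset]; rfl
  have hcardB : {w : HeightOneSpectrum (𝓞 L) | z ∈ w.asIdeal}.ncard = B.card :=
    Set.ncard_eq_toFinset_card _ hfin
  rw [hcardB]
  let G : HeightOneSpectrum (𝓞 L) → Subgroup (𝓞 L)ˣ := fun w => G3 hb0' hc0' w
  let Ov : HeightOneSpectrum (𝓞 L) → Prop := fun w =>
    ∃ v ∈ S, v.asIdeal.map (algebraMap (𝓞 k) (𝓞 L)) ≤ w.asIdeal
  let Q : HeightOneSpectrum (𝓞 L) → Prop := fun w => (3 : 𝓞 L) ∈ w.asIdeal ∧ ¬ Ov w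
  let N : HeightOneSpectrum (𝓞 L) → ℕ := fun w => if Q w then Ideal.absNorm w.asIdeal else 1
  have hN1 : ∀ w, 1 ≤ N w := by
    intro w
    change 1 ≤ if Q w then Ideal.absNorm w.asIdeal else 1
    split_ifs
    · rw [Nat.one_le_iff_ne_zero, Ne, Ideal.absNorm_eq_zero_iff]
      exact w.ne_bot
    · exact le_rfl
  have hsm : ∀ w : HeightOneSpectrum (𝓞 L), (3 : 𝓞 L) ∈ w.asIdeal → Ov w →
      BadAt (Valued.v : Valuation (w.adicCompletion L) (WithZero (Multiplicative ℤ)))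
        (ii w a') (ii w b') := by
    rintro w h3 ⟨v0, hv0, hw⟩
    have hbel : H73IS.below k w = v0 := by
      apply HeightOneSpectrum.ext
      have hm : v0.asIdeal.IsMaximal := v0.isMaximal
      refine (hm.eq_of_le (H73IS.below k w).isPrime.ne_top ?_).symm
      intro x hx
      rw [H73IS.mem_below]
      exact hw (Ideal.mem_map_of_mem _ hx)
    have hm := fun x => val_eq3 (k := k) w h3 (hunr w h3) x
    have va : Valued.v (ii w a') = v0.valuation k (a : k) := by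
      rw [ii_val, ← hbel]
      exact hm (a : k)
    have vb : Valued.v (ii w b') = v0.valuation k (b : k) := by
      rw [ii_val, ← hbel]
      exact hm (b : k)
    obtain ⟨i, g1, g2⟩ := hS v0 hv0
    refine ⟨i, ?_, ?_⟩
    · rw [va]; exact g1
    · rw [vb]; exact g2
  have hG : ∀ w, Finite ((𝓞 L)ˣ ⧸ G w) ∧ Nat.card ((𝓞 L)ˣ ⧸ G w) ≤ 3 * N w := by
    intro w
    by_cases hQ : Q w
    · obtain ⟨f1, f2⟩ := index_norm3 hb0' hc0' w hQ.1 (hunr w hQ.1)
      refine ⟨f1, f2.trans ?_⟩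
      have : N w = Ideal.absNorm w.asIdeal := if_pos hQ
      rw [this]
      omega
    · obtain ⟨f1, f2⟩ := index_three_le hb0' hc0' w (by
        intro h3
        refine ⟨hunr w h3, hsm w h3 ?_⟩
        by_contra hov
        exact hQ ⟨h3, hov⟩)
      refine ⟨f1, f2.trans ?_⟩
      have := hN1 w
      omega
  haveI : ∀ w : B, Finite ((𝓞 L)ˣ ⧸ G w.1) := fun w => (hG w.1).1
  haveI : Fintype ((w : B) → ((𝓞 L)ˣ ⧸ G w.1)) := Fintype.ofFinite _
  let φ : (𝓞 L)ˣ → ((w : B) → ((𝓞 L)ˣ ⧸ G w.1)) := fun u w => (u : (𝓞 L)ˣ ⧸ G w.1)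
  have hne : ∀ u : (𝓞 L)ˣ, ((u : 𝓞 L) : L) ≠ 0 := by
    intro u h0
    have : (u : 𝓞 L) = 0 := by exact_mod_cast h0
    exact u.ne_zero this
  have hfib : ∀ q ∈ Finset.univ.image (fun i => φ (u3 L i)),
      (Finset.univ.filter fun i => φ (u3 L i) = q).card ≤ 3 * (P.card * T.card) := by
    intro q hq
    rw [Finset.mem_image] at hq
    obtain ⟨i₀, -, hi₀⟩ := hq
    have hsame : ∀ i, φ (u3 L i) = q → ∀ w ∈ B, u3 L i / u3 L i₀ ∈ G w := by
      intro i hi w hw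
      have e1 : (u3 L i₀ : (𝓞 L)ˣ ⧸ G w) = u3 L i := by
        have e2 := congrFun (hi₀.trans hi.symm) ⟨w, hw⟩
        exact e2
      rw [QuotientGroup.eq] at e1
      rw [div_eq_mul_inv, mul_comm]
      exact e1
    have hc := count_classes3 h (ι := {i // φ (u3 L i) = q})
      (fun i => (((u3 L i.1 / u3 L i₀ : (𝓞 L)ˣ) : 𝓞 L) : L)) (fun i => hne _)
      (by
        intro i w
        rw [map_one, map_add, map_mul, map_mul, map_pow, map_ofNat, map_ofNat, ea, eb]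
        by_cases hw : w ∈ B
        · exact (mem_G3 hb0' hc0' w _).mp (hsame i.1 i.2 w hw)
        · rw [hmemB] at hw
          exact unit_good3 w hw _)
      (by
        rintro i j ⟨t, ht⟩
        have e1 : ((((u3 L i.1 / u3 L i₀) / (u3 L j.1 / u3 L i₀) : (𝓞 L)ˣ) : 𝓞 L) : L) =
            t ^ 3 := by
          rw [← ht, eq_div_iff (hne _), ← map_mul, ← Units.val_mul, div_mul_cancel]
        obtain ⟨x, hx⟩ := cube_unit e1
        apply Subtype.ext
        apply u3_inj (x := x)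
        rw [← hx, div_div_div_cancel_right, mul_div_cancel])
      P hP T hT
    rw [← Fintype.card_subtype]
    exact hc
  have h1 := Finset.card_le_mul_card_image (f := fun i => φ (u3 L i)) Finset.univ
    (3 * (P.card * T.card)) hfib
  have hcu : Fintype.card (Fin (rank L) → Fin 3) = 3 ^ rank L := by
    rw [Fintype.card_fun, Fintype.card_fin, Fintype.card_fin]
  rw [Finset.card_univ, hcu] at h1
  have h2 : (Finset.univ.image (fun i => φ (u3 L i))).card ≤ 3 ^ B.card * ∏ w ∈ B, N w := by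
    refine (Finset.card_le_univ _).trans ?_
    rw [← Nat.card_eq_fintype_card, Nat.card_pi]
    have h3 : ∏ w : B, Nat.card ((𝓞 L)ˣ ⧸ G w.1) ≤ ∏ w : B, 3 * N w.1 :=
      Finset.prod_le_prod' fun w _ => (hG w.1).2
    refine h3.trans (le_of_eq ?_)
    rw [Finset.prod_mul_distrib, Finset.prod_const, Finset.card_univ, Fintype.card_coe,
      Finset.prod_coe_sort B N]
  have h4 : ∏ w ∈ B, N w = ∏ w ∈ B.filter Q, Ideal.absNorm w.asIdeal := by
    rw [Finset.prod_filter]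
  have h5 := norm_le_fin3 (K := k) (L := L) S hS3 (B.filter Q)
    (fun w hw => (Finset.mem_filter.mp hw).2.1)
    (fun w hw v hv hle => (Finset.mem_filter.mp hw).2.2 ⟨v, hv, hle⟩)
  rw [← h4] at h5
  calc (∏ v ∈ S, Ideal.absNorm v.asIdeal) ^ Module.finrank k L * 3 ^ rank L
      ≤ (∏ v ∈ S, Ideal.absNorm v.asIdeal) ^ Module.finrank k L *
        (3 * (P.card * T.card) * (3 ^ B.card * ∏ w ∈ B, N w)) :=
        Nat.mul_le_mul_left _ (h1.trans (Nat.mul_le_mul_left _ h2))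
    _ = ((∏ v ∈ S, Ideal.absNorm v.asIdeal) ^ Module.finrank k L * ∏ w ∈ B, N w) *
        (3 ^ B.card * (3 * (P.card * T.card))) := by ring
    _ ≤ _ := Nat.mul_le_mul_right _ h5

end H86T3
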