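import Mathlib

/-!
Row Ix3 (about 100 lines).

PROOF. `ψ : k → k, x ↦ A x + B x^3` is additive (`CharP k 3`: `add_pow_char` / `add_pow_char_of_commute`, frobenius). Its kernel has at most three elements (roots of the non zero polynomial `B X^3 + A X` of degree `≤ 3`; `Polynomial.card_roots'`), so the range has index at most three in `k`:
 `|range| * |ker| = |k|`, `|k / range| = |ker| ≤ 3` (compare index_range_le, card_ker_le in Pool/Agent/H10/GrTwoB.lean: same statements in characteristic two; copy). The preimage `S := M.comap ψ` contains all `x` with `1 + Γ x ≠ 0`, that is all elements except at most one (if `Γ = 0` all; otherwise `x ≠ -1/Γ`).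
 `S = ⊤`: otherwise a proper subgroup `S` of `(k,+)`: take `y ∉ S` (so `y` is the only element outside `S`); `y + x ∉ S` for `x ∈ S`, `x = 0` and any other `x ∈ S`, `x ≠ 0` (exists as `|k| ≥ 3`: `1` or `-1` is in `S` or so): contradiction. So `range ψ ≤ M`, `M` has index at most three (Subgroup.index_antitone / card of the quotient),
 and of four elements two are congruent modulo `M` (pigeonhole `Fintype.exists_ne_map_eq_of_card_lt` for `Fin 4 → k ⧸ M`; `QuotientAddGroup.eq`).
-/

set_option autoImplicit false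

namespace H86T3

open Polynomial

private lemma Ix3_index_range_le {k : Type*} [Field k] [Finite k] {φ : k →+ k} {n : ℕ}
    (h : Nat.card φ.ker ≤ n) : φ.range.index ≤ n := by
  have h1 : Nat.card φ.ker * φ.ker.index = Nat.card k := AddSubgroup.card_mul_index _
  have h2 : φ.ker.index = Nat.card φ.range := AddSubgroup.index_ker φ
  have h3 : Nat.card φ.range * φ.range.index = Nat.card k := AddSubgroup.card_mul_index _
  rw [h2, ← h3, mul_comm] at h1
  have h5 : 0 < Nat.card φ.range := Nat.card_pos
  have h6 := Nat.eq_of_mul_eq_mul_left h5 h1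
  omega

private lemma Ix3_card_ker_le {k : Type*} [Field k] {φ : k →+ k} {p : k[X]} (hp : p ≠ 0) {n : ℕ}
    (hn : p.natDegree ≤ n) (h : ∀ x, φ x = 0 → p.IsRoot x) : Nat.card φ.ker ≤ n := by
  classical
  have h1 : (φ.ker : Set k) ⊆ (p.roots.toFinset : Set k) := by
    intro x hx
    rw [Finset.mem_coe, Multiset.mem_toFinset, mem_roots hp]
    exact h x hx
  have h2 : Nat.card φ.ker ≤ p.roots.toFinset.card := by
    have := Nat.card_mono (Finset.finite_toSet _) h1
    rwa [Nat.card_coe_set_eq, Nat.card_coe_set_eq, Set.ncard_coe_finset] at this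
  exact h2.trans ((Multiset.toFinset_card_le _).trans ((card_roots' p).trans hn))

/-- The map `x ↦ A x + B x ^ 3`. -/
private def Ix3_psi {k : Type*} [Field k] [CharP k 3] (A B : k) : k →+ k where
  toFun x := A * x + B * x ^ 3
  map_zero' := by simp
  map_add' x y := by
    have h3 : (3 : k) = 0 := by exact_mod_cast CharP.cast_eq_zero k 3
    linear_combination (x ^ 2 * y + x * y ^ 2) * B * h3

private lemma Ix3_psi_apply {k : Type*} [Field k] [CharP k 3] (A B x : k) :
    Ix3_psi A B x = A * x + B * x ^ 3 := rfl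

private lemma Ix3_psi_index {k : Type*} [Field k] [Finite k] [CharP k 3] {A B : k}
    (hAB : A ≠ 0 ∨ B ≠ 0) : (Ix3_psi A B).range.index ≤ 3 := by
  apply Ix3_index_range_le
  have hc1 : (C A * X + C B * X ^ 3 : k[X]).coeff 1 = A := by
    simp
  have hc3 : (C A * X + C B * X ^ 3 : k[X]).coeff 3 = B := by
    simp
  have hdeg : (C A * X + C B * X ^ 3 : k[X]).natDegree ≤ 3 := by compute_degree
  refine Ix3_card_ker_le (p := C A * X + C B * X ^ 3) ?_ hdeg ?_
  · intro h
    rw [h, coeff_zero] at hc1 hc3
    rcases hAB with h1 | h1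
    · exact h1 hc1.symm
    · exact h1 hc3.symm
  · intro x hx
    rw [Ix3_psi_apply] at hx
    simp only [IsRoot, eval_add, eval_mul, eval_pow, eval_X, eval_C]
    exact hx

theorem index_three {k : Type*} [Field k] [Finite k] [CharP k 3] (M : AddSubgroup k) {A B Γ : k}
    (hAB : A ≠ 0 ∨ B ≠ 0) (hM : ∀ x, 1 + Γ * x ≠ 0 → A * x + B * x ^ 3 ∈ M) (h : Fin 4 → k) :
    ∃ i j, i ≠ j ∧ h i - h j ∈ M := by
  classical
  have h2 : (2 : k) ≠ 0 := by
    intro h0
    have h3 : (3 : k) = 0 := by exact_mod_cast CharP.cast_eq_zero k 3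
    have h1 : (1 : k) = 0 := by linear_combination h3 - h0
    exact one_ne_zero h1
  have hall : ∀ x : k, A * x + B * x ^ 3 ∈ M := by
    intro x
    by_contra hx
    have h3 : 1 + Γ * x = 0 := by
      by_contra h4
      exact hx (hM x h4)
    have h5 : 1 + Γ * (-x) = 0 := by
      by_contra h4
      apply hx
      have h6 := M.neg_mem (hM (-x) h4)
      have h7 : -(A * -x + B * (-x) ^ 3) = A * x + B * x ^ 3 := by ring
      rwa [h7] at h6
    exact h2 (by linear_combination h3 + h5)
  have hle : (Ix3_psi A B).range ≤ M := by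
    rintro _ ⟨x, rfl⟩
    exact hall x
  have hidx : M.index ≤ 3 := (AddSubgroup.index_antitone hle).trans (Ix3_psi_index hAB)
  have := Fintype.ofFinite (k ⧸ M)
  have hcard : Fintype.card (k ⧸ M) < Fintype.card (Fin 4) := by
    rw [Fintype.card_fin, ← Nat.card_eq_fintype_card]
    have : Nat.card (k ⧸ M) = M.index := rfl
    omega
  obtain ⟨i, j, hij, he⟩ := Fintype.exists_ne_map_eq_of_card_lt (fun i : Fin 4 => (h i : k ⧸ M)) hcard
  refine ⟨j, i, hij.symm, ?_⟩
  have h4 := (QuotientAddGroup.eq).mp he
  rwa [neg_add_eq_sub] at h4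

end H86T3
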