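import Pool.Agent.H86.T3G.Hen
import Pool.Agent.H10.GrTwoB

/-!
Row Kap (about 150 lines): units modulo nine and cubes. (Models: exists_kappa, charP_two in Pool/Agent/H10/GrTwoB.lean.)

`V 3 = exp (-1)`, `ρ : V.integer →+* k` surjective with kernel the maximal ideal, `k` finite.
PROOF of charP_three: `ρ 3 = 0` as `V 3 < 1`; `(3 : k) = 0` and `k` is a field: CharP k 3.
PROOF of exists_cbrt: `k` is perfect of characteristic 3: every element of `k` is a cube (frobenius is bijective on a finite field: `frobenius_bijective`/`PerfectRing`, or injective + finite). Take `z` integral with `ρ z ^ 3 = ρ u`; `V (u - z^3) < 1`, so `u - z^3 = 3 m` with `V m ≤ 1`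
 (values: `V (u - z^3) ≤ exp (-1) = V 3`, lt_one_le_exp in H10/GrHen.lean).
PROOF of exists_h: from exists_cbrt `z` is a unit (`V u = 1`), `u = z^3 + 3 m = z^3 (1 + 3 (m / z^3))`.
PROOF of cube_of_congr (two units with the same `h` modulo the maximal ideal): `u = z^3 (1 + 3 h)`, `u' = z'^3 (1 + 3 h')`, `V (h - h') < 1`: `u / u' = (z/z')^3 (1 + 3 h) / (1 + 3 h') = (z / z')^3 (1 + 3 (h - h') / (1 + 3 h'))` and `V (3 (h - h') / (1 + 3h')) ≤ exp (-2)`: cube_wild.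
PROOF of cube_pigeon_wild: more than `|k|` units: two have `ρ h` equal: cube_of_congr.
PROOF of cube_pigeon_tame: `V 3 = 1`. Units `u i`, `ρ (u i) ∈ kˣ`; the quotient of `kˣ` (cyclic) by the cubes has at most three elements: so among four two have `ρ (u i) = ρ (u j) s^3`; lift `s` to an integral `t` (a unit), `u i = u j t^3 (1 + x)` with `V x < 1`: cube_tame.
 (Finite cyclic group: index of the cubes is `gcd 3 |G| ≤ 3`; or: `g` a generator, `u i = g^(n i)`, two of the four exponents are congruent modulo 3: pigeonhole.)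
-/

set_option autoImplicit false

open WithZero

namespace H86T3

variable {F : Type*} [Field F] {V : Valuation F (WithZero (Multiplicative ℤ))} {k : Type*}
  [Field k] {ρ : V.integer →+* k}

theorem charP_three (h3 : V 3 = exp (-1 : ℤ)) (hρ : ∀ x : V.integer, ρ x = 0 ↔ V x < 1) :
    CharP k 3 := by
  have h : ρ 3 = 0 := by
    rw [hρ]
    have h1 : (((3 : V.integer) : F)) = 3 := rfl
    rw [h1, h3]
    exact Pool.Agent.H10.exp_neg_lt_one
  rw [map_ofNat] at h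
  rw [CharP.charP_iff_prime_eq_zero Nat.prime_three]
  exact_mod_cast h

lemma Kap_three_ne (h3 : V 3 = exp (-1 : ℤ)) : (3 : F) ≠ 0 := by
  intro h
  rw [h, map_zero] at h3
  exact exp_ne_zero h3.symm

lemma Kap_three_mul (h3 : V 3 = exp (-1 : ℤ)) {m : F} (hm : V m ≤ 1) : V (3 * m) < 1 := by
  rw [map_mul, h3]
  exact (mul_le_of_le_one_right' hm).trans_lt Pool.Agent.H10.exp_neg_lt_one

theorem exists_cbrt [Finite k] (h3 : V 3 = exp (-1 : ℤ)) (hρs : Function.Surjective ρ)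
    (hρ : ∀ x : V.integer, ρ x = 0 ↔ V x < 1) {u : F} (hu : V u ≤ 1) :
    ∃ z m : F, V z ≤ 1 ∧ V m ≤ 1 ∧ u = z ^ 3 + 3 * m := by
  have hch := charP_three h3 hρ
  have hp : Fact (Nat.Prime 3) := ⟨Nat.prime_three⟩
  have h30 := Kap_three_ne h3
  obtain ⟨U, hU⟩ : ∃ U : V.integer, (U : F) = u := ⟨⟨u, hu⟩, rfl⟩
  obtain ⟨r, hr⟩ := surjective_frobenius k 3 (ρ U)
  obtain ⟨z, rfl⟩ := hρs r
  have h1 : V ((U - z ^ 3 : V.integer) : F) < 1 := by
    rw [← hρ, map_sub, map_pow, ← hr, frobenius_def, sub_self]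
  have h2 : V (u - (z : F) ^ 3) < 1 := by
    rw [← hU]
    exact h1
  refine ⟨z, (u - (z : F) ^ 3) / 3, z.2, ?_, ?_⟩
  · rw [map_div₀, h3, div_le_one₀ (zero_lt_iff.mpr exp_ne_zero)]
    exact Pool.Agent.H10.le_exp_neg_one h2
  · field_simp
    ring

theorem exists_h [Finite k] (h3 : V 3 = exp (-1 : ℤ)) (hρs : Function.Surjective ρ)
    (hρ : ∀ x : V.integer, ρ x = 0 ↔ V x < 1) {u : F} (hu : V u = 1) :
    ∃ z h : F, V z = 1 ∧ V h ≤ 1 ∧ u = z ^ 3 * (1 + 3 * h) := by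
  obtain ⟨z, m, hz, hm, e⟩ := exists_cbrt h3 hρs hρ hu.le
  have hz1 : V z = 1 := by
    refine le_antisymm hz (not_lt.mp fun h => ?_)
    have h1 : V (z ^ 3 + 3 * m) < 1 := Valuation.map_add_lt V
      (Pool.Agent.H10.V_pow_lt h (by norm_num)) (Kap_three_mul h3 hm)
    rw [← e, hu] at h1
    exact absurd h1 (lt_irrefl _)
  have hz0 := Pool.Agent.H10.ne_zero_of_V hz1
  refine ⟨z, m / z ^ 3, hz1, ?_, ?_⟩
  · rw [map_div₀, map_pow, hz1, one_pow, div_one]
    exact hm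
  · rw [e]
    field_simp

lemma Kap_pow {t : F} (h : V t ^ 3 = 1) : V t = 1 := by
  rcases lt_trichotomy (V t) 1 with h1 | h1 | h1
  · have := pow_lt_one₀ zero_le h1 (n := 3) (by norm_num)
    rw [h] at this
    exact absurd this (lt_irrefl _)
  · exact h1
  · have := one_lt_pow₀ h1 (n := 3) (by norm_num)
    rw [h] at this
    exact absurd this (lt_irrefl _)

lemma Kap_unit {x : F} (hx : V x < 1) : V (1 + x) = 1 := by
  have h := Valuation.map_add_eq_of_lt_left V (x := 1) (y := x) (by rw [map_one]; exact hx)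
  rw [h, map_one]

theorem cube_of_congr (hV : Hens3 V) (h3 : V 3 = exp (-1 : ℤ)) {h h' : F} (hh : V h ≤ 1)
    (hh' : V h' ≤ 1) (hd : V (h - h') < 1) : ∃ t, V t = 1 ∧ (1 + 3 * h) = t ^ 3 * (1 + 3 * h') := by
  have hu' : V (1 + 3 * h') = 1 := Kap_unit (Kap_three_mul h3 hh')
  have hu'0 := Pool.Agent.H10.ne_zero_of_V hu'
  obtain ⟨x, hx⟩ : ∃ x : F, x = 3 * (h - h') / (1 + 3 * h') := ⟨_, rfl⟩
  have hxv : V x ≤ exp (-2 : ℤ) := by
    rw [hx, map_div₀, hu', div_one, map_mul, h3]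
    have h5 : (exp (-2 : ℤ) : WithZero (Multiplicative ℤ)) = exp (-1 : ℤ) * exp (-1 : ℤ) := by
      rw [← exp_add]
      norm_num
    rw [h5]
    exact mul_le_mul' le_rfl (Pool.Agent.H10.le_exp_neg_one hd)
  obtain ⟨t, ht⟩ := cube_wild hV h3 hxv
  have hx1 : V x < 1 := hxv.trans_lt (by rw [← exp_zero, exp_lt_exp]; norm_num)
  refine ⟨t, ?_, ?_⟩
  · apply Kap_pow
    rw [← map_pow, ← ht]
    exact Kap_unit hx1
  · rw [← ht, hx]
    field_simp
    ring

theorem cube_pigeon_wild [Finite k] (hV : Hens3 V) (h3 : V 3 = exp (-1 : ℤ))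
    (hρs : Function.Surjective ρ) (hρ : ∀ x : V.integer, ρ x = 0 ↔ V x < 1) {ι : Type*}
    [Fintype ι] (hι : Nat.card k < Fintype.card ι) (u : ι → F) (hu : ∀ i, V (u i) = 1) :
    ∃ i j, i ≠ j ∧ ∃ t, u i / u j = t ^ 3 := by
  classical
  choose z h hz hh e using fun i => exists_h h3 hρs hρ (hu i)
  have := Fintype.ofFinite k
  rw [Nat.card_eq_fintype_card] at hι
  obtain ⟨i, j, hij, hρij⟩ := Fintype.exists_ne_map_eq_of_card_lt
    (fun i => ρ (⟨h i, hh i⟩ : V.integer)) hι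
  have h1 : V ((⟨h i, hh i⟩ - ⟨h j, hh j⟩ : V.integer) : F) < 1 := by
    rw [← hρ, map_sub, sub_eq_zero]
    exact hρij
  have h2 : V (h i - h j) < 1 := h1
  obtain ⟨t, ht1, ht⟩ := cube_of_congr hV h3 (hh i) (hh j) h2
  refine ⟨i, j, hij, z i * t / z j, ?_⟩
  have hzj := Pool.Agent.H10.ne_zero_of_V (hz j)
  have huj := Pool.Agent.H10.ne_zero_of_V (hu j)
  have h4 : (1 + 3 * h j) ≠ 0 := by
    intro h5
    apply huj
    rw [e j, h5, mul_zero]
  rw [e i, e j, ht]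
  field_simp

theorem cube_pigeon_tame [Finite k] (hV : Hens3 V) (h3 : V 3 = 1)
    (hρs : Function.Surjective ρ) (hρ : ∀ x : V.integer, ρ x = 0 ↔ V x < 1)
    (u : Fin 4 → F) (hu : ∀ i, V (u i) = 1) :
    ∃ i j, i ≠ j ∧ ∃ t, u i / u j = t ^ 3 := by
  classical
  have hne : ∀ i, ρ (⟨u i, (hu i).le⟩ : V.integer) ≠ 0 := by
    intro i hi
    have h1 := (hρ _).mp hi
    exact absurd (hu i) h1.ne
  obtain ⟨g, hg⟩ := IsCyclic.exists_generator (α := kˣ)
  choose n hn using fun i => Subgroup.mem_zpowers_iff.1 (hg (Units.mk0 _ (hne i)))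
  obtain ⟨i, j, hij, hnij⟩ := Fintype.exists_ne_map_eq_of_card_lt
    (fun i : Fin 4 => ((n i : ℤ) : ZMod 3)) (by simp)
  have h1 : (3 : ℤ) ∣ n i - n j := by
    have h2 : ((n i - n j : ℤ) : ZMod 3) = 0 := by
      rw [Int.cast_sub, sub_eq_zero]
      exact hnij
    exact_mod_cast (ZMod.intCast_zmod_eq_zero_iff_dvd _ 3).1 h2
  obtain ⟨m, hm⟩ := h1
  have h2 : (Units.mk0 _ (hne i)) = (Units.mk0 _ (hne j)) * (g ^ m) ^ 3 := by
    rw [← hn i, ← hn j, ← zpow_natCast, ← zpow_mul, ← zpow_add]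
    congr 1
    push_cast
    linarith
  have h3' := congrArg Units.val h2
  rw [Units.val_mul, Units.val_pow_eq_pow_val, Units.val_mk0, Units.val_mk0] at h3'
  obtain ⟨t, ht⟩ := hρs ((g ^ m : kˣ) : k)
  have ht1 : V t = 1 := Pool.Agent.H10.val_one_of_res hρ (by rw [ht]; exact Units.ne_zero _)
  have ht0 := Pool.Agent.H10.ne_zero_of_V ht1
  have huj0 := Pool.Agent.H10.ne_zero_of_V (hu j)
  have h4 : V ((⟨u i, (hu i).le⟩ - ⟨u j, (hu j).le⟩ * t ^ 3 : V.integer) : F) < 1 := by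
    rw [← hρ, map_sub, map_mul, map_pow, ht, h3', sub_self]
  have h5 : V (u i - u j * (t : F) ^ 3) < 1 := h4
  obtain ⟨x, hx⟩ : ∃ x : F, x = (u i - u j * (t : F) ^ 3) / (u j * (t : F) ^ 3) := ⟨_, rfl⟩
  have hxv : V x < 1 := by
    rw [hx, map_div₀, map_mul, map_pow, hu j, ht1, one_pow, mul_one, div_one]
    exact h5
  obtain ⟨w, hw⟩ := cube_tame hV h3 hxv
  refine ⟨i, j, hij, t * w, ?_⟩
  rw [mul_pow, ← hw, hx]
  field_simp
  ring

end H86T3
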