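import Mathlib

/-!
Row Nrm3 (about 90 lines): norms of the primes above three. PROOF: copy Pool/Agent/H86/IK/Nrf.lean (norm_le_fin) or Pool/Agent/H86/IK/Nrm.lean (norm_le) with `2` replaced by the prime `3` (adapt `hv : 3 ≤ absNorm v0`: the norm is `≥ 2` and a power of three: e.g. `absNorm v0 ∣ 3 ^ n` (`v0 ∣ (3)`, `Ideal.absNorm_dvd_absNorm_of_le`, norm of `(3)` is `3 ^ n`) so
`absNorm v0 = 3 ^ j` with `j ≥ 1` (`Nat.dvd_prime_pow`)).
-/

set_option autoImplicit false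

open NumberField IsDedekindDomain

namespace H86T3

theorem norm_le3 {K L : Type} [Field K] [NumberField K] [Field L] [NumberField L] [Algebra K L]
    (v0 : HeightOneSpectrum (𝓞 K)) (h3 : (3 : 𝓞 K) ∈ v0.asIdeal)
    (S : Finset (HeightOneSpectrum (𝓞 L))) (hS3 : ∀ w ∈ S, (3 : 𝓞 L) ∈ w.asIdeal)
    (hS0 : ∀ w ∈ S, ¬ v0.asIdeal.map (algebraMap (𝓞 K) (𝓞 L)) ≤ w.asIdeal) :
    3 ^ Module.finrank K L * ∏ w ∈ S, Ideal.absNorm w.asIdeal ≤ 3 ^ Module.finrank ℚ L := by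
  sorry

end H86T3
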