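import Pool.Agent.H86.T3G.Df

/-!
Row Ps3 (about 170 lines): explicit local solutions above three.

PROOF. Everything integral; `V 3 = exp (-1)`, so `V 2 = 1` (`2 = 3 - 1`), `3 ≠ 0`. Put `w := 1 + Γ x` (unit), `c := Γ^3 + 3 β`, `h := (a - Γ) x + (β - Γ^2 a) x^3`, `d := 1 + 3 h` (unit), `G T S := d^2 - T^3 - 6 a d T S - 2 c d S^3`. If `G T S = 0` for some `T, S` then LocSol: if `S = 0` then `d^2 = T^3`,
 `T ≠ 0`, `d = (d / T)^3` ; if `S ≠ 0` take `v = 1 / S`, `U = T / S`: `d^2 v^3 - U^3 = d * 1 * (6 a U v + 2 c)`.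
 Start: `T0 := (1 + 2 Γ x) / w`, `S0 := x / w`. Then `G T0 S0 * w^3 = 9 * N` with an explicit integral `N` (polynomial identity: expand `(1 + 3h)^2 w^3 - (1 + 2 Γ x)^3 - 6 a (1 + 3h)(1 + 2 Γ x) x w - 2 (Γ^3 + 3 β)(1 + 3h) x^3`; modulo 9 it is
 `6 (h - (a - Γ) x - (β - Γ^2 a) x^3) = 0`. Find `N` by computer algebra or by hand; the identity is checked by `ring`; integrality of `N`: it is a polynomial with integer coefficients in `a, Γ, β, x, h`). So `g0 := G T0 S0 / 9` is integral.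
 Let `δ := Γ - a`, `N1 := 1 + δ x (1 + Γ x)`, `N2 := a + δ Γ^2 x^2`. Not both `V N1 < 1` and `V N2 < 1`: `x N2 = 1 - (1 - Γ x) * (1 + δ x (1 + Γ x))` .. check: `x N2 = a x + δ Γ^2 x^3` and `1 - (1 - Γ x) N1 = Γ x - δ x (1 - Γ^2 x^2) = (Γ - δ) x + δ Γ^2 x^3 = x N2`. So `V N1 < 1` gives `V (x N2) = 1`, so `V N2 = 1`.
 Case `V N1 = 1`: look for `T = T0 + 3 y`, `S = S0`: `G (T0 + 3 y) S0 = 9 (g0 - (T0^2 + 2 a d S0) y - 3 T0 y^2 - 3 y^3)`. `M := T0^2 + 2 a d S0` is a unit: `w^2 M = (1 + 2 Γ x)^2 + 2 a d x w = N1 + 3 (..)` (integral (..); `d = 1 + 3 h`; `(1 + 2 Γ x)^2 + 2 a x (1 + Γ x) - N1 = 3 Γ x + 3 Γ^2 x^2 + 3 a x (1 + Γ x)`).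
  Substitute `y = y0 + z`, `y0 := g0 / M`: `g0 - M y - 3 T0 y^2 - 3 y^3 = (-3 T0 y0^2 - 3 y0^3) + (-M - 6 T0 y0 - 9 y0^2) z + (-3 T0 - 9 y0) z^2 - 3 z^3`: Hens3.
 Case `V N2 = 1`: `T = T0`, `S = S0 + 3 z`: `G T0 (S0 + 3 z) = 9 (g0 - (2 a d T0 + 2 c d S0^2) z - 6 c d S0 z^2 - 6 c d z^3)`, `M' := 2 a d T0 + 2 c d S0^2` is a unit: `w^2 M' = 2 N2 + 3 (..)` (`a (1 + 2 Γ x)(1 + Γ x) + Γ^3 x^2 = a + 3 a Γ x + 2 a Γ^2 x^2 + Γ^3 x^2 = N2 + 3 a Γ x + 3 a Γ^2 x^2`), same substitution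
  `z = z0 + t`, `z0 := g0 / M'`.
 Write one auxiliary lemma: `hens_aff`: for integral `g0, q2, q3` and a unit `M` there is `y` with `g0 - M y - 3 q2 y^2 - 3 q3 y^3 = 0`.
-/

/-!
Row Ps3 (about 170 lines): explicit local solutions above three.

PROOF. Everything integral; `V 3 = exp (-1)`, so `V 2 = 1` (`2 = 3 - 1`), `3 ≠ 0`. Put `w := 1 + Γ x` (unit), `c := Γ^3 + 3 β`, `h := (a - Γ) x + (β - Γ^2 a) x^3`, `d := 1 + 3 h` (unit), `G T S := d^2 - T^3 - 6 a d T S - 2 c d S^3`. If `G T S = 0` for some `T, S` then LocSol: if `S = 0` then `d^2 = T^3`,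
 `T ≠ 0`, `d = (d / T)^3` ; if `S ≠ 0` take `v = 1 / S`, `U = T / S`: `d^2 v^3 - U^3 = d * 1 * (6 a U v + 2 c)`.
 Start: `T0 := (1 + 2 Γ x) / w`, `S0 := x / w`. Then `G T0 S0 * w^3 = 9 * N` with an explicit integral `N` (polynomial identity: expand `(1 + 3h)^2 w^3 - (1 + 2 Γ x)^3 - 6 a (1 + 3h)(1 + 2 Γ x) x w - 2 (Γ^3 + 3 β)(1 + 3h) x^3`; modulo 9 it is
 `6 (h - (a - Γ) x - (β - Γ^2 a) x^3) = 0`. Find `N` by computer algebra or by hand; the identity is checked by `ring`; integrality of `N`: it is a polynomial with integer coefficients in `a, Γ, β, x, h`). So `g0 := G T0 S0 / 9` is integral.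
 Let `δ := Γ - a`, `N1 := 1 + δ x (1 + Γ x)`, `N2 := a + δ Γ^2 x^2`. Not both `V N1 < 1` and `V N2 < 1`: `x N2 = 1 - (1 - Γ x) * (1 + δ x (1 + Γ x))` .. check: `x N2 = a x + δ Γ^2 x^3` and `1 - (1 - Γ x) N1 = Γ x - δ x (1 - Γ^2 x^2) = (Γ - δ) x + δ Γ^2 x^3 = x N2`. So `V N1 < 1` gives `V (x N2) = 1`, so `V N2 = 1`.
 Case `V N1 = 1`: look for `T = T0 + 3 y`, `S = S0`: `G (T0 + 3 y) S0 = 9 (g0 - (T0^2 + 2 a d S0) y - 3 T0 y^2 - 3 y^3)`. `M := T0^2 + 2 a d S0` is a unit: `w^2 M = (1 + 2 Γ x)^2 + 2 a d x w = N1 + 3 (..)` (integral (..); `d = 1 + 3 h`; `(1 + 2 Γ x)^2 + 2 a x (1 + Γ x) - N1 = 3 Γ x + 3 Γ^2 x^2 + 3 a x (1 + Γ x)`).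
  Substitute `y = y0 + z`, `y0 := g0 / M`: `g0 - M y - 3 T0 y^2 - 3 y^3 = (-3 T0 y0^2 - 3 y0^3) + (-M - 6 T0 y0 - 9 y0^2) z + (-3 T0 - 9 y0) z^2 - 3 z^3`: Hens3.
 Case `V N2 = 1`: `T = T0`, `S = S0 + 3 z`: `G T0 (S0 + 3 z) = 9 (g0 - (2 a d T0 + 2 c d S0^2) z - 6 c d S0 z^2 - 6 c d z^3)`, `M' := 2 a d T0 + 2 c d S0^2` is a unit: `w^2 M' = 2 N2 + 3 (..)` (`a (1 + 2 Γ x)(1 + Γ x) + Γ^3 x^2 = a + 3 a Γ x + 2 a Γ^2 x^2 + Γ^3 x^2 = N2 + 3 a Γ x + 3 a Γ^2 x^2`), same substitution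
  `z = z0 + t`, `z0 := g0 / M'`.
 Write one auxiliary lemma: `hens_aff`: for integral `g0, q2, q3` and a unit `M` there is `y` with `g0 - M y - 3 q2 y^2 - 3 q3 y^3 = 0`.
-/

set_option autoImplicit false

open WithZero H55T3

namespace H86T3

section Ps3
variable {F : Type*} [Field F] {V : Valuation F (WithZero (Multiplicative ℤ))}

private theorem Ps3_lt (h3 : V 3 = exp (-1 : ℤ)) {t : F} (ht : V t ≤ 1) : V (3 * t) < 1 := by
  have h1 : exp (-1 : ℤ) < (1 : WithZero (Multiplicative ℤ)) := by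
    rw [← exp_zero]
    exact exp_lt_exp.2 (by norm_num)
  rw [map_mul, h3]
  exact (mul_le_of_le_one_right' ht).trans_lt h1

private theorem Ps3_unit (h3 : V 3 = exp (-1 : ℤ)) {M t : F} (hM : V M = 1) (ht : V t ≤ 1) :
    V (M + 3 * t) = 1 := by
  rw [V.map_add_eq_of_lt_left (by rw [hM]; exact Ps3_lt h3 ht), hM]

private theorem Ps3_inv {M : F} (hM : V M = 1) : V M⁻¹ = 1 := by
  rw [map_inv₀, hM, inv_one]

private theorem Ps3_int (t : V.integer) {s : F} (h : (t : F) = s) : V s ≤ 1 := by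
  rw [← h]
  exact t.2

private theorem Ps3_ne {M : F} (hM : V M = 1) : M ≠ 0 := by
  rintro rfl
  rw [map_zero] at hM
  exact zero_ne_one hM

private theorem Ps3_aff (hV : Hens3 V) (h3 : V 3 = exp (-1 : ℤ)) {g0 M q2 q3 : F} (h0 : V g0 ≤ 1)
    (hM : V M = 1) (h2 : V q2 ≤ 1) (hq3 : V q3 ≤ 1) :
    ∃ y : F, g0 - M * y - 3 * q2 * y ^ 2 - 3 * q3 * y ^ 3 = 0 := by
  have hM0 := Ps3_ne hM
  have hy0 : V (g0 * M⁻¹) ≤ 1 := by
    rw [map_mul, Ps3_inv hM, mul_one]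
    exact h0
  have hMy : M * (g0 * M⁻¹) = g0 := by field_simp
  generalize g0 * M⁻¹ = y0 at hy0 hMy
  lift y0 to V.integer using (show y0 ∈ V.integer from hy0)
  lift q2 to V.integer using (show q2 ∈ V.integer from h2)
  lift q3 to V.integer using (show q3 ∈ V.integer from hq3)
  obtain ⟨z, -, hz⟩ := hV (3 * (-q2 * y0 ^ 2 - q3 * y0 ^ 3)) (-M + 3 * (-2 * q2 * y0 - 3 * q3 * y0 ^ 2))
    (-3 * q2 - 9 * q3 * y0) (-3 * q3)
    (Ps3_lt h3 (-q2 * y0 ^ 2 - q3 * y0 ^ 3 : V.integer).2)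
    (Ps3_unit h3 (by rw [Valuation.map_neg, hM]) (-2 * q2 * y0 - 3 * q3 * y0 ^ 2 : V.integer).2)
    (-3 * q2 - 9 * q3 * y0 : V.integer).2 (-3 * q3 : V.integer).2
  refine ⟨y0 + z, ?_⟩
  linear_combination hz - hMy

private theorem Ps3_sol {a c d T S : F} (hd : d ≠ 0)
    (h : d ^ 2 - T ^ 3 - 6 * a * d * T * S - 2 * c * d * S ^ 3 = 0) : LocSol 1 a c d := by
  by_cases hS : S = 0
  · left
    rw [hS] at h
    have h1 : d ^ 2 = T ^ 3 := by linear_combination h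
    have hT : T ≠ 0 := by
      rintro rfl
      apply hd
      have h2 : d ^ 2 = 0 := by rw [h1]; ring
      exact pow_eq_zero_iff (two_ne_zero) |>.1 h2
    refine ⟨d / T, ?_⟩
    rw [div_pow, ← h1]
    field_simp
  · right
    refine ⟨T / S, 1 / S, ?_⟩
    field_simp
    linear_combination h

end Ps3

theorem psi_sol {F : Type*} [Field F] {V : Valuation F (WithZero (Multiplicative ℤ))}
    (hV : Hens3 V) (h3 : V 3 = exp (-1 : ℤ)) {a Γ β x : F} (ha : V a ≤ 1) (hΓ : V Γ ≤ 1)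
    (hβ : V β ≤ 1) (hx : V x ≤ 1) (hw : V (1 + Γ * x) = 1) :
    LocSol 1 a (Γ ^ 3 + 3 * β) (1 + 3 * ((a - Γ) * x + (β - Γ ^ 2 * a) * x ^ 3)) := by
  have hw0 := Ps3_ne hw
  have hwi := Ps3_inv hw
  have hwi1 : V (1 + Γ * x)⁻¹ ≤ 1 := hwi.le
  have hww : (1 + Γ * x) * (1 + Γ * x)⁻¹ = 1 := mul_inv_cancel₀ hw0
  have hV2 : V 2 = 1 := by
    have h1 : (2 : F) = -1 + 3 * 1 := by norm_num
    rw [h1]
    exact Ps3_unit h3 (by rw [Valuation.map_neg, map_one]) (by rw [map_one])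
  lift a to V.integer using (show a ∈ V.integer from ha)
  lift Γ to V.integer using (show Γ ∈ V.integer from hΓ)
  lift β to V.integer using (show β ∈ V.integer from hβ)
  lift x to V.integer using (show x ∈ V.integer from hx)
  generalize (1 + (Γ : F) * x)⁻¹ = wi at hwi hwi1 hww
  lift wi to V.integer using (show wi ∈ V.integer from hwi1)
  obtain ⟨h, hh⟩ : ∃ h : V.integer, (h : F) = ((a : F) - Γ) * x + ((β : F) - Γ ^ 2 * a) * x ^ 3 :=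
    ⟨(a - Γ) * x + (β - Γ ^ 2 * a) * x ^ 3, by push_cast; ring⟩
  rw [← hh]
  have hd : V (1 + 3 * (h : F)) = 1 := Ps3_unit h3 (map_one V) h.2
  have hd0 := Ps3_ne hd
  -- the explicit integral element
  obtain ⟨g0, hg0⟩ : ∃ g0 : V.integer, (g0 : F) = (-(Γ : F) * x - Γ ^ 2 * x ^ 2 - Γ ^ 3 * x ^ 3
      - 2 * a * Γ * x ^ 2 - 2 * a * Γ ^ 2 * x ^ 3 + h ^ 2 * (1 + Γ * x) ^ 3
      + 2 * h * (Γ * x + Γ ^ 2 * x ^ 2) - 2 * a * h * (1 + 2 * Γ * x) * x * (1 + Γ * x)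
      - 2 * β * h * x ^ 3) * wi ^ 3 :=
    ⟨(-Γ * x - Γ ^ 2 * x ^ 2 - Γ ^ 3 * x ^ 3
      - 2 * a * Γ * x ^ 2 - 2 * a * Γ ^ 2 * x ^ 3 + h ^ 2 * (1 + Γ * x) ^ 3
      + 2 * h * (Γ * x + Γ ^ 2 * x ^ 2) - 2 * a * h * (1 + 2 * Γ * x) * x * (1 + Γ * x)
      - 2 * β * h * x ^ 3) * wi ^ 3, by
      have h2 : ((2 : V.integer) : F) = 2 := rfl
      push_cast
      rw [h2]⟩
  have hG : (1 + 3 * (h : F)) ^ 2 - ((1 + 2 * Γ * x) * wi) ^ 3
      - 6 * a * (1 + 3 * h) * ((1 + 2 * Γ * x) * wi) * (x * wi)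
      - 2 * (Γ ^ 3 + 3 * β) * (1 + 3 * h) * (x * wi) ^ 3 = 9 * g0 := by
    have e1 : (1 + (Γ : F) * x) ^ 3 * wi ^ 3 = 1 := by rw [← mul_pow, hww, one_pow]
    have key : (1 + 3 * (h : F)) ^ 2 * ((1 + (Γ : F) * x) ^ 3 * wi ^ 3) - ((1 + 2 * Γ * x) * wi) ^ 3
      - 6 * a * (1 + 3 * h) * ((1 + 2 * Γ * x) * wi) * (x * wi) * ((1 + (Γ : F) * x) * wi)
      - 2 * (Γ ^ 3 + 3 * β) * (1 + 3 * h) * (x * wi) ^ 3 = 9 * g0 := by
      rw [hg0]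
      linear_combination 6 * wi ^ 3 * hh
    rw [e1, hww, mul_one, mul_one] at key
    exact key
  have hN : V (1 + ((Γ : F) - a) * x * (1 + Γ * x)) = 1 ∨ V ((a : F) + (Γ - a) * Γ ^ 2 * x ^ 2) = 1 := by
    have h1 : V (1 + ((Γ : F) - a) * x * (1 + Γ * x)) ≤ 1 :=
      (1 + (Γ - a) * x * (1 + Γ * x) : V.integer).2
    have h2 : V ((a : F) + (Γ - a) * Γ ^ 2 * x ^ 2) ≤ 1 :=
      Ps3_int (a + (Γ - a) * Γ ^ 2 * x ^ 2) (by push_cast; ring)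
    rcases h1.lt_or_eq with h4 | h4
    · right
      have h5 : (x : F) * ((a : F) + (Γ - a) * Γ ^ 2 * x ^ 2) =
          1 + (-(1 - (Γ : F) * x)) * (1 + ((Γ : F) - a) * x * (1 + Γ * x)) := by ring
      have h6 : V (-(1 - (Γ : F) * x)) ≤ 1 := (-(1 - Γ * x) : V.integer).2
      have h7 : V ((x : F) * ((a : F) + (Γ - a) * Γ ^ 2 * x ^ 2)) = 1 := by
        rw [h5, V.map_add_eq_of_lt_left, map_one]
        rw [map_mul, map_one]
        exact (mul_le_of_le_one_left' h6).trans_lt h4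
      rw [map_mul] at h7
      refine le_antisymm h2 ?_
      rw [← h7]
      exact mul_le_of_le_one_left' x.2
    · exact Or.inl h4
  have hunit : ∀ M : F, V ((1 + (Γ : F) * x) ^ 2 * M) = 1 → V M = 1 := by
    intro M hM
    rw [map_mul, map_pow, hw, one_pow, one_mul] at hM
    exact hM
  rcases hN with hN | hN
  · -- move T
    have hM : V (((1 + 2 * (Γ : F) * x) * wi) ^ 2 + 2 * a * (1 + 3 * h) * (x * wi)) = 1 := by
      apply hunit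
      have h1 : (1 + (Γ : F) * x) ^ 2 *
          (((1 + 2 * (Γ : F) * x) * wi) ^ 2 + 2 * a * (1 + 3 * h) * (x * wi)) =
          (1 + ((Γ : F) - a) * x * (1 + Γ * x)) +
          3 * (Γ * x + Γ ^ 2 * x ^ 2 + a * x * (1 + Γ * x) + 2 * a * h * x * (1 + Γ * x)) := by
        have e2 : (1 + (Γ : F) * x) ^ 2 *
          (((1 + 2 * (Γ : F) * x) * wi) ^ 2 + 2 * a * (1 + 3 * h) * (x * wi)) =
          (1 + 2 * (Γ : F) * x) ^ 2 * ((1 + (Γ : F) * x) * wi) ^ 2 +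
          2 * a * (1 + 3 * h) * x * (1 + (Γ : F) * x) * ((1 + (Γ : F) * x) * wi) := by ring
        rw [e2, hww]
        ring
      rw [h1]
      exact Ps3_unit h3 hN
        (Ps3_int (Γ * x + Γ ^ 2 * x ^ 2 + a * x * (1 + Γ * x) + 2 * a * h * x * (1 + Γ * x)) (by
          have h2 : ((2 : V.integer) : F) = 2 := rfl
          push_cast
          rw [h2]))
    obtain ⟨y, hy⟩ := Ps3_aff hV h3 g0.2 hM (q2 := (1 + 2 * (Γ : F) * x) * wi) (q3 := 1)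
      ((1 + 2 * Γ * x) * wi : V.integer).2 (map_one V).le
    refine Ps3_sol (T := (1 + 2 * (Γ : F) * x) * wi + 3 * y) (S := x * wi) hd0 ?_
    linear_combination hG + 9 * hy
  · have hM : V (2 * a * (1 + 3 * h) * ((1 + 2 * (Γ : F) * x) * wi) +
        2 * (Γ ^ 3 + 3 * β) * (1 + 3 * h) * (x * wi) ^ 2) = 1 := by
      apply hunit
      have h1 : (1 + (Γ : F) * x) ^ 2 *
          (2 * a * (1 + 3 * h) * ((1 + 2 * (Γ : F) * x) * wi) +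
        2 * (Γ ^ 3 + 3 * β) * (1 + 3 * h) * (x * wi) ^ 2) =
          2 * ((a : F) + (Γ - a) * Γ ^ 2 * x ^ 2) +
          3 * (2 * (a * Γ * x + a * Γ ^ 2 * x ^ 2) + 2 * β * x ^ 2 +
            2 * h * (a * (1 + 2 * Γ * x) * (1 + Γ * x) + (Γ ^ 3 + 3 * β) * x ^ 2)) := by
        have e2 : (1 + (Γ : F) * x) ^ 2 *
          (2 * a * (1 + 3 * h) * ((1 + 2 * (Γ : F) * x) * wi) +
        2 * (Γ ^ 3 + 3 * β) * (1 + 3 * h) * (x * wi) ^ 2) =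
          2 * a * (1 + 3 * h) * (1 + 2 * (Γ : F) * x) * (1 + (Γ : F) * x) *
            ((1 + (Γ : F) * x) * wi) +
          2 * (Γ ^ 3 + 3 * β) * (1 + 3 * h) * x ^ 2 * ((1 + (Γ : F) * x) * wi) ^ 2 := by ring
        rw [e2, hww]
        ring
      rw [h1]
      refine Ps3_unit h3 (by rw [map_mul, hV2, hN, one_mul]) ?_
      exact (2 * (a * Γ * x + a * Γ ^ 2 * x ^ 2) + 2 * β * x ^ 2 +
            2 * h * (a * (1 + 2 * Γ * x) * (1 + Γ * x) + (Γ ^ 3 + 3 * β) * x ^ 2) : V.integer).2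
    obtain ⟨z, hz⟩ := Ps3_aff hV h3 g0.2 hM
      (q2 := 2 * ((Γ : F) ^ 3 + 3 * β) * (1 + 3 * h) * (x * wi))
      (q3 := 2 * ((Γ : F) ^ 3 + 3 * β) * (1 + 3 * h))
      (2 * (Γ ^ 3 + 3 * β) * (1 + 3 * h) * (x * wi) : V.integer).2
      (2 * (Γ ^ 3 + 3 * β) * (1 + 3 * h) : V.integer).2
    refine Ps3_sol (T := (1 + 2 * (Γ : F) * x) * wi) (S := x * wi + 3 * z) hd0 ?_
    linear_combination hG + 9 * hz

end H86T3
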