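import Pool.Agent.H86.T3G.Mul
import Pool.Agent.H86.T3G.Ps3
import Pool.Agent.H86.T3G.Ix3
import Pool.Agent.H86.T3G.Kap

/-!
Row Pg3 (about 200 lines).

PROOF of bad_pigeon. `c := 9 b + 4 a^3`, `V (9 b) = exp (-1)` or `1` (`V 9 = exp (-2)`), so `V c ≤ 1`. exists_cbrt: `c = Γ^3 + 3 β`, `Γ, β` integral. `[CharP k 3]` (charP_three). `A := ρ (a - Γ)`, `B := ρ (β - Γ^2 a)`. `(A, B) ≠ (0, 0)`: otherwise `a = Γ + 3 s`, `β = Γ^2 a + 3 t` (elements of the maximal ideal are `3` times integral),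
  `c = Γ^3 + 3 Γ^2 a + 9 t = 4 Γ^3 + 9 (..)` and `4 a^3 = 4 Γ^3 + 9 (..)`, so `9 b = c - 4 a^3 = 9 (..)` with (..) integral, `V b ≤ 1`: contradiction to `V b = exp 1` or `exp 2`.
 `M := {m : k | ∀ h : F, V h ≤ 1 → ρ h = m → LocSol 1 a c (1 + 3 h)}` (write `ρ ⟨h, _⟩ = m`) is an additive subgroup: by cube_of_congr and locSol_mul_cube the condition for one lift `h` implies it for every lift; `0`: `1 = 1^3`; sum: `(1 + 3 h)(1 + 3 h') = 1 + 3 (h + h' + 3 h h')` and locSol_mul, `ρ (h + h' + 3 h h') = ρ h + ρ h'`;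
  negative: `(1 + 3 h)⁻¹ = 1 + 3 h''` with `h'' = -h / (1 + 3 h)`, `ρ h'' = - ρ h`, locSol_inv. `[PerfectField F]` from CharZero. `1 + 3 h` is a unit, non zero.
 `A x + B x^3 ∈ M` for `x ∈ k` with `1 + ρ Γ x ≠ 0`: lift `x`, psi_sol.
 Units `u i = (z i)^3 (1 + 3 h i)` (exists_h). index_three for `ρ (h i)`: `i ≠ j` with `ρ (h i - h j) ∈ M`. `u i / u j = (z i / z j)^3 (1 + 3 h i)/(1 + 3 h j)` and `(1 + 3 h i)/(1 + 3 h j) = 1 + 3 (h i - h j)/(1 + 3 h j)`, `ρ` of the last `h` is `ρ (h i) - ρ (h j)`: LocSol, locSol_mul_cube.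
PROOF of bad_pigeon': scaling by `r = 3⁻¹ ^ (i + 1)`: `a' = r a`, `b' = r^3 b`: `V a' ≤ 1`, `V b' = exp (3 i + 3 - 3 i - 1) = exp 2` or `exp 1`; `9 b' + 4 a'^3 = r^3 (9 b + 4 a^3)`; locSol_scale.
-/

set_option autoImplicit false

open WithZero H55T3

namespace H86T3

variable {F : Type*} [Field F] [CharZero F] {V : Valuation F (WithZero (Multiplicative ℤ))}
  {k : Type*} [Field k] [Finite k] {ρ : V.integer →+* k}

private theorem Pg3_cast (n : ℕ) [n.AtLeastTwo] :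
    (((OfNat.ofNat n : V.integer)) : F) = OfNat.ofNat n := map_ofNat V.integer.subtype n

private theorem Pg3_unit (h3 : V 3 = exp (-1 : ℤ)) {h : F} (hh : V h ≤ 1) :
    V (1 + 3 * h) = 1 := by
  apply Valuation.map_one_add_of_lt
  rw [map_mul, h3]
  have h1 : exp (-1 : ℤ) < 1 := by
    rw [← exp_zero]
    exact exp_lt_exp.2 (by norm_num)
  calc exp (-1 : ℤ) * V h ≤ exp (-1 : ℤ) * 1 := by gcongr
    _ = exp (-1 : ℤ) := mul_one _
    _ < 1 := h1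

private theorem Pg3_ne (h3 : V 3 = exp (-1 : ℤ)) {h : F} (hh : V h ≤ 1) :
    1 + 3 * h ≠ 0 := by
  intro h0
  have h1 := Pg3_unit h3 hh
  rw [h0, map_zero] at h1
  exact zero_ne_one h1

private theorem Pg3_div3 (h3 : V 3 = exp (-1 : ℤ)) {x : F} (hx : V x < 1) :
    V (x / 3) ≤ 1 := by
  rw [map_div₀, h3]
  rcases eq_or_ne (V x) 0 with h0 | h0
  · rw [h0, zero_div]
    exact zero_le_one
  · obtain ⟨n, hn⟩ : ∃ n : ℤ, V x = exp n := ⟨log (V x), (exp_log h0).symm⟩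
    rw [hn] at hx ⊢
    rw [← exp_zero] at hx ⊢
    have h1 := exp_lt_exp.1 hx
    rw [div_eq_mul_inv, ← exp_neg, ← exp_add]
    exact exp_le_exp.2 (by omega)

private theorem Pg3_three [CharP k 3] : (3 : k) = 0 := by
  have h := CharP.cast_eq_zero k 3
  exact_mod_cast h

private theorem Pg3_trans (hV : Hens3 V) (h3 : V 3 = exp (-1 : ℤ))
    (hρ : ∀ x : V.integer, ρ x = 0 ↔ V x < 1) {a c : F} {h h' : V.integer}
    (he : ρ h = ρ h') (H : LocSol 1 a c (1 + 3 * (h' : F))) :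
    LocSol 1 a c (1 + 3 * (h : F)) := by
  have h1 : V ((h : F) - (h' : F)) < 1 := by
    have h2 := (hρ (h - h')).1 (by rw [map_sub, he, sub_self])
    exact h2
  obtain ⟨t, ht, h2⟩ := cube_of_congr hV h3 h.2 h'.2 h1
  rw [h2, mul_comm]
  refine locSol_mul_cube ?_ H
  intro h0
  rw [h0, map_zero] at ht
  exact zero_ne_one ht

private theorem Pg3_sub (hV : Hens3 V) (h3 : V 3 = exp (-1 : ℤ))
    (hρs : Function.Surjective ρ) (hρ : ∀ x : V.integer, ρ x = 0 ↔ V x < 1) {a b : F}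
    (hb : b ≠ 0) (hc : 9 * b + 4 * a ^ 3 ≠ 0) :
    ∃ M : AddSubgroup k, ∀ m, m ∈ M ↔
      ∀ h : V.integer, ρ h = m → LocSol 1 a (9 * b + 4 * a ^ 3) (1 + 3 * (h : F)) := by
  have h30 : (3 : F) ≠ 0 := by norm_num
  have h20 : (2 : F) ≠ 0 := two_ne_zero
  have hch : CharP k 3 := charP_three h3 hρ
  have hk3 : (3 : k) = 0 := Pg3_three
  refine ⟨
    { carrier := {m | ∀ h : V.integer, ρ h = m →
        LocSol 1 a (9 * b + 4 * a ^ 3) (1 + 3 * (h : F))}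
      zero_mem' := ?_
      add_mem' := ?_
      neg_mem' := ?_ }, fun m => Iff.rfl⟩
  · intro m1 m2 H1 H2 h hh
    obtain ⟨x1, hx1⟩ := hρs m1
    obtain ⟨x2, hx2⟩ := hρs m2
    have e1 := H1 x1 hx1
    have e2 := H2 x2 hx2
    have e3 := locSol_mul h20 h30 hb hc (Pg3_ne h3 x1.2) (Pg3_ne h3 x2.2) e1 e2
    have e4 : (1 + 3 * (x1 : F)) * (1 + 3 * (x2 : F)) =
        1 + 3 * ((x1 + x2 + 3 * x1 * x2 : V.integer) : F) := by
      push_cast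
      rw [Pg3_cast 3]
      ring
    rw [e4] at e3
    refine Pg3_trans hV h3 hρ ?_ e3
    rw [hh, map_add, map_add, map_mul, map_mul, hx1, hx2]
    have e5 : ρ 3 = 0 := by
      rw [show (3 : V.integer) = ((3 : ℕ) : V.integer) from by norm_num, map_natCast]
      exact_mod_cast hk3
    rw [e5]
    ring
  · intro h hh
    have e1 : LocSol 1 a (9 * b + 4 * a ^ 3) (1 + 3 * ((0 : V.integer) : F)) := by
      have e2 := @locSol_cube F _ a (9 * b + 4 * a ^ 3) 1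
      have e3 : (1 : F) + 3 * ((0 : V.integer) : F) = 1 ^ 3 := by
        push_cast
        ring
      rw [e3]
      exact e2
    exact Pg3_trans hV h3 hρ (by rw [hh, map_zero]) e1
  · intro m H h hh
    obtain ⟨x, hx⟩ := hρs m
    have e1 := locSol_inv h20 h30 hb hc (Pg3_ne h3 x.2) (H x hx)
    have hu := Pg3_unit h3 x.2
    have hn := Pg3_ne h3 x.2
    have hy : V (-(x : F) / (1 + 3 * (x : F))) ≤ 1 := by
      rw [map_div₀, hu, div_one, Valuation.map_neg]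
      exact x.2
    have e2 : (1 + 3 * (x : F))⁻¹ =
        1 + 3 * (((⟨-(x : F) / (1 + 3 * (x : F)), hy⟩ : V.integer)) : F) := by
      change (1 + 3 * (x : F))⁻¹ = 1 + 3 * (-(x : F) / (1 + 3 * (x : F)))
      field_simp
      ring
    rw [e2] at e1
    refine Pg3_trans hV h3 hρ ?_ e1
    have e3 : (⟨-(x : F) / (1 + 3 * (x : F)), hy⟩ : V.integer) * (1 + 3 * x) = -x := by
      apply Subtype.ext
      change -(x : F) / (1 + 3 * (x : F)) * (1 + ((3 : V.integer) : F) * (x : F)) = -(x : F)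
      rw [Pg3_cast 3]
      exact div_mul_cancel₀ _ hn
    have e4 := congrArg ρ e3
    have e5 : ρ 3 = 0 := by
      rw [show (3 : V.integer) = ((3 : ℕ) : V.integer) from by norm_num, map_natCast]
      exact_mod_cast hk3
    rw [map_mul, map_add, map_mul, e5, map_one, zero_mul, add_zero, mul_one, map_neg, hx] at e4
    rw [hh, e4]

private theorem Pg3_vc (h3 : V 3 = exp (-1 : ℤ)) {a b : F} (ha : V a ≤ 1)
    (hb1 : V b = exp (1 : ℤ) ∨ V b = exp (2 : ℤ)) : V (9 * b + 4 * a ^ 3) ≤ 1 := by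
  have h1 : V (9 * b) ≤ 1 := by
    have e1 : (9 : F) * b = 3 * (3 * b) := by ring
    rw [e1, map_mul, map_mul, h3]
    rcases hb1 with h | h
    · rw [h, ← exp_add, ← exp_add, ← exp_zero]
      exact exp_le_exp.2 (by norm_num)
    · rw [h, ← exp_add, ← exp_add, ← exp_zero]
      exact exp_le_exp.2 (by norm_num)
  have h2 : V (4 * a ^ 3) ≤ 1 := by
    have e1 : (4 : F) * a ^ 3 = (((4 : V.integer) * ⟨a, ha⟩ ^ 3 : V.integer) : F) := by
      push_cast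
      rw [Pg3_cast 4]
    rw [e1]
    exact ((4 : V.integer) * ⟨a, ha⟩ ^ 3 : V.integer).2
  exact le_trans (V.map_add _ _) (max_le h1 h2)

private theorem Pg3_contra (h3 : V 3 = exp (-1 : ℤ)) {a b Γ β : F}
    (hΓ : V Γ ≤ 1) (hb1 : V b = exp (1 : ℤ) ∨ V b = exp (2 : ℤ))
    (hcΓ : 9 * b + 4 * a ^ 3 = Γ ^ 3 + 3 * β) (hA : V (a - Γ) < 1)
    (hB : V (β - Γ ^ 2 * a) < 1) : False := by
  have hs := Pg3_div3 h3 hA
  have ht := Pg3_div3 h3 hB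
  have e1 : b = (((⟨(β - Γ ^ 2 * a) / 3, ht⟩ : V.integer) -
      3 * ⟨Γ, hΓ⟩ ^ 2 * ⟨(a - Γ) / 3, hs⟩ - 12 * ⟨Γ, hΓ⟩ * ⟨(a - Γ) / 3, hs⟩ ^ 2 -
      12 * ⟨(a - Γ) / 3, hs⟩ ^ 3 : V.integer) : F) := by
    have e2 : (9 : F) * b = 9 * ((β - Γ ^ 2 * a) / 3 - 3 * Γ ^ 2 * ((a - Γ) / 3) -
        12 * Γ * ((a - Γ) / 3) ^ 2 - 12 * ((a - Γ) / 3) ^ 3) := by
      have e3 : (9 : F) * b = Γ ^ 3 + 3 * β - 4 * a ^ 3 := by rw [← hcΓ]; ring
      rw [e3]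
      field_simp
      ring
    have e4 := mul_left_cancel₀ (by norm_num : (9 : F) ≠ 0) e2
    push_cast
    rw [Pg3_cast 3, Pg3_cast 12]
    exact e4
  have e5 : V b ≤ 1 := by
    rw [e1]
    exact (_ : V.integer).2
  rcases hb1 with h | h
  · rw [h, ← exp_zero] at e5
    have := exp_le_exp.1 e5
    omega
  · rw [h, ← exp_zero] at e5
    have := exp_le_exp.1 e5
    omega

theorem bad_pigeon (hV : Hens3 V) (h3 : V 3 = exp (-1 : ℤ)) (hρs : Function.Surjective ρ)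
    (hρ : ∀ x : V.integer, ρ x = 0 ↔ V x < 1) {a b : F} (hb : b ≠ 0)
    (hc : 9 * b + 4 * a ^ 3 ≠ 0) (ha : V a ≤ 1) (hb1 : V b = exp (1 : ℤ) ∨ V b = exp (2 : ℤ))
    (u : Fin 4 → F) (hu : ∀ i, V (u i) = 1) :
    ∃ i j, i ≠ j ∧ LocSol 1 a (9 * b + 4 * a ^ 3) (u i / u j) := by
  have hch : CharP k 3 := charP_three h3 hρ
  have hk3 : (3 : k) = 0 := Pg3_three
  obtain ⟨Γ, β, hΓ, hβ, hcΓ⟩ := exists_cbrt h3 hρs hρ (Pg3_vc h3 ha hb1)
  obtain ⟨M, hM⟩ := Pg3_sub (a := a) (b := b) hV h3 hρs hρ hb hc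
  have hAi : V (a - Γ) ≤ 1 := le_trans (V.map_sub _ _) (max_le ha hΓ)
  have hBi : V (β - Γ ^ 2 * a) ≤ 1 := by
    have e1 : β - Γ ^ 2 * a =
        (((⟨β, hβ⟩ : V.integer) - ⟨Γ, hΓ⟩ ^ 2 * ⟨a, ha⟩ : V.integer) : F) := by
      push_cast
      rfl
    rw [e1]
    exact ((⟨β, hβ⟩ : V.integer) - ⟨Γ, hΓ⟩ ^ 2 * ⟨a, ha⟩ : V.integer).2
  have hAB : ρ ⟨a - Γ, hAi⟩ ≠ 0 ∨ ρ ⟨β - Γ ^ 2 * a, hBi⟩ ≠ 0 := by
    by_contra hcon
    push Not at hcon
    obtain ⟨hA, hB⟩ := hcon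
    exact Pg3_contra h3 hΓ hb1 hcΓ ((hρ _).1 hA) ((hρ _).1 hB)
  have hMx : ∀ x : k, 1 + ρ ⟨Γ, hΓ⟩ * x ≠ 0 →
      ρ ⟨a - Γ, hAi⟩ * x + ρ ⟨β - Γ ^ 2 * a, hBi⟩ * x ^ 3 ∈ M := by
    intro x hx
    obtain ⟨y, rfl⟩ := hρs x
    have hw : V (1 + Γ * (y : F)) = 1 := by
      have e1 : ρ (1 + ⟨Γ, hΓ⟩ * y) ≠ 0 := by
        rw [map_add, map_mul, map_one]
        exact hx
      have e2 : ¬ V (1 + Γ * (y : F)) < 1 := fun h => e1 ((hρ _).2 h)
      have e3 : V (1 + Γ * (y : F)) ≤ 1 := by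
        have e4 : 1 + Γ * (y : F) = ((1 + ⟨Γ, hΓ⟩ * y : V.integer) : F) := by
          push_cast
          rfl
        rw [e4]
        exact (1 + ⟨Γ, hΓ⟩ * y : V.integer).2
      exact le_antisymm e3 (not_lt.1 e2)
    have e3 := psi_sol hV h3 ha hΓ hβ y.2 hw
    rw [← hcΓ] at e3
    rw [hM]
    intro h hh
    have e4 : (a - Γ) * (y : F) + (β - Γ ^ 2 * a) * (y : F) ^ 3 =
        (((⟨a - Γ, hAi⟩ : V.integer) * y + ⟨β - Γ ^ 2 * a, hBi⟩ * y ^ 3 : V.integer) : F) := by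
      push_cast
      rfl
    rw [e4] at e3
    refine Pg3_trans hV h3 hρ ?_ e3
    rw [hh, map_add, map_mul, map_mul, map_pow]
  have hex : ∀ i, ∃ z h : F, V z = 1 ∧ V h ≤ 1 ∧ u i = z ^ 3 * (1 + 3 * h) :=
    fun i => exists_h h3 hρs hρ (hu i)
  choose z h hz hh huz using hex
  obtain ⟨i, j, hij, hmem⟩ := index_three M hAB hMx (fun i => ρ ⟨h i, hh i⟩)
  refine ⟨i, j, hij, ?_⟩
  have hn := Pg3_ne h3 (hh j)
  have hg : V ((h i - h j) / (1 + 3 * h j)) ≤ 1 := by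
    rw [map_div₀, Pg3_unit h3 (hh j), div_one]
    exact le_trans (V.map_sub _ _) (max_le (hh i) (hh j))
  have hzi : ∀ i, z i ≠ 0 := by
    intro i h0
    have := hz i
    rw [h0, map_zero] at this
    exact zero_ne_one this
  have e1 : (⟨(h i - h j) / (1 + 3 * h j), hg⟩ : V.integer) * (1 + 3 * ⟨h j, hh j⟩) =
      ⟨h i, hh i⟩ - ⟨h j, hh j⟩ := by
    apply Subtype.ext
    change (h i - h j) / (1 + 3 * h j) * (1 + ((3 : V.integer) : F) * h j) = h i - h j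
    rw [Pg3_cast 3]
    exact div_mul_cancel₀ _ hn
  have e5 : ρ 3 = 0 := by
    rw [show (3 : V.integer) = ((3 : ℕ) : V.integer) from by norm_num, map_natCast]
    exact_mod_cast hk3
  have e2 := congrArg ρ e1
  rw [map_mul, map_add, map_mul, e5, map_one, zero_mul, add_zero, mul_one, map_sub] at e2
  have e3 := (hM _).1 hmem ⟨(h i - h j) / (1 + 3 * h j), hg⟩ e2
  have e4 : u i / u j = (1 + 3 * ((h i - h j) / (1 + 3 * h j))) * (z i / z j) ^ 3 := by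
    rw [huz i, huz j]
    have h1 := hzi j
    field_simp
    ring
  rw [e4]
  exact locSol_mul_cube (div_ne_zero (hzi i) (hzi j)) e3

theorem bad_pigeon' (hV : Hens3 V) (h3 : V 3 = exp (-1 : ℤ)) (hρs : Function.Surjective ρ)
    (hρ : ∀ x : V.integer, ρ x = 0 ↔ V x < 1) {a b : F} (hb : b ≠ 0)
    (hc : 9 * b + 4 * a ^ 3 ≠ 0) (hbad : BadAt V a b)
    (u : Fin 4 → F) (hu : ∀ i, V (u i) = 1) :
    ∃ i j, i ≠ j ∧ LocSol 1 a (9 * b + 4 * a ^ 3) (u i / u j) := by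
  obtain ⟨n, ha, hb1⟩ := hbad
  have h30 : (3 : F) ≠ 0 := by norm_num
  have hr : ((3 : F)⁻¹ ^ (n + 1)) ≠ 0 := pow_ne_zero _ (inv_ne_zero h30)
  have hVr : V ((3 : F)⁻¹ ^ (n + 1)) = exp ((n : ℤ) + 1) := by
    rw [map_pow, map_inv₀, h3, ← exp_neg, ← exp_nsmul]
    congr 1
    simp
  have ha' : V ((3 : F)⁻¹ ^ (n + 1) * a) ≤ 1 := by
    rw [map_mul, hVr]
    calc exp ((n : ℤ) + 1) * V a ≤ exp ((n : ℤ) + 1) * exp (-((n : ℤ) + 1)) := by gcongr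
      _ = 1 := by rw [← exp_add, add_neg_cancel, exp_zero]
  have hb' : V (((3 : F)⁻¹ ^ (n + 1)) ^ 3 * b) = exp (1 : ℤ) ∨
      V (((3 : F)⁻¹ ^ (n + 1)) ^ 3 * b) = exp (2 : ℤ) := by
    rw [map_mul, map_pow, hVr, ← exp_nsmul]
    rcases hb1 with h | h
    · right
      rw [h, ← exp_add]
      congr 1
      simp
      ring
    · left
      rw [h, ← exp_add]
      congr 1
      simp
      ring
  have e1 : 9 * (((3 : F)⁻¹ ^ (n + 1)) ^ 3 * b) + 4 * ((3 : F)⁻¹ ^ (n + 1) * a) ^ 3 =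
      ((3 : F)⁻¹ ^ (n + 1)) ^ 3 * (9 * b + 4 * a ^ 3) := by ring
  have hc' : 9 * (((3 : F)⁻¹ ^ (n + 1)) ^ 3 * b) + 4 * ((3 : F)⁻¹ ^ (n + 1) * a) ^ 3 ≠ 0 := by
    rw [e1]
    exact mul_ne_zero (pow_ne_zero _ hr) hc
  obtain ⟨i, j, hij, H⟩ := bad_pigeon hV h3 hρs hρ
    (mul_ne_zero (pow_ne_zero 3 hr) hb) hc' ha' hb' u hu
  refine ⟨i, j, hij, ?_⟩
  rw [e1] at H
  exact (locSol_scale hr).1 H

end H86T3
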