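import Pool.Agent.H86.T3G.Pg3
import Pool.Agent.H86.T3G.Gd3
import Pool.Agent.H86.IK.Plc
import Pool.Agent.H68.TK.Loc

/-!
Unit classes at the places of a number field (three-isogenies).
-/

set_option autoImplicit false
set_option linter.style.haveILetI false
open scoped Classical

open WithZero WeierstrassCurve IsDedekindDomain NumberField NumberField.Units Pool.Agent.H10 H55T3
  H86IK

namespace H86T3

section

variable {L : Type} [Field L] [NumberField L] (w : HeightOneSpectrum (𝓞 L))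

theorem ii_ofNat (n : ℕ) [n.AtLeastTwo] :
    ii w (OfNat.ofNat n : 𝓞 L) = (OfNat.ofNat n : w.adicCompletion L) := by
  have h4 : ((OfNat.ofNat n : 𝓞 L) : L) = OfNat.ofNat n := map_ofNat (algebraMap (𝓞 L) L) n
  rw [ii, h4, map_ofNat]

theorem ii_add (x y : 𝓞 L) : ii w (x + y) = ii w x + ii w y := by
  simp [ii, map_add]

theorem ii_cc (a b : 𝓞 L) : ii w (9 * b + 4 * a ^ 3) = 9 * ii w b + 4 * ii w a ^ 3 := by
  rw [ii_add, ii_mul, ii_mul, ii_pow, ii_ofNat, ii_ofNat]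

theorem ii_ne0 {x : 𝓞 L} (hx : x ≠ 0) : ii w x ≠ 0 := by
  rw [ii, Ne, map_eq_zero]
  exact_mod_cast hx

theorem ii_cc_ne {a b : 𝓞 L} (hc : 9 * b + 4 * a ^ 3 ≠ 0) :
    9 * ii w b + 4 * ii w a ^ 3 ≠ 0 := by
  rw [← ii_cc]
  exact ii_ne0 w hc

theorem V3 (h3 : (3 : 𝓞 L) ∈ w.asIdeal) (h3' : (3 : 𝓞 L) ∉ w.asIdeal ^ 2) :
    Valued.v (3 : w.adicCompletion L) = exp (-1 : ℤ) := by
  rw [valued_ofNat w 3]
  exact H68TK.val_three_of_unram h3 h3'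

theorem V3_one (h3 : (3 : 𝓞 L) ∉ w.asIdeal) : Valued.v (3 : w.adicCompletion L) = 1 := by
  rw [valued_ofNat w 3]
  have := val_eq_one_of_notMem h3
  have e2 : ((3 : 𝓞 L) : L) = 3 := map_ofNat (algebraMap (𝓞 L) L) 3
  rwa [e2] at this

theorem ii_div (x y : (𝓞 L)ˣ) :
    ii w ((x / y : (𝓞 L)ˣ) : 𝓞 L) = ii w (x : 𝓞 L) / ii w (y : 𝓞 L) := by
  have hy : ii w (y : 𝓞 L) ≠ 0 := ne_zero_of_V (unit_valued w y)
  rw [eq_div_iff hy, ← ii_mul, ← Units.val_mul, div_mul_cancel]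

/-- Good places. -/
theorem unit_good3 {a b : 𝓞 L} (hw : 6 * b * (9 * b + 4 * a ^ 3) ∉ w.asIdeal) (u : (𝓞 L)ˣ) :
    LocSol 1 (ii w a) (9 * ii w b + 4 * ii w a ^ 3) (ii w (u : 𝓞 L)) := by
  obtain ⟨k, _, _, ρ, hρs, hρ⟩ := exists_resid w
  have h6 : (6 : 𝓞 L) ∉ w.asIdeal := fun h => hw
    (Ideal.mul_mem_right _ _ (Ideal.mul_mem_right _ _ h))
  have h2 : (2 : 𝓞 L) ∉ w.asIdeal := fun h => h6 (by
    rw [show (6 : 𝓞 L) = 2 * 3 by norm_num]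
    exact Ideal.mul_mem_right _ _ h)
  have h3 : (3 : 𝓞 L) ∉ w.asIdeal := fun h => h6 (by
    rw [show (6 : 𝓞 L) = 2 * 3 by norm_num]
    exact Ideal.mul_mem_left _ _ h)
  have nB : b ∉ w.asIdeal := fun h => hw (Ideal.mul_mem_right _ _ (Ideal.mul_mem_left _ _ h))
  have nC : 9 * b + 4 * a ^ 3 ∉ w.asIdeal := fun h => hw (Ideal.mul_mem_left _ _ h)
  let V : Valuation (w.adicCompletion L) (WithZero (Multiplicative ℤ)) := Valued.v
  let U : V.integer := ⟨ii w (u : 𝓞 L), (unit_valued w u).le⟩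
  have hU : ρ U ≠ 0 := by
    intro h
    rw [hρ] at h
    exact absurd (unit_valued w u) h.ne
  have h2k := res_two w hρ h2
  have h3k : (3 : k) ≠ 0 := by
    have h := ii_res w hρ (3 : 𝓞 L) h3
    have e : (⟨ii w (3 : 𝓞 L), ii_le w _⟩ : V.integer) = 3 := by
      apply Subtype.ext
      exact ii_ofNat w 3
    rw [e, map_ofNat] at h
    exact h
  let B : V.integer := ⟨ii w b, ii_le w b⟩
  let A : V.integer := ⟨ii w a, ii_le w a⟩
  have hB : ρ B ≠ 0 := ii_res w hρ b nB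
  have hC : ρ (9 * B + 4 * A ^ 3) ≠ 0 := by
    have e : 9 * B + 4 * A ^ 3 = ⟨ii w (9 * b + 4 * a ^ 3), ii_le w _⟩ := by
      apply Subtype.ext
      change 9 * ii w b + 4 * ii w a ^ 3 = ii w (9 * b + 4 * a ^ 3)
      rw [ii_cc]
    rw [e]
    exact ii_res w hρ _ nC
  exact good_sol (V := V) (ad_hens w) hρs hρ h2k h3k (a := A) (b := B) (u := U) hB hC hU

/-- Places not above three. -/
theorem unit_tame3 (h3 : (3 : 𝓞 L) ∉ w.asIdeal) (u : Fin 4 → (𝓞 L)ˣ) :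
    ∃ i j, i ≠ j ∧ ∃ t, ii w ((u i / u j : (𝓞 L)ˣ) : 𝓞 L) = t ^ 3 := by
  obtain ⟨k, _, _, ρ, hρs, hρ⟩ := exists_resid w
  obtain ⟨i, j, hij, t, ht⟩ := cube_pigeon_tame (ad_hens w) (V3_one w h3) hρs hρ
    (fun i => ii w (u i : 𝓞 L)) (fun i => unit_valued w (u i))
  exact ⟨i, j, hij, t, by rw [ii_div]; exact ht⟩

/-- Places above three, general bound. -/
theorem unit_wild3 (h3 : (3 : 𝓞 L) ∈ w.asIdeal) (h3' : (3 : 𝓞 L) ∉ w.asIdeal ^ 2)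
    (u : Fin (Ideal.absNorm w.asIdeal + 1) → (𝓞 L)ˣ) :
    ∃ i j, i ≠ j ∧ ∃ t, ii w ((u i / u j : (𝓞 L)ˣ) : 𝓞 L) = t ^ 3 := by
  obtain ⟨k, _, _, ρ, hρs, hρ⟩ := exists_resid w
  have hk := card_resid w hρs hρ
  obtain ⟨i, j, hij, t, ht⟩ := cube_pigeon_wild (ad_hens w) (V3 w h3 h3') hρs hρ
    (by rw [hk, Fintype.card_fin]; exact Nat.lt_succ_self _)
    (fun i => ii w (u i : 𝓞 L)) (fun i => unit_valued w (u i))
  exact ⟨i, j, hij, t, by rw [ii_div]; exact ht⟩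

/-- Places above three, bad case. -/
theorem unit_bad3 {a b : 𝓞 L} (hb : b ≠ 0) (hc : 9 * b + 4 * a ^ 3 ≠ 0)
    (hbad : BadAt (Valued.v : Valuation (w.adicCompletion L) (WithZero (Multiplicative ℤ)))
      (ii w a) (ii w b))
    (h3 : (3 : 𝓞 L) ∈ w.asIdeal) (h3' : (3 : 𝓞 L) ∉ w.asIdeal ^ 2) (u : Fin 4 → (𝓞 L)ˣ) :
    ∃ i j, i ≠ j ∧ LocSol 1 (ii w a) (9 * ii w b + 4 * ii w a ^ 3)
      (ii w ((u i / u j : (𝓞 L)ˣ) : 𝓞 L)) := by
  obtain ⟨k, _, _, ρ, hρs, hρ⟩ := exists_resid w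
  obtain ⟨i, j, hij, H⟩ := bad_pigeon' (ad_hens w) (V3 w h3 h3') hρs hρ (ii_ne0 w hb)
    (ii_cc_ne w hc) hbad (fun i => ii w (u i : 𝓞 L)) (fun i => unit_valued w (u i))
  exact ⟨i, j, hij, by rw [ii_div]; exact H⟩

end

end H86T3
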